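import Pool.Agent.Lib_helper29.SY.DefsS

/-!
# Project SY, block GB: the idempotent of the injective characters
-/

set_option autoImplicit false
set_option linter.unusedSectionVars false

namespace Pool.Agent.SY

open Equiv.Perm
open scoped BigOperators

section GR

open Pool.Agent.RSK

variable {G : Type} [CommGroup G] [Fintype G]

theorem gb_single (χ : G →* ℂˣ) (g : G) (c : ℚ) :
    evQ χ (MonoidAlgebra.single g c) = (c : ℂ) * ((χ g : ℂˣ) : ℂ) := by
  unfold evQ
  rw [MonoidAlgebra.lift_single, Algebra.smul_def]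
  rfl

/-- the factor at the prime `p` -/
noncomputable def gb_fac (h : G) (p : ℕ) : MonoidAlgebra ℚ G :=
  1 - MonoidAlgebra.single 1 ((p : ℚ)⁻¹) * ∑ i ∈ Finset.range p, MonoidAlgebra.single (h ^ i) (1 : ℚ)

theorem gb_ev (χ : G →* ℂˣ) (h : G) (p : ℕ) : evQ χ (gb_fac h p) =
    1 - (p : ℂ)⁻¹ * ∑ i ∈ Finset.range p, (((χ h : ℂˣ) : ℂ)) ^ i := by
  unfold gb_fac
  rw [map_sub, map_one, map_mul, gb_single, map_one, Units.val_one, mul_one, map_sum]
  push_cast
  congr 2
  refine Finset.sum_congr rfl fun i _ => ?_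
  rw [gb_single, map_pow]
  push_cast
  ring

theorem gb_ev_one (χ : G →* ℂˣ) (h : G) {p : ℕ} (hp : p ≠ 0) (h1 : χ h = 1) :
    evQ χ (gb_fac h p) = 0 := by
  rw [gb_ev, h1]
  simp only [Units.val_one, one_pow, Finset.sum_const, Finset.card_range, nsmul_eq_mul, mul_one]
  have : (p : ℂ) ≠ 0 := by exact_mod_cast hp
  rw [inv_mul_cancel₀ this, sub_self]

theorem gb_ev_ne (χ : G →* ℂˣ) (h : G) {p : ℕ} (hp : h ^ p = 1) (h1 : χ h ≠ 1) :
    evQ χ (gb_fac h p) = 1 := by
  rw [gb_ev]
  have h2 : ((χ h : ℂˣ) : ℂ) ≠ 1 := by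
    intro h3
    exact h1 (Units.ext h3)
  have h3 : ((χ h : ℂˣ) : ℂ) ^ p = 1 := by
    have : (χ h) ^ p = 1 := by rw [← map_pow, hp, map_one]
    rw [← Units.val_pow_eq_pow_val, this, Units.val_one]
  rw [geom_sum_eq h2, h3, sub_self, zero_div, mul_zero, sub_zero]

/-- GB. The idempotent of the injective characters: the product over the primes `p ∣ #G` of
`1 - p⁻¹ ∑_{h ^ p = 1} h`. -/
theorem inj_idem [IsCyclic G] : ∃ e : MonoidAlgebra ℚ G, ∀ χ : G →* ℂˣ,
    (Function.Injective χ → evQ χ e = 1) ∧ (¬ Function.Injective χ → evQ χ e = 0) := by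
  obtain ⟨σ, hσ⟩ := (inferInstance : IsCyclic G).exists_generator
  set N := Nat.card G with hN
  have hN0 : 0 < N := Nat.card_pos
  have hord : orderOf σ = N := orderOf_eq_card_of_forall_mem_zpowers hσ
  refine ⟨∏ p ∈ N.primeFactors, gb_fac (σ ^ (N / p)) p, fun χ => ⟨fun hχ => ?_, fun hχ => ?_⟩⟩
  · rw [map_prod]
    apply Finset.prod_eq_one
    intro p hp
    have hpp := Nat.prime_of_mem_primeFactors hp
    have hpN := Nat.dvd_of_mem_primeFactors hp
    apply gb_ev_ne
    · rw [← pow_mul, Nat.div_mul_cancel hpN, ← hord, pow_orderOf_eq_one]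
    · intro h1
      have h2 : σ ^ (N / p) = 1 := hχ (by rw [h1, map_one])
      have h3 := orderOf_dvd_of_pow_eq_one h2
      rw [hord] at h3
      have h4 : 0 < N / p := Nat.div_pos (Nat.le_of_dvd hN0 hpN) hpp.pos
      have h5 := Nat.le_of_dvd h4 h3
      have h6 : N / p < N := Nat.div_lt_self hN0 hpp.one_lt
      omega
  · rw [map_prod]
    set d := orderOf (χ σ) with hd
    have hdN : d ∣ N := by
      rw [hd, ← hord]
      exact orderOf_map_dvd χ σ
    have hne : d ≠ N := by
      intro h1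
      apply hχ
      rw [injective_iff_map_eq_one]
      intro g hg
      obtain ⟨k, rfl⟩ := (Submonoid.mem_powers_iff g σ).mp (mem_powers_iff_mem_zpowers.mpr (hσ g))
      have h2 : χ σ ^ k = 1 := by rw [← map_pow]; exact hg
      have h3 := orderOf_dvd_of_pow_eq_one h2
      rw [← hd, h1, ← hord] at h3
      exact orderOf_dvd_iff_pow_eq_one.mp h3
    obtain ⟨c, hc⟩ := hdN
    have hc1 : c ≠ 1 := by
      rintro rfl
      rw [mul_one] at hc
      exact hne hc.symm
    obtain ⟨p, hpp, c', hc'⟩ := Nat.exists_prime_and_dvd hc1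
    have hpN : p ∣ N := by rw [hc, hc']; exact Dvd.intro_left _ (by ring : d * c' * p = d * (p * c'))
    apply Finset.prod_eq_zero (i := p) (Nat.mem_primeFactors.mpr ⟨hpp, hpN, hN0.ne'⟩)
    apply gb_ev_one _ _ hpp.ne_zero
    have h7 : N / p = d * c' := by
      rw [hc, hc']
      rw [show d * (p * c') = p * (d * c') by ring]
      exact Nat.mul_div_cancel_left _ hpp.pos
    rw [map_pow, h7, pow_mul, hd, pow_orderOf_eq_one, one_pow]

end GR

end Pool.Agent.SY
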