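import Mathlib

/-!
# Class functions induced by linear characters
-/

set_option autoImplicit false
set_option linter.unusedSectionVars false

namespace Pool.Agent.SY

/-- the class function induced by `ψ` -/
noncomputable def indG {Γ B : Type} [Group Γ] [Group B] (j : B →* Γ) (ψ : B →* ℂˣ) (γ : Γ) : ℂ :=
  (Nat.card B : ℂ)⁻¹ * ∑ᶠ δ : Γ, ∑ᶠ b : {b : B // j b = δ⁻¹ * γ * δ}, ((ψ b.1 : ℂˣ) : ℂ)

section IND

variable {Γ B : Type} [Group Γ] [Group B]

open scoped Classical in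
theorem indG_eq [Fintype Γ] [Fintype B] (j : B →* Γ) (ψ : B →* ℂˣ) (γ : Γ) :
    indG j ψ γ = (Fintype.card B : ℂ)⁻¹ * ∑ δ : Γ, ∑ b : B,
      if j b = δ⁻¹ * γ * δ then ((ψ b : ℂˣ) : ℂ) else 0 := by
  rw [indG, finsum_eq_sum_of_fintype, Nat.card_eq_fintype_card]
  congr 1
  refine Finset.sum_congr rfl fun δ _ => ?_
  rw [finsum_eq_sum_of_fintype, ← Finset.sum_filter]
  exact (Finset.sum_subtype _ (fun b => by simp) (fun b => ((ψ b : ℂˣ) : ℂ))).symm

/-- Frobenius reciprocity -/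
theorem indG_sum [Fintype Γ] [Fintype B] (j : B →* Γ) (ψ : B →* ℂˣ) (t : Γ → ℂ)
    (ht : ∀ δ γ, t (δ * γ * δ⁻¹) = t γ) :
    ∑ γ, indG j ψ γ * t γ = (Fintype.card Γ : ℂ) * ((Fintype.card B : ℂ)⁻¹ *
      ∑ b : B, ((ψ b : ℂˣ) : ℂ) * t (j b)) := by
  classical
  have h1 : ∀ γ, indG j ψ γ * t γ = (Fintype.card B : ℂ)⁻¹ * ∑ δ : Γ, ∑ b : B,
      if j b = δ⁻¹ * γ * δ then ((ψ b : ℂˣ) : ℂ) * t γ else 0 := by
    intro γ
    rw [indG_eq, mul_assoc, Finset.sum_mul]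
    congr 1
    refine Finset.sum_congr rfl fun δ _ => ?_
    rw [Finset.sum_mul]
    refine Finset.sum_congr rfl fun b _ => ?_
    split_ifs <;> simp
  rw [Finset.sum_congr rfl fun γ _ => h1 γ, ← Finset.mul_sum, mul_left_comm]
  congr 1
  rw [Finset.sum_comm]
  have h2 : ∀ δ : Γ, (∑ γ : Γ, ∑ b : B,
      if j b = δ⁻¹ * γ * δ then ((ψ b : ℂˣ) : ℂ) * t γ else 0) =
      ∑ b : B, ((ψ b : ℂˣ) : ℂ) * t (j b) := by
    intro δ
    rw [Finset.sum_comm]
    refine Finset.sum_congr rfl fun b _ => ?_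
    have h3 : ∀ γ : Γ, j b = δ⁻¹ * γ * δ ↔ γ = δ * j b * δ⁻¹ := by
      intro γ
      constructor
      · intro h
        rw [h]
        group
      · rintro rfl
        group
    simp_rw [h3]
    rw [Finset.sum_ite_eq' Finset.univ (δ * j b * δ⁻¹), if_pos (Finset.mem_univ _), ht]
  rw [Finset.sum_congr rfl fun δ _ => h2 δ, Finset.sum_const, Finset.card_univ, nsmul_eq_mul]

end IND

end Pool.Agent.SY
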