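import Mathlib

/-!
# Traces on the isotypic part of a permutation module
-/

set_option autoImplicit false
set_option linter.unusedSectionVars false

namespace Pool.Agent.SY

open Module

/-- the functions on `X` with `h (κ γ x) = χ γ * h x` -/
def TgW {k Γ X : Type} [Field k] [Group Γ] (κ : Γ →* Equiv.Perm X) (χ : Γ →* kˣ) :
    Submodule k (X → k) where
  carrier := {h | ∀ γ x, h (κ γ x) = χ γ * h x}
  zero_mem' := fun γ x => by simp
  add_mem' := fun {a b} ha hb γ x => by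
    show a (κ γ x) + b (κ γ x) = χ γ * (a x + b x)
    rw [ha, hb, mul_add]
  smul_mem' := fun c a ha γ x => by
    show c * a (κ γ x) = χ γ * (c * a x)
    rw [ha]
    ring

/-- `∑_x M(γ x, x)` -/
def tgt {k Γ X : Type} [Field k] [Group Γ] [Fintype X] (κ : Γ →* Equiv.Perm X) (M : Matrix X X k)
    (γ : Γ) : k := ∑ x, M (κ γ x) x

section

variable {k Γ X : Type} [Field k] [Group Γ] [Fintype X]

theorem tg_stable {κ : Γ →* Equiv.Perm X} {χ : Γ →* kˣ} {M : Matrix X X k}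
    (hM : ∀ γ x y, M (κ γ x) (κ γ y) = M x y) :
    ∀ h ∈ TgW κ χ, Matrix.mulVecLin M h ∈ TgW κ χ := by
  intro h hh γ x
  rw [Matrix.mulVecLin_apply, Matrix.mulVec, Matrix.mulVec, dotProduct, dotProduct]
  rw [← Equiv.sum_comp (κ γ), Finset.mul_sum]
  refine Finset.sum_congr rfl fun y _ => ?_
  rw [hM, hh]
  ring

/-- the projection on the isotypic part -/
noncomputable def tgP [Fintype Γ] (κ : Γ →* Equiv.Perm X) (χ : Γ →* kˣ) :
    (X → k) →ₗ[k] (X → k) :=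
  (Fintype.card Γ : k)⁻¹ • ∑ γ : Γ, ((χ γ)⁻¹ : kˣ) • LinearMap.funLeft k k (κ γ)

theorem tgP_apply [Fintype Γ] (κ : Γ →* Equiv.Perm X) (χ : Γ →* kˣ) (h : X → k) (x : X) :
    tgP κ χ h x = (Fintype.card Γ : k)⁻¹ * ∑ γ : Γ, (((χ γ)⁻¹ : kˣ) : k) * h (κ γ x) := by
  simp [tgP, LinearMap.funLeft, Units.smul_def]

theorem tgP_mem [Fintype Γ] (κ : Γ →* Equiv.Perm X) (χ : Γ →* kˣ) (h : X → k) :
    tgP κ χ h ∈ TgW κ χ := by
  intro δ x
  rw [tgP_apply, tgP_apply, mul_left_comm]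
  congr 1
  rw [Finset.mul_sum]
  refine Fintype.sum_equiv (Equiv.mulRight δ) (fun γ : Γ => (((χ γ)⁻¹ : kˣ) : k) * h (κ γ (κ δ x)))
    (fun γ : Γ => (χ δ : k) * ((((χ γ)⁻¹ : kˣ) : k) * h (κ γ x))) fun γ => ?_
  show (((χ γ)⁻¹ : kˣ) : k) * h (κ γ (κ δ x)) = χ δ * ((((χ (γ * δ))⁻¹ : kˣ) : k) * h (κ (γ * δ) x))
  rw [map_mul κ, Equiv.Perm.mul_apply, ← mul_assoc, ← Units.val_mul, map_mul χ, mul_inv_rev,
    mul_inv_cancel_left]

theorem tgP_id [CharZero k] [Fintype Γ] (κ : Γ →* Equiv.Perm X) (χ : Γ →* kˣ) {h : X → k}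
    (hh : h ∈ TgW κ χ) : tgP κ χ h = h := by
  funext x
  rw [tgP_apply]
  have h1 : ∀ γ : Γ, (((χ γ)⁻¹ : kˣ) : k) * h (κ γ x) = h x := by
    intro γ
    rw [hh γ x, ← mul_assoc, ← Units.val_mul, inv_mul_cancel, Units.val_one, one_mul]
  rw [Finset.sum_congr rfl fun γ _ => h1 γ, Finset.sum_const, nsmul_eq_mul, Finset.card_univ,
    inv_mul_cancel_left₀ (by exact_mod_cast Fintype.card_ne_zero)]

/-- the trace on the isotypic part -/
theorem tg_trace [CharZero k] [Fintype Γ] [DecidableEq X] {κ : Γ →* Equiv.Perm X} {χ : Γ →* kˣ}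
    {M : Matrix X X k} (hM : ∀ γ x y, M (κ γ x) (κ γ y) = M x y) :
    LinearMap.trace k (TgW κ χ) ((Matrix.mulVecLin M).restrict (tg_stable (χ := χ) hM)) =
      (Fintype.card Γ : k)⁻¹ * ∑ γ : Γ, (((χ γ)⁻¹ : kˣ) : k) * tgt κ M γ := by
  set A : (X → k) →ₗ[k] (X → k) := Matrix.mulVecLin M with hA
  let q : (X → k) →ₗ[k] TgW κ χ := (tgP κ χ).codRestrict (TgW κ χ) (tgP_mem κ χ)
  let i : TgW κ χ →ₗ[k] (X → k) := (TgW κ χ).subtype
  have h1 : (A.restrict (tg_stable (χ := χ) hM)) = q ∘ₗ (A ∘ₗ i) := by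
    refine LinearMap.ext fun h => ?_
    apply Subtype.ext
    show A h = tgP κ χ (A h)
    rw [tgP_id κ χ (tg_stable hM _ h.2)]
  have h2 : (A ∘ₗ i) ∘ₗ q = A ∘ₗ tgP κ χ := rfl
  rw [h1, LinearMap.trace_comp_comm' (A ∘ₗ i) q, h2]
  have h3 : A ∘ₗ tgP κ χ = (Fintype.card Γ : k)⁻¹ • ∑ γ : Γ, ((χ γ)⁻¹ : kˣ) •
      (A ∘ₗ LinearMap.funLeft k k (κ γ)) := by
    refine LinearMap.ext fun h => ?_
    rw [LinearMap.comp_apply, tgP]
    simp only [LinearMap.smul_apply, LinearMap.sum_apply, map_smul, map_sum, LinearMap.comp_apply,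
      Units.smul_def]
  rw [h3, map_smul, map_sum, smul_eq_mul]
  congr 1
  refine Finset.sum_congr rfl fun γ _ => ?_
  rw [Units.smul_def, map_smul, smul_eq_mul]
  congr 1
  have h4 : A ∘ₗ LinearMap.funLeft k k (κ γ) =
      Matrix.mulVecLin (Matrix.of fun x y => M x ((κ γ).symm y)) := by
    refine LinearMap.ext fun h => ?_
    funext x
    show Matrix.mulVec M (fun y => h (κ γ y)) x = Matrix.mulVec _ h x
    rw [Matrix.mulVec, Matrix.mulVec, dotProduct, dotProduct]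
    refine Fintype.sum_equiv (κ γ) (fun y => M x y * h (κ γ y))
      (fun y => (Matrix.of fun x y => M x ((κ γ).symm y)) x y * h y) fun y => ?_
    rw [Matrix.of_apply, Equiv.symm_apply_apply]
  rw [h4, ← Matrix.toLin'_apply', Matrix.trace_toLin'_eq, Matrix.trace, tgt]
  symm
  refine Fintype.sum_equiv (κ γ) (fun x => M (κ γ x) x)
    (fun x => (Matrix.of fun x y => M x ((κ γ).symm y)).diag x) fun x => ?_
  rw [Matrix.diag_apply, Matrix.of_apply, Equiv.symm_apply_apply]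

end

end Pool.Agent.SY
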