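import Pool.Agent.Lib_helper29.SY.TP
import Pool.Agent.Lib_helper29.SY.TG
import Pool.Agent.Lib_helper29.SY.Ind
import Pool.Agent.Lib_helper35.RS3.P_TIA
import Pool.Agent.Lib_helper35.RS3.P_TIC

/-!
# The determinants on `Γ`-maps and an identity of class functions
-/

set_option autoImplicit false
set_option linter.unusedSectionVars false

namespace Pool.Agent.SY

open Module Pool.Agent.RS3

section TR

variable {k Γ Ω : Type} [Field k] [Group Γ] [Fintype Ω]

theorem tgt_conj {κ : Γ →* Equiv.Perm Ω} {M : Matrix Ω Ω k} (hM : MIv κ M) (δ γ : Γ) :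
    tgt κ M (δ * γ * δ⁻¹) = tgt κ M γ := by
  rw [tgt, tgt]
  symm
  refine Fintype.sum_equiv (κ δ) (fun x => M (κ γ x) x)
    (fun x => M (κ (δ * γ * δ⁻¹) x) x) fun x => ?_
  rw [← Equiv.Perm.mul_apply, ← map_mul, inv_mul_cancel_right, map_mul, Equiv.Perm.mul_apply, hM]

theorem miv_one [DecidableEq Ω] (κ : Γ →* Equiv.Perm Ω) : MIv κ (1 : Matrix Ω Ω k) := by
  intro γ ω ω'
  rw [Matrix.one_apply, Matrix.one_apply]
  simp only [EmbeddingLike.apply_eq_iff_eq]

theorem miv_mul {κ : Γ →* Equiv.Perm Ω} {M N : Matrix Ω Ω k} (hM : MIv κ M) (hN : MIv κ N) :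
    MIv κ (M * N) := by
  intro γ ω ω'
  show (M * N) _ _ = (M * N) _ _
  rw [Matrix.mul_apply, Matrix.mul_apply]
  symm
  refine Fintype.sum_equiv (κ γ) _ _ fun x => ?_
  rw [hM, hN]

theorem miv_pow [DecidableEq Ω] {κ : Γ →* Equiv.Perm Ω} {M : Matrix Ω Ω k} (hM : MIv κ M) (r : ℕ) :
    MIv κ (M ^ r) := by
  induction r with
  | zero => rw [pow_zero]; exact miv_one κ
  | succ r ih => rw [pow_succ]; exact miv_mul ih hM

/-- the product action -/
def pact {Y : Type} (σ : Γ →* Equiv.Perm Y) (κ : Γ →* Equiv.Perm Ω) :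
    Γ →* Equiv.Perm (Y × Ω) where
  toFun γ := (σ γ).prodCongr (κ γ)
  map_one' := by
    ext1 x
    rw [map_one, map_one]
    rfl
  map_mul' a b := by
    ext1 x
    rw [map_mul, map_mul]
    rfl

open scoped Classical in
/-- the matrix on `Y × Ω` -/
noncomputable def matY (Y : Type) (M : Matrix Ω Ω k) : Matrix (Y × Ω) (Y × Ω) k :=
  Matrix.of fun p q => if p.1 = q.1 then M p.2 q.2 else 0

theorem matY_miv {Y : Type} (σ : Γ →* Equiv.Perm Y) {κ : Γ →* Equiv.Perm Ω} {M : Matrix Ω Ω k}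
    (hM : MIv κ M) : ∀ γ x y, matY Y M (pact σ κ γ x) (pact σ κ γ y) = matY Y M x y := by
  intro γ x y
  classical
  show (if σ γ x.1 = σ γ y.1 then M (κ γ x.2) (κ γ y.2) else 0) =
    (if x.1 = y.1 then M x.2 y.2 else 0)
  by_cases h : x.1 = y.1
  · rw [if_pos h, if_pos (by rw [h]), hM]
  · rw [if_neg h, if_neg (fun h' => h ((σ γ).injective h'))]

theorem matY_tgt {Y : Type} [Fintype Y] (σ : Γ →* Equiv.Perm Y) (κ : Γ →* Equiv.Perm Ω)
    (M : Matrix Ω Ω k) (γ : Γ) :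
    tgt (pact σ κ) (matY Y M) γ = (Nat.card {y // σ γ y = y} : k) * tgt κ M γ := by
  classical
  rw [tgt, Fintype.sum_prod_type]
  have h1 : ∀ y : Y, (∑ ω : Ω, matY Y M (pact σ κ γ (y, ω)) (y, ω)) =
      if σ γ y = y then tgt κ M γ else 0 := by
    intro y
    show (∑ ω : Ω, if σ γ y = y then M (κ γ ω) ω else 0) = _
    split_ifs
    · rfl
    · simp
  rw [Finset.sum_congr rfl fun y _ => h1 y, ← Finset.sum_filter, Finset.sum_const, nsmul_eq_mul,
    Nat.card_eq_fintype_card, Fintype.card_subtype]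

/-- the identification of the `Γ`-maps with invariant functions on the product -/
noncomputable def wyE {Y : Type} (κ : Γ →* Equiv.Perm Ω) (σ : Γ →* Equiv.Perm Y) :
    WY k κ σ ≃ₗ[k] TgW (k := k) (pact σ κ) 1 where
  toFun h := ⟨fun p => h.1 p.1 p.2, fun γ x => by
    show h.1 (σ γ x.1) (κ γ x.2) = ((1 : Γ →* kˣ) γ : k) * h.1 x.1 x.2
    rw [h.2, MonoidHom.one_apply, Units.val_one, one_mul]⟩
  map_add' a b := rfl
  map_smul' c a := rfl
  invFun h := ⟨fun y ω => h.1 (y, ω), fun γ y ω => by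
    have h1 := h.2 γ (y, ω)
    rw [MonoidHom.one_apply, Units.val_one, one_mul] at h1
    exact h1⟩
  left_inv h := rfl
  right_inv h := rfl

theorem fy_mul (Y : Type) (M N : Matrix Ω Ω k) : FY Y (M * N) = FY Y M ∘ₗ FY Y N := by
  refine LinearMap.ext fun h => ?_
  funext y
  show Matrix.mulVecLin (M * N) (h y) = Matrix.mulVecLin M (Matrix.mulVecLin N (h y))
  rw [Matrix.mulVecLin_mul]
  rfl

theorem fy_pow (Y : Type) [DecidableEq Ω] (M : Matrix Ω Ω k) (r : ℕ) :
    FY Y (M ^ r) = FY Y M ^ r := by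
  induction r with
  | zero =>
    rw [pow_zero, pow_zero]
    refine LinearMap.ext fun h => ?_
    funext y
    show Matrix.mulVecLin 1 (h y) = h y
    rw [Matrix.mulVecLin_one]
    rfl
  | succ r ih => rw [pow_succ, pow_succ, fy_mul, ih]; rfl

theorem fy_mem {Y : Type} {κ : Γ →* Equiv.Perm Ω} {M : Matrix Ω Ω k} (hM : MIv κ M)
    (σ : Γ →* Equiv.Perm Y) : ∀ x ∈ WY k κ σ, FY Y M x ∈ WY k κ σ := by
  intro x hx γ y ω
  show ∑ ω', M (κ γ ω) ω' * x (σ γ y) ω' = ∑ ω', M ω ω' * x y ω'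
  rw [← Equiv.sum_comp (κ γ)]
  exact Finset.sum_congr rfl fun ω' _ => by rw [hM, hx]

theorem fy_trace [CharZero k] [Fintype Γ] {Y : Type} [Fintype Y] {κ : Γ →* Equiv.Perm Ω}
    {M : Matrix Ω Ω k} (hM : MIv κ M) (σ : Γ →* Equiv.Perm Y) :
    LinearMap.trace k (WY k κ σ) ((FY Y M).restrict (fy_mem hM σ)) =
      (Fintype.card Γ : k)⁻¹ * ∑ γ : Γ, (Nat.card {y // σ γ y = y} : k) * tgt κ M γ := by
  classical
  have h1 := tg_trace (χ := (1 : Γ →* kˣ)) (matY_miv σ hM)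
  have h2 := LinearMap.trace_conj' ((FY Y M).restrict (fy_mem hM σ)) (wyE (k := k) κ σ)
  have h3 : (wyE (k := k) κ σ).conj ((FY Y M).restrict (fy_mem hM σ)) =
      (Matrix.mulVecLin (matY Y M)).restrict (tg_stable (χ := (1 : Γ →* kˣ)) (matY_miv σ hM)) := by
    refine LinearMap.ext fun h => ?_
    apply Subtype.ext
    funext p
    show (∑ ω', M p.2 ω' * h.1 (p.1, ω')) = ∑ q : Y × Ω, matY Y M p q * h.1 q
    rw [Fintype.sum_prod_type]
    rw [Finset.sum_eq_single p.1]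
    · refine Finset.sum_congr rfl fun ω' _ => ?_
      show _ = (if p.1 = p.1 then M p.2 ω' else 0) * _
      rw [if_pos rfl]
    · intro y _ hy
      refine Finset.sum_eq_zero fun ω' _ => ?_
      show (if p.1 = y then M p.2 ω' else 0) * _ = 0
      rw [if_neg (fun h => hy h.symm), zero_mul]
    · intro h
      exact absurd (Finset.mem_univ _) h
  rw [← h2, h3, h1]
  congr 1
  refine Finset.sum_congr rfl fun γ _ => ?_
  rw [matY_tgt, MonoidHom.one_apply, inv_one, Units.val_one, one_mul]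

end TR

section MAIN

variable {Γ B Ω Y Y' : Type} [Group Γ] [Group B] [Finite Γ] [Finite B] [Fintype Ω] [Finite Y]
  [Finite Y']

/-- If `ℂ[Y]` and `ℂ[Y']` differ by the representation induced by `ψ`, the determinants differ by
the determinant on the `ψ⁻¹`-part. -/
theorem dt_main {κ : Γ →* Equiv.Perm Ω} {M : Matrix Ω Ω ℂ} (hM : MIv κ M) (j : B →* Γ)
    (ψ : B →* ℂˣ) (σ : Γ →* Equiv.Perm Y) (σ' : Γ →* Equiv.Perm Y')
    (hcf : ∀ γ, (Nat.card {y // σ γ y = y} : ℂ) = Nat.card {y // σ' γ y = y} + indG j ψ γ) :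
    dtW κ M σ = dtW κ M σ' * LinearMap.det ((Matrix.mulVecLin M).restrict
      (tg_stable (κ := κ.comp j) (χ := ψ⁻¹) (fun b x y => hM (j b) x y))) ∧
    finrank ℂ (WY ℂ κ σ) = finrank ℂ (WY ℂ κ σ') + finrank ℂ (TgW (k := ℂ) (κ.comp j) ψ⁻¹) := by
  classical
  have := Fintype.ofFinite Γ
  have := Fintype.ofFinite B
  have := Fintype.ofFinite Y
  have := Fintype.ofFinite Y'
  have key : ∀ r : ℕ, LinearMap.trace ℂ (WY ℂ κ σ) (((FY Y M).restrict (fy_mem hM σ)) ^ r) =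
      LinearMap.trace ℂ (WY ℂ κ σ') (((FY Y' M).restrict (fy_mem hM σ')) ^ r) +
      LinearMap.trace ℂ (TgW (k := ℂ) (κ.comp j) ψ⁻¹) (((Matrix.mulVecLin M).restrict
        (tg_stable (κ := κ.comp j) (χ := ψ⁻¹) (fun b x y => hM (j b) x y))) ^ r) := by
    intro r
    have hr := miv_pow hM r
    have e1 : ((FY Y M).restrict (fy_mem hM σ)) ^ r = (FY Y (M ^ r)).restrict (fy_mem hr σ) := by
      rw [Module.End.pow_restrict r (fy_mem hM σ)]
      refine LinearMap.ext fun h => Subtype.ext ?_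
      show (FY Y M ^ r) h.1 = FY Y (M ^ r) h.1
      rw [fy_pow]
    have e2 : ((FY Y' M).restrict (fy_mem hM σ')) ^ r = (FY Y' (M ^ r)).restrict (fy_mem hr σ') := by
      rw [Module.End.pow_restrict r (fy_mem hM σ')]
      refine LinearMap.ext fun h => Subtype.ext ?_
      show (FY Y' M ^ r) h.1 = FY Y' (M ^ r) h.1
      rw [fy_pow]
    have e3 : ((Matrix.mulVecLin M).restrict
        (tg_stable (κ := κ.comp j) (χ := ψ⁻¹) (fun b x y => hM (j b) x y))) ^ r =
        (Matrix.mulVecLin (M ^ r)).restrict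
          (tg_stable (κ := κ.comp j) (χ := ψ⁻¹) (fun b x y => hr (j b) x y)) := by
      rw [Module.End.pow_restrict r (tg_stable (κ := κ.comp j) (χ := ψ⁻¹)
        (fun b x y => hM (j b) x y))]
      refine LinearMap.ext fun h => Subtype.ext ?_
      show (Matrix.mulVecLin M ^ r) h.1 = Matrix.mulVecLin (M ^ r) h.1
      rw [← Matrix.toLin'_apply', ← Matrix.toLin'_apply', Matrix.toLin'_pow]
    rw [e1, e2, e3, fy_trace hr σ, fy_trace hr σ', tg_trace (fun b x y => hr (j b) x y)]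
    have h1 := indG_sum j ψ (tgt κ (M ^ r)) (tgt_conj hr)
    have h2 : ∀ γ : Γ, (Nat.card {y // σ γ y = y} : ℂ) * tgt κ (M ^ r) γ =
        (Nat.card {y // σ' γ y = y} : ℂ) * tgt κ (M ^ r) γ + indG j ψ γ * tgt κ (M ^ r) γ := by
      intro γ
      rw [hcf γ, add_mul]
    rw [Finset.sum_congr rfl fun γ _ => h2 γ, Finset.sum_add_distrib, mul_add, h1,
      inv_mul_cancel_left₀ (by exact_mod_cast Fintype.card_ne_zero)]
    congr 2
  obtain ⟨h1, h2⟩ := tp_det _ _ _ key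
  refine ⟨?_, h2⟩
  rw [dtW, dif_pos (fy_mem hM σ), dtW, dif_pos (fy_mem hM σ')]
  exact h1

end MAIN

end Pool.Agent.SY
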