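import Pool.Agent.Lib_helper29.SY.DefsS
import Pool.Agent.Lib_helper49.RT.Defs
import Pool.Agent.Lib_helper35.RS3.DefsH
import Pool.Agent.Lib_helper35.RS2.ArtD

/-!
# Rubin's conjecture for most `T`: extensions whose characters are permutation characters after
induction
-/

set_option autoImplicit false
set_option linter.unusedSectionVars false

namespace Pool.Agent.SY

open Pool.Agent.RSK Pool.Agent.RS2 Pool.Agent.RS3
open NumberField IsDedekindDomain Filter Topology Complex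

/-! ## Statement -/

/-- The character of `Gal(L/F₀)` induced from the character `χ` of `Gal(K/F)` (inflated to
`Gal(L/F)`), `F₀ ⊆ F ⊆ K ⊆ L`: `Ind χ (γ) = [L : F]⁻¹ ∑ χ(τ)`, the sum over the pairs
`δ ∈ Gal(L/F₀)`, `τ ∈ Gal(K/F)` such that `δ⁻¹ γ δ` restricts to `τ` on `K`. -/
noncomputable def indK {F₀ F K L : Type} [Field F₀] [Field F] [Field K] [Field L] [Algebra F K]
    [Algebra F L] [Algebra F₀ L] [Algebra K L] (χ : (K ≃ₐ[F] K) →* ℂˣ) (γ : L ≃ₐ[F₀] L) : ℂ :=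
  (Module.finrank F L : ℂ)⁻¹ * ∑ᶠ q : {q : (L ≃ₐ[F₀] L) × (K ≃ₐ[F] K) //
    ∀ x : K, γ (q.1 (algebraMap K L x)) = q.1 (algebraMap K L (q.2 x))}, ((χ q.1.2 : ℂˣ) : ℂ)

/-- The condition on a cyclic extension `K/F` of number fields: there are number fields
`F₀ ⊆ F ⊆ K ⊆ L` such that `L/F₀` is Galois, finite `Gal(L/F₀)`-sets `Y`, `Y'` and an injective
character `χ` of `Gal(K/F)` such that `Ind χ` is the difference of the permutation characters of
`Y` and `Y'`. -/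
def PermLay (F K : Type) [Field F] [NumberField F] [Field K] [NumberField K] [Algebra F K] :
    Prop :=
  ∃ (F₀ L : Type) (_ : Field F₀) (_ : NumberField F₀) (_ : Field L) (_ : NumberField L)
    (_ : Algebra F₀ F) (_ : Algebra F₀ L) (_ : Algebra F L) (_ : Algebra K L)
    (_ : IsScalarTower F₀ F L) (_ : IsScalarTower F K L) (_ : IsGalois F₀ L)
    (Y Y' : Type) (_ : Finite Y) (_ : Finite Y') (σ : (L ≃ₐ[F₀] L) →* Equiv.Perm Y)
    (σ' : (L ≃ₐ[F₀] L) →* Equiv.Perm Y') (χ : (K ≃ₐ[F] K) →* ℂˣ),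
    Function.Injective χ ∧ ∀ γ : L ≃ₐ[F₀] L,
      (Nat.card {y // σ γ y = y} : ℂ) - Nat.card {y // σ' γ y = y} = indK χ γ

/-- There are number fields `F₀ ⊆ F ⊆ H ⊆ L` such that `L/F₀` is Galois and its Galois group is
isomorphic to a product of symmetric groups. -/
def SymT (F H : Type) [Field F] [NumberField F] [Field H] [NumberField H] [Algebra F H] : Prop :=
  ∃ (F₀ L : Type) (_ : Field F₀) (_ : NumberField F₀) (_ : Field L) (_ : NumberField L)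
    (_ : Algebra F₀ F) (_ : Algebra F₀ L) (_ : Algebra F L) (_ : Algebra H L)
    (_ : IsScalarTower F₀ F L) (_ : IsScalarTower F H L) (_ : IsGalois F₀ L)
    (k : ℕ) (n : Fin k → ℕ), Nonempty ((L ≃ₐ[F₀] L) ≃* ((i : Fin k) → Equiv.Perm (Fin (n i))))

/-- `H/F₀` is Galois for a number field `F₀ ⊆ F`, and `Gal(H/F₀)` is the semidirect product of
`Gal(H/F)` and the image of a homomorphism `θ` on `(ℤ/m)ˣ` with `θ(a) s θ(a)⁻¹ = s ^ a` and
`s ^ m = 1` for all `s ∈ Gal(H/F)`. -/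
def HolT (F H : Type) [Field F] [NumberField F] [Field H] [NumberField H] [Algebra F H] : Prop :=
  ∃ (F₀ : Type) (_ : Field F₀) (_ : NumberField F₀) (_ : Algebra F₀ F) (_ : Algebra F₀ H)
    (_ : IsScalarTower F₀ F H) (_ : IsGalois F₀ H) (m : ℕ) (θ : (ZMod m)ˣ →* (H ≃ₐ[F₀] H)),
    0 < m ∧ (∀ s : H ≃ₐ[F] H, s ^ m = 1) ∧
    (∀ (a : (ZMod m)ˣ) (s : H ≃ₐ[F] H) (x : H), θ a (s x) = (s ^ (a : ZMod m).val) (θ a x)) ∧
    (∀ γ : H ≃ₐ[F₀] H, ∃ (s : H ≃ₐ[F] H) (a : (ZMod m)ˣ), ∀ x, γ x = s (θ a x)) ∧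
    ∀ (a : (ZMod m)ˣ) (s : H ≃ₐ[F] H), (∀ x, θ a x = s x) → a = 1

/-- `H/F` is a Kummer extension of exponent dividing `n` which is defined over a number field
`F₀ ⊆ F` with `F = F₀(ζ)`, `[F : F₀] = φ(n)`; for even `n`, moreover `[F₀(B) : F₀] = [H : F]`. -/
def KumN (F H : Type) [Field F] [NumberField F] [Field H] [NumberField H] [Algebra F H] : Prop :=
  ∃ (F₀ : Type) (_ : Field F₀) (_ : NumberField F₀) (_ : Algebra F₀ F) (_ : Algebra F₀ H)
    (_ : IsScalarTower F₀ F H) (n : ℕ) (ζ : F) (B : Set H), 0 < n ∧ Kum F₀ n ζ B ∧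
      (Even n → Module.finrank F₀ (IntermediateField.adjoin F₀ B) = Module.finrank F H)

/-! ## The new part of a cyclic layer -/

/-- the inclusion of `Gal(L/F)` in `Gal(L/F₀)` -/
def rsg (F₀ F L : Type) [Field F₀] [Field F] [Field L] [Algebra F₀ F] [Algebra F₀ L] [Algebra F L]
    [IsScalarTower F₀ F L] : (L ≃ₐ[F] L) →* (L ≃ₐ[F₀] L) where
  toFun g := g.restrictScalars F₀
  map_one' := rfl
  map_mul' _ _ := rfl

section CoreDef

variable {F H : Type} [Field F] [NumberField F] [Field H] [NumberField H] [Algebra F H]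
variable {G : Type} [CommGroup G] [Fintype G]

/-- `c χ = lim_{s → 0} s^{-r} L_{S,T}(χ, s)` for every injective character `χ` of `G`. -/
def LeadI (S T : Finset (HeightOneSpectrum (𝓞 F))) (r : ℕ) (fr : HeightOneSpectrum (𝓞 F) → G)
    (c : (G →* ℂˣ) → ℂ) : Prop :=
  ∀ χ : G →* ℂˣ, Function.Injective χ → ∃ Λ : ℂ → ℂ, MeromorphicOn Λ Set.univ ∧
    (∀ s : ℂ, 1 < s.re → Λ s = LST S T fr χ s) ∧
    Tendsto (fun s : ℂ => Λ s / s ^ r) (𝓝[≠] 0) (𝓝 (c χ))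

/-- `x b_1 ∧ … ∧ b_r` is the element with values `c χ⁻¹` at the injective characters and `0` at the
others. -/
structure CoreF (ι : G ≃* (H ≃ₐ[F] H)) (S T : Finset (HeightOneSpectrum (𝓞 F)))
    {r : ℕ} (w : Fin r → Pl H) (c : (G →* ℂˣ) → ℂ) (b : Fin r → UM ι S T)
    (x : MonoidAlgebra ℚ G) : Prop where
  off : ∀ χ : G →* ℂˣ, ¬ Function.Injective χ → evQ χ x = 0
  value : ∀ χ : G →* ℂˣ, Function.Injective χ →
    evQ χ x * evR χ (wmat ι S T w b).det = c χ⁻¹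

/-- rational Stark for the injective characters -/
def RCore (ι : G ≃* (H ≃ₐ[F] H)) (S T : Finset (HeightOneSpectrum (𝓞 F))) {r : ℕ}
    (w : Fin r → Pl H) (fr : HeightOneSpectrum (𝓞 F) → G) : Prop :=
  ∃ c : (G →* ℂˣ) → ℂ, LeadI S T r fr c ∧ (∀ χ : G →* ℂˣ, Function.Injective χ → c χ ≠ 0) ∧
    ∃ (b : Fin r → UM ι S T) (x : MonoidAlgebra ℚ G), CoreF ι S T w c b x

/-- the data provided by the subgroup `N` -/
structure Ft5Q (ι : G ≃* (H ≃ₐ[F] H)) (S T : Finset (HeightOneSpectrum (𝓞 F))) {r : ℕ}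
    (w : Fin r → Pl H) (fr : HeightOneSpectrum (𝓞 F) → G) (N : Subgroup G)
    (c : (G →* ℂˣ) → ℂ) (b : Fin r → UM ι S T) (x : MonoidAlgebra ℚ G) : Prop where
  lead : ∀ χ : G →* ℂˣ, χ.ker = N → ∃ Λ : ℂ → ℂ, MeromorphicOn Λ Set.univ ∧
    (∀ s : ℂ, 1 < s.re → Λ s = LST S T fr χ s) ∧
    Tendsto (fun s : ℂ => Λ s / s ^ r) (𝓝[≠] 0) (𝓝 (c χ))
  off : ∀ χ : G →* ℂˣ, χ.ker ≠ N → evQ χ x = 0
  val : ∀ χ : G →* ℂˣ, χ.ker = N → evQ χ x * evR χ (wmat ι S T w b).det = c χ⁻¹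
  van : ∀ χ : G →* ℂˣ, χ.ker = N → c χ = 0 → evQ χ x = 0

end CoreDef

end Pool.Agent.SY
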