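import Pool.Agent.Lib_helper29.SY.DefsS
import Pool.Agent.Lib_helper29.SY.Defs
import Pool.Agent.Lib_helper29.SY.DT
import Pool.Agent.Lib_helper49.RT.Amp
import Pool.Agent.Lib_helper35.RS2.P_LF
import Pool.Agent.Lib_helper17.RS.P_LE

/-!
# Project SY, block LI: the L-functions for larger sets, injective characters
-/

set_option autoImplicit false
set_option linter.unusedSectionVars false

namespace Pool.Agent.SY

open Pool.Agent.RSK Pool.Agent.RS2 Pool.Agent.RS3 Pool.Agent.RT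
open NumberField IsDedekindDomain Filter Topology Complex
open scoped TensorProduct

section LEAD

variable {F H : Type} [Field F] [NumberField F] [Field H] [NumberField H] [Algebra F H]
  [IsGalois F H] {G : Type} [CommGroup G] [Fintype G]
  {ι : G ≃* (H ≃ₐ[F] H)} {S T : Finset (HeightOneSpectrum (𝓞 F))} {r : ℕ} {w : Fin r → Pl H}
  {fr : HeightOneSpectrum (𝓞 F) → G}

theorem leadI_non {v : HeightOneSpectrum (𝓞 F)} (hv : v ∉ S) (hfr : fr v ≠ 1)
    {c : (G →* ℂˣ) → ℂ} (hc : LeadI (Finset.cons v S hv) T r fr c) :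
    LeadI S T r fr (fun χ => c χ / (1 - (χ (fr v) : ℂ))) := by
  intro χ hχ
  obtain ⟨Λ, h1, h2, h3⟩ := hc χ hχ
  have hne : (1 : ℂ) - (χ (fr v) : ℂ) ≠ 0 := by
    intro h
    refine hfr (hχ (Units.ext ?_))
    rw [map_one, Units.val_one]
    exact (sub_eq_zero.1 h).symm
  refine ⟨fun s => Λ s / (1 - (χ (fr v) : ℂ) * (nv v : ℂ) ^ (0 - s)), ?_, ?_, ?_⟩
  · exact h1.div (le_mero_pow v _ 0)
  · intro s hs
    have hf0 : 1 - (χ (fr v) : ℂ) * (nv v : ℂ) ^ (-s) ≠ 0 :=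
      le_factor v χ (by rw [Complex.neg_re]; linarith)
    beta_reduce
    rw [h2 s hs, lst_consS hv χ hs, zero_sub]
    field_simp
  · have h5 := h3.div (le_cont v (χ (fr v) : ℂ) 0) (by simpa using hne)
    simp only [Complex.cpow_zero, mul_one] at h5
    refine h5.congr fun s => ?_
    show Λ s / s ^ r / _ = Λ s / _ / s ^ r
    rw [div_right_comm]

theorem leadI_split {v : HeightOneSpectrum (𝓞 F)} (hv : v ∉ S) (hfr : fr v = 1)
    {c : (G →* ℂˣ) → ℂ} (hc : LeadI (Finset.cons v S hv) T (r + 1) fr c) :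
    LeadI S T r fr (fun χ => c χ / (Real.log (nv v) : ℂ)) := by
  intro χ hχ
  obtain ⟨Λ, h1, h2, h3⟩ := hc χ hχ
  have hlog : (0 : ℝ) < Real.log (nv v) := Real.log_pos (by linarith [le_nv_pos v])
  have hlog' : (Real.log (nv v) : ℂ) ≠ 0 := by exact_mod_cast hlog.ne'
  have hχ1 : (χ (fr v) : ℂ) = 1 := by rw [hfr, map_one, Units.val_one]
  refine ⟨fun s => Λ s / (1 - (χ (fr v) : ℂ) * (nv v : ℂ) ^ (0 - s)), ?_, ?_, ?_⟩
  · exact h1.div (le_mero_pow v _ 0)
  · intro s hs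
    have hf0 : 1 - (χ (fr v) : ℂ) * (nv v : ℂ) ^ (-s) ≠ 0 :=
      le_factor v χ (by rw [Complex.neg_re]; linarith)
    beta_reduce
    rw [h2 s hs, lst_consS hv χ hs, zero_sub]
    field_simp
  · -- the derivative of `1 - nv^{-s}` at `0`
    have hd : HasDerivAt (fun s : ℂ => 1 - (nv v : ℂ) ^ (0 - s)) (Real.log (nv v) : ℂ) 0 := by
      have h4 : HasDerivAt (fun s : ℂ => (nv v : ℂ) ^ (0 - s))
          ((nv v : ℂ) ^ ((0 : ℂ) - 0) * Complex.log (nv v : ℂ) * (-1)) 0 := by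
        have h5 : HasDerivAt (fun s : ℂ => (0 : ℂ) - s) (-1) 0 := by
          simpa using (hasDerivAt_id (0 : ℂ)).const_sub 0
        exact h5.const_cpow (Or.inl (le_nv_ne v))
      have h6 := h4.const_sub 1
      have h7 : -((nv v : ℂ) ^ ((0 : ℂ) - 0) * Complex.log (nv v : ℂ) * (-1)) =
          (Real.log (nv v) : ℂ) := by
        rw [sub_zero, Complex.cpow_zero, Complex.natCast_log]
        ring
      rwa [h7] at h6
    have hs := hd.tendsto_slope
    have hs' : Tendsto (fun s : ℂ => (1 - (χ (fr v) : ℂ) * (nv v : ℂ) ^ (0 - s)) / s) (𝓝[≠] 0)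
        (𝓝 (Real.log (nv v) : ℂ)) := by
      refine hs.congr fun s => ?_
      rw [slope_def_field, hχ1]
      simp
    have h5 := h3.div hs' hlog'
    refine h5.congr' ?_
    filter_upwards [self_mem_nhdsWithin] with s hs0
    have hs0' : s ≠ 0 := hs0
    show Λ s / s ^ (r + 1) / (_ / s) = Λ s / _ / s ^ r
    rw [pow_succ]
    by_cases hz : (1 - (χ (fr v) : ℂ) * (nv v : ℂ) ^ (0 - s)) = 0
    · rw [hz]; simp
    · field_simp

theorem leadI_addT {v : HeightOneSpectrum (𝓞 F)} (hv : v ∉ T) {c : (G →* ℂˣ) → ℂ}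
    (hc : LeadI S T r fr c) : LeadI S (Finset.cons v T hv) r fr
      (fun χ => (1 - (χ (fr v) : ℂ) * (nv v : ℂ)) * c χ) := by
  intro χ hχ
  obtain ⟨Λ, h1, h2, h3⟩ := hc χ hχ
  refine ⟨fun s => (1 - (χ (fr v) : ℂ) * (nv v : ℂ) ^ (1 - s)) * Λ s, ?_, ?_, ?_⟩
  · exact (le_mero_pow v _ 1).mul h1
  · intro s hs
    beta_reduce
    rw [h2 s hs, lst_consT hv χ s]
  · have h5 := (le_cont v (χ (fr v) : ℂ) 1).mul h3
    simp only [Complex.cpow_one] at h5
    refine h5.congr fun s => ?_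
    show _ * (Λ s / s ^ r) = _ * Λ s / s ^ r
    rw [mul_div_assoc]

theorem leadI_rmT {v : HeightOneSpectrum (𝓞 F)} (hv : v ∉ T) {c : (G →* ℂˣ) → ℂ}
    (hc : LeadI S (Finset.cons v T hv) r fr c) : LeadI S T r fr
      (fun χ => c χ / (1 - (χ (fr v) : ℂ) * (nv v : ℂ))) := by
  intro χ hχ
  obtain ⟨Λ, h1, h2, h3⟩ := hc χ hχ
  have hne : 1 - (χ (fr v) : ℂ) * (nv v : ℂ) ≠ 0 := by
    intro h
    have h4 := congrArg norm (sub_eq_zero.1 h).symm
    rw [norm_mul, le_norm, one_mul, norm_one, Complex.norm_natCast] at h4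
    linarith [le_nv_pos v]
  refine ⟨fun s => Λ s / (1 - (χ (fr v) : ℂ) * (nv v : ℂ) ^ (1 - s)), ?_, ?_, ?_⟩
  · exact h1.div (le_mero_pow v _ 1)
  · intro s hs
    have hf0 : 1 - (χ (fr v) : ℂ) * (nv v : ℂ) ^ (1 - s) ≠ 0 :=
      le_factor v χ (by rw [Complex.sub_re, Complex.one_re]; linarith)
    beta_reduce
    rw [h2 s hs, lst_consT hv χ s]
    field_simp
  · have h5 := h3.div (le_cont v (χ (fr v) : ℂ) 1) (by simpa using hne)
    simp only [Complex.cpow_one] at h5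
    refine h5.congr fun s => ?_
    show Λ s / s ^ r / _ = Λ s / _ / s ^ r
    rw [div_right_comm]

theorem leadI_zero {r' : ℕ} {c : (G →* ℂˣ) → ℂ} (h : LeadI S T r' fr c) (hr : r < r') :
    LeadI S T r fr (fun _ => 0) := by
  intro χ hχ
  obtain ⟨Λ, h1, h2, h3⟩ := h χ hχ
  refine ⟨Λ, h1, h2, ?_⟩
  have h4 : Tendsto (fun s : ℂ => s ^ (r' - r)) (𝓝[≠] 0) (𝓝 0) := by
    have h5 : Tendsto (fun s : ℂ => s ^ (r' - r)) (𝓝 0) (𝓝 (0 ^ (r' - r))) :=
      (continuous_pow (r' - r)).tendsto 0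
    rw [zero_pow (by omega)] at h5
    exact h5.mono_left nhdsWithin_le_nhds
  have h5 := h3.mul h4
  rw [mul_zero] at h5
  refine h5.congr' ?_
  filter_upwards [self_mem_nhdsWithin] with s hs
  have hs' : s ≠ 0 := hs
  have e : s ^ r' = s ^ r * s ^ (r' - r) := by rw [← pow_add]; congr 1; omega
  have h6 : s ^ r ≠ 0 := pow_ne_zero _ hs'
  have h7 : s ^ (r' - r) ≠ 0 := pow_ne_zero _ hs'
  rw [e]
  field_simp

end LEAD

example : type_of% @leadI_non := @leadI_non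
example : type_of% @leadI_split := @leadI_split
example : type_of% @leadI_addT := @leadI_addT
example : type_of% @leadI_rmT := @leadI_rmT
example : type_of% @leadI_zero := @leadI_zero

end Pool.Agent.SY
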