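import Pool.Agent.Lib_helper29.SY.DefsS
import Pool.Agent.Lib_helper29.SY.Defs
import Pool.Agent.Lib_helper29.SY.DT
import Pool.Agent.Lib_helper49.RT.Amp
import Pool.Agent.Lib_helper35.RS2.P_LC3
import Pool.Agent.Lib_helper29.SY.P_LI

/-!
# Project SY: block RA (adding and removing a place of `T`)
-/

set_option autoImplicit false
set_option linter.unusedSectionVars false

namespace Pool.Agent.SY

open Pool.Agent.RSK Pool.Agent.RS2 Pool.Agent.RS3 Pool.Agent.RT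
open NumberField IsDedekindDomain Filter Topology Complex
open scoped TensorProduct

section LEAD

variable {F H : Type} [Field F] [NumberField F] [Field H] [NumberField H] [Algebra F H]
  [IsGalois F H] {G : Type} [CommGroup G] [Fintype G]
  {ι : G ≃* (H ≃ₐ[F] H)} {S T : Finset (HeightOneSpectrum (𝓞 F))} {r : ℕ} {w : Fin r → Pl H}
  {fr : HeightOneSpectrum (𝓞 F) → G}

theorem rc_addT [IsCyclic G] (hD : Data ι S T r w fr)
    {v : HeightOneSpectrum (𝓞 F)} (hv : v ∉ T) (hvS : v ∉ S)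
    (h : RCore ι S T w fr) : RCore ι S (Finset.cons v T hv) w fr := by
  obtain ⟨c, hc, hne, b, x, hco⟩ := h
  have hq := nv_two_le v
  set δ : MonoidAlgebra ℤ G := 1 - MonoidAlgebra.single (fr v)⁻¹ (nv v : ℤ) with hδ
  have hres : ∃ f : UM ι S T →ₗ[MonoidAlgebra ℤ G] (MonoidAlgebra ℤ G ⧸ Ideal.span {δ}),
      ∀ u, f u = 0 ↔ u.val ∈ Un (ovr H S) (ovr H (Finset.cons v T hv)) :=
    res_T2 (hD.frob v hvS) hv hvS
  obtain ⟨f, hf⟩ := hres
  set n : ℤ := 1 - (nv v : ℤ) ^ Nat.card G with hn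
  have hn0 : n ≠ 0 := lc3_pow_ne (Nat.card_pos (α := G)).ne' hq
  have hnQ : (n : ℚ) ≠ 0 := by exact_mod_cast hn0
  have hnC : (n : ℂ) ≠ 0 := by exact_mod_cast hn0
  have hmem : ∀ u : UM ι S T, (n • u).val ∈ Un (ovr H S) (ovr H (Finset.cons v T hv)) := by
    intro u
    rw [← hf]
    have h1 : n • u = (MonoidAlgebra.single (1 : G) n) • u := by
      have h2 : MonoidAlgebra.single (1 : G) n = n • (1 : MonoidAlgebra ℤ G) := by
        rw [MonoidAlgebra.one_def, MonoidAlgebra.smul_single]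
        simp
      rw [h2, smul_assoc, one_smul]
    rw [h1, map_smul, hn, ← lc3_geom (fr v)⁻¹ (nv v : ℤ)]
    obtain ⟨a, ha⟩ := Ideal.Quotient.mk_surjective (f u)
    rw [← ha]
    show Ideal.Quotient.mk (Ideal.span {δ}) (δ * _ * a) = 0
    rw [Ideal.Quotient.eq_zero_iff_mem, mul_assoc]
    exact Ideal.mul_mem_right _ _ (Ideal.mem_span_singleton_self δ)
  let b' : Fin r → UM ι S (Finset.cons v T hv) := fun j => UM.mk (n • b j).val (hmem (b j))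
  have hb' : ∀ j, l3_inc ι S T hv (b' j) = n • b j := fun j => UM.ext rfl
  let x' : MonoidAlgebra ℚ G := MonoidAlgebra.single 1 (((n : ℚ) ^ r)⁻¹) * (x * toQ G δ)
  have hw : wmat ι S (Finset.cons v T hv) w b' =
      (algebraMap ℝ (MonoidAlgebra ℝ G) (n : ℝ)) • wmat ι S T w b := by
    ext1 i j
    show wl ι S (Finset.cons v T hv) (w i) (b' j) =
      algebraMap ℝ (MonoidAlgebra ℝ G) (n : ℝ) * wl ι S T (w i) (b j)
    rw [l3_wl, hb', map_zsmul, ← Algebra.smul_def, Int.cast_smul_eq_zsmul]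
  refine ⟨fun χ => (1 - (χ (fr v) : ℂ) * (nv v : ℂ)) * c χ, leadI_addT hv hc,
    fun χ hχ => mul_ne_zero (l3_ne χ (fr v) hq) (hne χ hχ), b', x',
    ⟨fun χ hχ => ?_, fun χ hχ => ?_⟩⟩
  · show evQ χ (MonoidAlgebra.single 1 (((n : ℚ) ^ r)⁻¹) * (x * toQ G δ)) = 0
    rw [map_mul, map_mul, hco.off χ hχ, zero_mul, mul_zero]
  · show evQ χ (MonoidAlgebra.single 1 (((n : ℚ) ^ r)⁻¹) * (x * toQ G δ)) *
      evR χ (wmat ι S (Finset.cons v T hv) w b').det =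
        (1 - ((χ⁻¹ (fr v) : ℂˣ) : ℂ) * (nv v : ℂ)) * c χ⁻¹
    have h1 : evQ χ (toQ G δ) = 1 - ((χ⁻¹ (fr v) : ℂˣ) : ℂ) * (nv v : ℂ) := by
      rw [hδ, map_sub, map_sub, map_one, map_one, l3_toQ_single, l3_evQ_single, map_inv]
      push_cast
      have : (((χ (fr v))⁻¹ : ℂˣ) : ℂ) = ((χ⁻¹ (fr v) : ℂˣ) : ℂ) := rfl
      rw [← this]
      push_cast
      ring
    rw [hw, Matrix.det_smul, Fintype.card_fin, map_mul, map_mul, map_mul, map_pow, l3_evQ_single,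
      h1, ← hco.value χ hχ, AlgHom.commutes, map_one, Units.val_one]
    have h2 : algebraMap ℝ ℂ (n : ℝ) = (n : ℂ) := by simp
    rw [h2]
    push_cast
    have h5 : ((n : ℂ) ^ r)⁻¹ * (n : ℂ) ^ r = 1 := inv_mul_cancel₀ (pow_ne_zero _ hnC)
    linear_combination (evQ χ x * evR χ (wmat ι S T w b).det *
      (1 - ((χ⁻¹ (fr v) : ℂˣ) : ℂ) * (nv v : ℂ))) * h5

/-- the inverse of `1 - g q` in `ℚ[G]` -/
theorem ra_inv (g : G) {q : ℕ} (hq : 2 ≤ q) : ∃ y : MonoidAlgebra ℚ G, ∀ χ : G →* ℂˣ,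
    evQ χ y * (1 - ((χ g : ℂˣ) : ℂ) * (q : ℂ)) = 1 := by
  set n : ℤ := 1 - (q : ℤ) ^ Nat.card G with hn
  have hn0 : n ≠ 0 := lc3_pow_ne (Nat.card_pos (α := G)).ne' hq
  have hnC : (n : ℂ) ≠ 0 := by exact_mod_cast hn0
  refine ⟨MonoidAlgebra.single 1 ((n : ℚ)⁻¹) *
    toQ G (∑ i ∈ Finset.range (Nat.card G), (MonoidAlgebra.single g (q : ℤ)) ^ i), fun χ => ?_⟩
  have h1 := congrArg (fun z => evQ χ (toQ G z)) (lc3_geom g (q : ℤ))
  simp only [map_mul, map_sub, map_one, l3_toQ_single, l3_evQ_single, Units.val_one, mul_one] at h1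
  rw [map_mul, l3_evQ_single, map_one, Units.val_one, mul_one]
  have h2 : (((1 - (q : ℤ) ^ Nat.card G : ℤ) : ℚ) : ℂ) = (n : ℂ) := by rw [hn]; push_cast; rfl
  rw [h2] at h1
  have h3 : (((q : ℤ) : ℚ) : ℂ) = (q : ℂ) := by push_cast; rfl
  rw [h3] at h1
  have h4 : (((n : ℚ)⁻¹ : ℚ) : ℂ) = (n : ℂ)⁻¹ := by push_cast; rfl
  rw [h4]
  have h5 : (n : ℂ)⁻¹ * (n : ℂ) = 1 := inv_mul_cancel₀ hnC
  linear_combination (n : ℂ)⁻¹ * h1 + h5

theorem rc_rmT [IsCyclic G] (hD : Data ι S T r w fr)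
    {v : HeightOneSpectrum (𝓞 F)} (hv : v ∉ T) (hvS : v ∉ S)
    (h : RCore ι S (Finset.cons v T hv) w fr) : RCore ι S T w fr := by
  obtain ⟨c, hc, hc0, b, x, hx⟩ := h
  have hq := nv_two_le v
  have hTT : T ⊆ Finset.cons v T hv := Finset.subset_cons hv
  obtain ⟨y, hy⟩ := ra_inv (fr v)⁻¹ hq
  have hinv : ∀ χ : G →* ℂˣ, ((χ (fr v)⁻¹ : ℂˣ) : ℂ) = ((χ⁻¹ (fr v) : ℂˣ) : ℂ) := by
    intro χ
    rw [MonoidHom.inv_apply, map_inv]
  refine ⟨fun χ => c χ / (1 - (χ (fr v) : ℂ) * (nv v : ℂ)), leadI_rmT hv hc,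
    fun χ hχ => div_ne_zero (hc0 χ hχ) (l3_ne χ (fr v) hq),
    fun j => l4_inc ι S hTT (b j), x * y, ⟨fun χ hχ => ?_, fun χ hχ => ?_⟩⟩
  · rw [map_mul, hx.off χ hχ, zero_mul]
  · have hw : wmat ι S T w (fun j => l4_inc ι S hTT (b j)) =
        wmat ι S (Finset.cons v T hv) w b := by
      unfold wmat
      ext i j
      rfl
    have h1 := hy χ
    rw [hinv χ] at h1
    have h2 := l3_ne χ⁻¹ (fr v) hq
    have h3 := hx.value χ hχ
    rw [hw, map_mul]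
    show evQ χ x * evQ χ y * evR χ (wmat ι S (Finset.cons v T hv) w b).det =
      c χ⁻¹ / (1 - ((χ⁻¹ (fr v) : ℂˣ) : ℂ) * (nv v : ℂ))
    rw [eq_div_iff h2, ← h3]
    linear_combination (evQ χ x * evR χ (wmat ι S (Finset.cons v T hv) w b).det) * h1


end LEAD

end Pool.Agent.SY
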