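import Pool.Agent.Lib_helper29.SY.DefsS
import Pool.Agent.Lib_helper29.SY.Defs
import Pool.Agent.Lib_helper29.SY.DT
import Pool.Agent.Lib_helper49.RT.Amp
import Pool.Agent.Lib_helper35.RS2.P_LC1
import Pool.Agent.Lib_helper17.RS.P_RF1
import Pool.Agent.Lib_helper29.SY.P_LI

/-!
# SY block RN: removing a nonsplit place
-/

set_option autoImplicit false
set_option linter.unusedSectionVars false

namespace Pool.Agent.SY

open Pool.Agent.RSK Pool.Agent.RS2 Pool.Agent.RS3 Pool.Agent.RT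
open NumberField IsDedekindDomain Filter Topology Complex
open scoped TensorProduct

section LEAD

variable {F H : Type} [Field F] [NumberField F] [Field H] [NumberField H] [Algebra F H]
  [IsGalois F H] {G : Type} [CommGroup G] [Fintype G]
  {ι : G ≃* (H ≃ₐ[F] H)} {S T : Finset (HeightOneSpectrum (𝓞 F))} {r : ℕ} {w : Fin r → Pl H}
  {fr : HeightOneSpectrum (𝓞 F) → G}

theorem rn_val (g : G) (u : UM ι S T) :
    ((1 - MonoidAlgebra.single g (1 : ℤ) : MonoidAlgebra ℤ G) • u).val * (ι g • u.val) =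
      u.val := by
  rw [← um_single_smul, ← UM.val_add]
  congr 1
  rw [← add_smul, sub_add_cancel, one_smul]

theorem rn_mem {v : HeightOneSpectrum (𝓞 F)} (hv : v ∉ S) {g : G} (hg : IsFr v (ι g))
    (u : UM ι (Finset.cons v S hv) T) :
    ((1 - MonoidAlgebra.single g (1 : ℤ) : MonoidAlgebra ℤ G) • u).val ∈
      Un (ovr H S) (ovr H T) := by
  refine ⟨fun W hW => ?_,
    (UM.val_mem ((1 - MonoidAlgebra.single g (1 : ℤ) : MonoidAlgebra ℤ G) • u)).2⟩
  by_cases h : W.under (𝓞 F) = v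
  · have h1 : W.valuation H (((ι g • u.val : Hˣ)) : H) = W.valuation H (u.val : H) := by
      have h2 : HeightOneSpectrum.equivOfRingEquiv
          (RingOfIntegers.mapRingEquiv (ι g).toRingEquiv) W = W :=
        Sum.inr_injective (l1_act_fr hg h)
      have h3 := val_equiv (ι g).toRingEquiv W (u.val : H)
      rw [h2] at h3
      exact h3
    have h4 := congrArg (fun z : Hˣ => W.valuation H (z : H)) (rn_val g u)
    simp only [Units.val_mul, map_mul] at h4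
    rw [h1] at h4
    have h5 : W.valuation H (u.val : H) ≠ 0 := by
      rw [Ne, Valuation.zero_iff]
      exact u.val.ne_zero
    exact mul_right_cancel₀ h5 (h4.trans (one_mul _).symm)
  · refine (UM.val_mem ((1 - MonoidAlgebra.single g (1 : ℤ) : MonoidAlgebra ℤ G) • u)).1 W
      fun h2 => ?_
    rw [mem_ovr, Finset.mem_cons] at h2
    rcases h2 with h2 | h2
    · exact h h2
    · exact hW (mem_ovr.2 h2)

theorem rn_lg (g : G) (W : Pl H) (u : UM ι S T) (γ : G) :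
    lg (act (ι γ) W)
      (((1 - MonoidAlgebra.single g (1 : ℤ) : MonoidAlgebra ℤ G) • u).val : H) =
      lg (act (ι γ) W) (u.val : H) - lg (act (ι (g⁻¹ * γ)) W) (u.val : H) := by
  have h1 := congrArg (fun z : Hˣ => lg (act (ι γ) W) (z : H)) (rn_val g u)
  simp only [Units.val_mul] at h1
  rw [lg_mul _ (Units.ne_zero _) (Units.ne_zero _), RSK.rf1_lg_act] at h1
  linarith

theorem rn_entry (χ : G →* ℂˣ) (g : G) (W : Pl H) (u : UM ι S T) :
    ∑ γ, ((lg (act (ι γ) W)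
      (((1 - MonoidAlgebra.single g (1 : ℤ) : MonoidAlgebra ℤ G) • u).val : H) : ℝ) : ℂ) *
        (χ γ : ℂ) =
      (1 - (χ g : ℂ)) * ∑ γ, ((lg (act (ι γ) W) (u.val : H) : ℝ) : ℂ) * (χ γ : ℂ) := by
  have h1 : ∑ γ : G, ((lg (act (ι (g⁻¹ * γ)) W) (u.val : H) : ℝ) : ℂ) * (χ γ : ℂ) =
      (χ g : ℂ) * ∑ γ, ((lg (act (ι γ) W) (u.val : H) : ℝ) : ℂ) * (χ γ : ℂ) := by
    rw [← Equiv.sum_comp (Equiv.mulLeft g), Finset.mul_sum]
    refine Finset.sum_congr rfl fun γ _ => ?_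
    rw [Equiv.coe_mulLeft, inv_mul_cancel_left, map_mul, Units.val_mul]
    ring
  rw [sub_mul, one_mul, ← h1, ← Finset.sum_sub_distrib]
  refine Finset.sum_congr rfl fun γ _ => ?_
  rw [rn_lg]
  push_cast
  ring

/-- RN. Removing a nonsplit place: `b' = (1 - fr v) b` is a unit at the places above `v` (they are
fixed by `fr v`, cf. `l1_act_fr`, `lc1_unit`), `evR χ (wmat b').det = (1 - χ(fr v))^r ...`, and
`l1_h` (RSK/P_L1, `lc1_h` in RS2/P_LC1) inverts `1 - fr v` up to an integer. Cf. `lc_non2`. -/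
theorem rc_non [IsCyclic G] (hD : Data ι S T r w fr)
    {v : HeightOneSpectrum (𝓞 F)} (hv : v ∉ S) (hvT : v ∉ T) (hfr : fr v ≠ 1)
    (h : RCore ι (Finset.cons v S hv) T w fr) : RCore ι S T w fr := by
  obtain ⟨c, hc, hne, b, x, hco⟩ := h
  set q : ℕ := Nat.card G with hq
  have hq0 : q ≠ 0 := Nat.card_pos.ne'
  have hqC : (q : ℂ) ≠ 0 := by exact_mod_cast hq0
  have hg : (fr v)⁻¹ ≠ 1 := by simpa using hfr
  have hgq : (fr v) ^ q = 1 := pow_card_eq_one'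
  have hgq' : (fr v)⁻¹ ^ q = 1 := pow_card_eq_one'
  have hinj : ∀ χ : G →* ℂˣ, Function.Injective χ → ∀ g : G, g ≠ 1 → χ g ≠ 1 :=
    fun χ hχ g hg h => hg (hχ (h.trans (map_one χ).symm))
  have hinv : ∀ χ : G →* ℂˣ, Function.Injective χ → Function.Injective (χ⁻¹ : G →* ℂˣ) := by
    intro χ hχ a a' haa
    apply hχ
    have h1 : (χ a)⁻¹ = (χ a')⁻¹ := haa
    exact inv_injective h1
  have hχ2 : ∀ χ : G →* ℂˣ, Function.Injective χ → (1 - (χ (fr v) : ℂ)) ≠ 0 := fun χ hχ h =>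
    hinj χ hχ _ hfr (by
      ext
      rw [Units.val_one]
      linear_combination -h)
  refine ⟨fun χ => c χ / (1 - (χ (fr v) : ℂ)), leadI_non hv hfr hc, fun χ hχ =>
    div_ne_zero (hne χ hχ) (hχ2 χ hχ), ?_⟩
  let b' : Fin r → UM ι S T := fun i =>
    UM.mk ((1 - MonoidAlgebra.single (fr v) (1 : ℤ) : MonoidAlgebra ℤ G) • b i).val
      (rn_mem hv (hD.frob v hv) (b i))
  let x' : MonoidAlgebra ℚ G := MonoidAlgebra.single 1 (((q : ℚ)⁻¹) ^ (r + 1)) *
    (x * toQ G (l1_h q (fr v)) ^ r * toQ G (l1_h q (fr v)⁻¹))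
  refine ⟨b', x', fun χ hχ => ?_, fun χ hχ => ?_⟩
  · show evQ χ (MonoidAlgebra.single 1 (((q : ℚ)⁻¹) ^ (r + 1)) *
      (x * toQ G (l1_h q (fr v)) ^ r * toQ G (l1_h q (fr v)⁻¹))) = 0
    rw [map_mul, map_mul, map_mul, hco.off χ hχ]
    ring
  · have h1 := lc1_h χ hgq (hinj χ hχ _ hfr)
    have h1' := lc1_h χ hgq' (hinj χ hχ _ hg)
    have h2 := hχ2 χ⁻¹ (hinv χ hχ)
    have h3 : ((χ (fr v)⁻¹ : ℂˣ) : ℂ) = ((χ⁻¹ (fr v) : ℂˣ) : ℂ) := by
      rw [map_inv]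
      rfl
    rw [h3] at h1'
    have h4 := hco.value χ hχ
    have h5 : evR χ (wmat ι S T w b').det = (1 - (χ (fr v) : ℂ)) ^ r *
        evR χ (wmat ι (Finset.cons v S hv) T w b).det := by
      rw [RSK.rf1_ev, RSK.rf1_ev]
      have h6 : (Matrix.of fun i j : Fin r =>
          ∑ γ, ((lg (act (ι γ) (w i)) ((b' j).val : H) : ℝ) : ℂ) * (χ γ : ℂ)) =
          (1 - (χ (fr v) : ℂ)) • (Matrix.of fun i j : Fin r =>
            ∑ γ, ((lg (act (ι γ) (w i)) ((b j).val : H) : ℝ) : ℂ) * (χ γ : ℂ)) := by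
        ext i j
        rw [Matrix.smul_apply, Matrix.of_apply, Matrix.of_apply, smul_eq_mul]
        exact rn_entry χ (fr v) (w i) (b j)
      rw [h6, Matrix.det_smul, Fintype.card_fin]
    show evQ χ (MonoidAlgebra.single 1 (((q : ℚ)⁻¹) ^ (r + 1)) *
      (x * toQ G (l1_h q (fr v)) ^ r * toQ G (l1_h q (fr v)⁻¹))) *
      evR χ (wmat ι S T w b').det = c χ⁻¹ / (1 - ((χ⁻¹ (fr v) : ℂˣ) : ℂ))
    rw [h5, map_mul, map_mul, map_mul, map_pow, l1_evQ_single, eq_div_iff h2, ← h4, map_one,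
      Units.val_one]
    push_cast
    have h7 : ((1 - (χ (fr v) : ℂ)) * evQ χ (toQ G (l1_h q (fr v)))) ^ r = (q : ℂ) ^ r := by
      rw [h1]
    have h8 : ((q : ℂ)⁻¹) ^ (r + 1) * ((q : ℂ) ^ r * q) = 1 := by
      rw [← pow_succ, ← mul_pow, inv_mul_cancel₀ hqC, one_pow]
    rw [mul_pow] at h7
    calc ((q : ℂ)⁻¹) ^ (r + 1) * 1 *
          (evQ χ x * evQ χ (toQ G (l1_h q (fr v))) ^ r * evQ χ (toQ G (l1_h q (fr v)⁻¹))) *
          ((1 - (χ (fr v) : ℂ)) ^ r * evR χ (wmat ι (Finset.cons v S hv) T w b).det) *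
          (1 - ((χ⁻¹ (fr v) : ℂˣ) : ℂ))
        = ((q : ℂ)⁻¹) ^ (r + 1) *
          (((1 - (χ (fr v) : ℂ)) ^ r * evQ χ (toQ G (l1_h q (fr v))) ^ r) *
          ((1 - ((χ⁻¹ (fr v) : ℂˣ) : ℂ)) * evQ χ (toQ G (l1_h q (fr v)⁻¹)))) *
          (evQ χ x * evR χ (wmat ι (Finset.cons v S hv) T w b).det) := by ring
      _ = evQ χ x * evR χ (wmat ι (Finset.cons v S hv) T w b).det := by
        rw [h7, h1', h8, one_mul]

end LEAD

end Pool.Agent.SY
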