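import Pool.Agent.Lib_helper29.SY.DefsS

/-!
# Project SY, block GA: injective characters of a cyclic group are conjugate
-/

set_option autoImplicit false
set_option linter.unusedSectionVars false

namespace Pool.Agent.SY

open Equiv.Perm
open scoped BigOperators

section GR

open Pool.Agent.RSK

variable {G : Type} [CommGroup G] [Fintype G]

theorem ga_single (χ : G →* ℂˣ) (g : G) (c : ℚ) :
    evQ χ (MonoidAlgebra.single g c) = (c : ℂ) * ((χ g : ℂˣ) : ℂ) := by
  unfold evQ
  rw [MonoidAlgebra.lift_single, Algebra.smul_def]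
  rfl

/-- the values at a generator are primitive roots of unity -/
theorem ga_prim {σ : G} (hσ : ∀ g : G, g ∈ Subgroup.zpowers σ) {χ : G →* ℂˣ}
    (hχ : Function.Injective χ) : IsPrimitiveRoot ((χ σ : ℂˣ) : ℂ) (Nat.card G) := by
  rw [IsPrimitiveRoot.coe_units_iff]
  have h1 : orderOf σ = Nat.card G := orderOf_eq_card_of_forall_mem_zpowers hσ
  have h2 : orderOf (χ σ) = Nat.card G := by rw [orderOf_injective χ hχ, h1]
  have h3 := IsPrimitiveRoot.orderOf (χ σ)
  rwa [h2] at h3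

/-- every element is a polynomial in the generator -/
theorem ga_poly {σ : G} (hσ : ∀ g : G, g ∈ Subgroup.zpowers σ) (a : MonoidAlgebra ℚ G) :
    ∃ Q : Polynomial ℚ, ∀ ψ : G →* ℂˣ, evQ ψ a = Polynomial.aeval ((ψ σ : ℂˣ) : ℂ) Q := by
  have hgen : ∀ g : G, ∃ k : ℕ, σ ^ k = g := by
    intro g
    exact (Submonoid.mem_powers_iff g σ).mp (mem_powers_iff_mem_zpowers.mpr (hσ g))
  induction a using MonoidAlgebra.induction_on with
  | of g =>
    obtain ⟨k, rfl⟩ := hgen g
    refine ⟨Polynomial.X ^ k, fun ψ => ?_⟩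
    have h : MonoidAlgebra.of ℚ G (σ ^ k) = MonoidAlgebra.single (σ ^ k) 1 := rfl
    rw [h, ga_single, map_pow, Polynomial.aeval_X_pow]
    push_cast
    ring
  | add a b ha hb =>
    obtain ⟨P, hP⟩ := ha
    obtain ⟨Q, hQ⟩ := hb
    exact ⟨P + Q, fun ψ => by rw [map_add, map_add, hP, hQ]⟩
  | smul c a ha =>
    obtain ⟨P, hP⟩ := ha
    exact ⟨c • P, fun ψ => by rw [map_smul, map_smul, hP]⟩

/-- GA. An element which is nonzero at one injective character is nonzero at all of them. As `fth_conj`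
(RS2/P_GP): `evQ χ a` is a polynomial in `χ(g₀)`, `g₀` a generator, and the `χ(g₀)` are conjugate. -/
theorem inj_conj [IsCyclic G] (a : MonoidAlgebra ℚ G) {χ₀ χ : G →* ℂˣ}
    (h₀ : Function.Injective χ₀) (hχ : Function.Injective χ) (h : evQ χ₀ a ≠ 0) : evQ χ a ≠ 0 := by
  obtain ⟨σ, hσ⟩ := (inferInstance : IsCyclic G).exists_generator
  obtain ⟨Q, hQ⟩ := ga_poly hσ a
  have hpos : 0 < Nat.card G := Nat.card_pos
  intro h0
  apply h
  rw [hQ] at h0 ⊢
  have h1 : minpoly ℚ ((χ σ : ℂˣ) : ℂ) ∣ Q := minpoly.dvd ℚ _ h0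
  rw [← Polynomial.cyclotomic_eq_minpoly_rat (ga_prim hσ hχ) hpos,
    Polynomial.cyclotomic_eq_minpoly_rat (ga_prim hσ h₀) hpos] at h1
  obtain ⟨Q, rfl⟩ := h1
  rw [map_mul, minpoly.aeval, zero_mul]

/-- GD. If `Ind χ₀` has a rational value at `γ` for one injective character `χ₀` of a cyclic group, the
value is the same for all injective characters: apply `inj_conj` to
`(#B)⁻¹ ∑_δ ∑_{j b = δ⁻¹ γ δ} π(b) - q`. -/
theorem inj_ind [IsCyclic G] {Γ B : Type} [Group Γ] [Group B] [Finite Γ] [Finite B] (j : B →* Γ)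
    (π : B →* G) {χ₀ χ : G →* ℂˣ} (h₀ : Function.Injective χ₀) (hχ : Function.Injective χ)
    (γ : Γ) (q : ℚ) (h : indG j (χ₀.comp π) γ = q) : indG j (χ.comp π) γ = q := by
  classical
  have : Fintype Γ := Fintype.ofFinite Γ
  have : Fintype B := Fintype.ofFinite B
  set a : MonoidAlgebra ℚ G := MonoidAlgebra.single 1 ((Fintype.card B : ℚ)⁻¹) *
    (∑ δ : Γ, ∑ b : B, if j b = δ⁻¹ * γ * δ then MonoidAlgebra.single (π b) (1 : ℚ) else 0) -
    MonoidAlgebra.single 1 q with ha
  have key : ∀ ψ : G →* ℂˣ, evQ ψ a = indG j (ψ.comp π) γ - q := by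
    intro ψ
    rw [indG_eq, ha, map_sub, map_mul, map_sum, ga_single, ga_single, map_one, Units.val_one,
      mul_one, mul_one]
    push_cast
    congr 2
    refine Finset.sum_congr rfl fun δ _ => ?_
    rw [map_sum]
    refine Finset.sum_congr rfl fun b _ => ?_
    split_ifs
    · rw [ga_single]
      simp
    · rw [map_zero]
  by_contra hne
  have h1 : evQ χ a ≠ 0 := by
    rw [key]
    exact sub_ne_zero.mpr hne
  apply inj_conj a hχ h₀ h1
  rw [key, h, sub_self]

end GR

end Pool.Agent.SY
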