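import Pool.Agent.Lib_helper29.SY.DefsS
import Pool.Agent.Lib_helper17.RS.P_PX2
import Pool.Agent.Lib_helper29.SY.P_GB

/-!
# Project SY, block GC: division in the part of the injective characters
-/

set_option autoImplicit false
set_option linter.unusedSectionVars false

namespace Pool.Agent.SY

open Equiv.Perm
open scoped BigOperators

section GR

open Pool.Agent.RSK

variable {G : Type} [CommGroup G] [Fintype G]

/-- GC. Division, as `div_exists_nP` (RS2/P_LC2): multiplication by `y` is injective on the ideal of the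
elements which vanish at the non-injective characters. -/
theorem inj_div [IsCyclic G] (x y : MonoidAlgebra ℚ G)
    (hy : ∀ χ : G →* ℂˣ, Function.Injective χ → evQ χ y ≠ 0) :
    ∃ z : MonoidAlgebra ℚ G, (∀ χ : G →* ℂˣ, ¬ Function.Injective χ → evQ χ z = 0) ∧
      ∀ χ : G →* ℂˣ, Function.Injective χ → evQ χ z * evQ χ y = evQ χ x := by
  classical
  obtain ⟨e, he⟩ := inj_idem (G := G)
  have hfin : Module.Finite ℚ (MonoidAlgebra ℚ G) := inferInstance
  let V : Submodule ℚ (MonoidAlgebra ℚ G) := LinearMap.ker (LinearMap.mulLeft ℚ (1 - e))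
  have hV : ∀ z, z ∈ V ↔ (1 - e) * z = 0 := fun z => Iff.rfl
  have hV0 : ∀ z ∈ V, ∀ χ : G →* ℂˣ, ¬ Function.Injective χ → evQ χ z = 0 := by
    intro z hz χ hχ
    have h1 := congrArg (evQ χ) ((hV z).1 hz)
    rw [map_mul, map_sub, map_one, (he χ).2 hχ, sub_zero, one_mul, map_zero] at h1
    exact h1
  let f : V →ₗ[ℚ] V := (LinearMap.mulLeft ℚ y).restrict (p := V) (q := V) (fun z hz => by
    rw [hV] at hz ⊢
    rw [LinearMap.mulLeft_apply, mul_left_comm, hz, mul_zero])
  have hf : ∀ z : V, ((f z : V) : MonoidAlgebra ℚ G) = y * z := fun z => rfl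
  have hinj : Function.Injective f := by
    rw [injective_iff_map_eq_zero]
    intro z hz
    apply Subtype.ext
    have h1 : y * (z : MonoidAlgebra ℚ G) = 0 := by
      rw [← hf, hz]
      rfl
    apply evQ_inj
    intro χ
    rw [ZeroMemClass.coe_zero, map_zero]
    by_cases hχ : Function.Injective χ
    · have h2 := congrArg (evQ χ) h1
      rw [map_mul, map_zero] at h2
      exact (mul_eq_zero.1 h2).resolve_left (hy χ hχ)
    · exact hV0 z.1 z.2 χ hχ
  have hsurj : Function.Surjective f := LinearMap.injective_iff_surjective.1 hinj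
  have hx0 : e * x ∈ V := by
    rw [hV]
    apply evQ_inj
    intro χ
    rw [map_mul, map_mul, map_sub, map_one, map_zero]
    by_cases hχ : Function.Injective χ
    · rw [(he χ).1 hχ, sub_self, zero_mul]
    · rw [(he χ).2 hχ, zero_mul, mul_zero]
  obtain ⟨z, hz⟩ := hsurj ⟨_, hx0⟩
  refine ⟨z, hV0 z.1 z.2, fun χ hχ => ?_⟩
  have h1 := congrArg (fun u : V => (u : MonoidAlgebra ℚ G)) hz
  beta_reduce at h1
  rw [hf] at h1
  have h2 := congrArg (evQ χ) h1
  rw [map_mul, map_mul, (he χ).1 hχ, one_mul] at h2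
  rw [mul_comm, h2]

end GR

end Pool.Agent.SY
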