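import Pool.Agent.Lib_helper29.SY.DefsS
import Pool.Agent.Lib_helper29.SY.Defs
import Pool.Agent.Lib_helper29.SY.DT
import Pool.Agent.Lib_helper49.RT.Amp
import Pool.Agent.Lib_helper17.RS.P_L2
import Pool.Agent.Lib_helper29.SY.P_GA
import Pool.Agent.Lib_helper29.SY.P_GC
import Pool.Agent.Lib_helper29.SY.P_LI

set_option autoImplicit false
set_option linter.unusedSectionVars false

namespace Pool.Agent.SY

open Pool.Agent.RSK Pool.Agent.RS2 Pool.Agent.RS3 Pool.Agent.RT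
open NumberField IsDedekindDomain Filter Topology Complex
open scoped TensorProduct

section LEAD

variable {F H : Type} [Field F] [NumberField F] [Field H] [NumberField H] [Algebra F H]
  [IsGalois F H] {G : Type} [CommGroup G] [Fintype G]
  {ι : G ≃* (H ≃ₐ[F] H)} {S T : Finset (HeightOneSpectrum (𝓞 F))} {r : ℕ} {w : Fin r → Pl H}
  {fr : HeightOneSpectrum (𝓞 F) → G}

theorem rp_conjZ [IsCyclic G] (a : MonoidAlgebra ℤ G) {χ₀ χ : G →* ℂˣ}
    (h₀ : Function.Injective χ₀) (hχ : Function.Injective χ) (h : evZ χ₀ a ≠ 0) :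
    evZ χ a ≠ 0 := by
  have h1 := inj_conj (toQ G a) h₀ hχ (by rwa [l2_evQ_toQ])
  rwa [l2_evQ_toQ] at h1

theorem rp_inv {χ : G →* ℂˣ} (h : Function.Injective χ) : Function.Injective χ⁻¹ := by
  intro a b hab
  apply h
  have h1 : (χ a)⁻¹ = (χ b)⁻¹ := hab
  exact inv_injective h1

theorem rc_split [IsCyclic G] (hD : Data ι S T r w fr)
    {v : HeightOneSpectrum (𝓞 F)} (hv : v ∉ S) (hvT : v ∉ T)
    (hfr : fr v = 1) {W : HeightOneSpectrum (𝓞 H)} (hW : W.under (𝓞 F) = v)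
    (h : RCore ι (Finset.cons v S hv) T (Fin.snoc (α := fun _ => Pl H) w (Sum.inr W)) fr) :
    RCore ι S T w fr := by
  classical
  obtain ⟨c₁, hc₁, hne₁, b₁, x₁, hcore⟩ := h
  by_cases hex : ∃ χ₀ : G →* ℂˣ, Function.Injective χ₀
  swap
  · refine ⟨fun _ => 1, fun χ hχ => absurd ⟨χ, hχ⟩ hex, fun χ hχ => absurd ⟨χ, hχ⟩ hex,
      fun _ => 0, 0, ⟨fun χ _ => map_zero _, fun χ hχ => absurd ⟨χ, hχ⟩ hex⟩⟩
  have hD₁ := data_split hD hv hvT hfr hW
  have hspl : ∀ σ : H ≃ₐ[F] H, act σ (Sum.inr W : Pl H) = Sum.inr W → σ = 1 := by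
    have h1 := hD₁.split (Fin.last r)
    rw [Fin.snoc_last] at h1
    exact h1
  have hlog := l2_nv hD hv hW hspl
  have hL0 : Real.log (nv v) ≠ 0 := by
    have h2 := nv_two_le v
    have h3 : (1 : ℝ) < nv v := by exact_mod_cast (show 1 < nv v by omega)
    exact (Real.log_pos h3).ne'
  have hL0' : ((Real.log (nv v) : ℝ) : ℂ) ≠ 0 := by exact_mod_cast hL0
  set f := l2_f ι (Finset.cons v S hv) T W with hf
  set φ : Fin (r + 1) → MonoidAlgebra ℤ G := fun j => f (b₁ j) with hφd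
  -- the matrices of logarithms
  set N : (G →* ℂˣ) → Matrix (Fin (r + 1)) (Fin (r + 1)) ℂ := fun χ =>
    (wmat ι (Finset.cons v S hv) T (Fin.snoc (α := fun _ => Pl H) w (Sum.inr W)) b₁).map (evR χ) with hN
  have hNdet : ∀ χ, evR χ (wmat ι (Finset.cons v S hv) T
      (Fin.snoc (α := fun _ => Pl H) w (Sum.inr W)) b₁).det = (N χ).det := by
    intro χ
    exact RingHom.map_det (evR χ : MonoidAlgebra ℝ G →+* ℂ) _
  have hNlast : ∀ χ j, N χ (Fin.last r) j = (-(Real.log (nv v) : ℝ) : ℂ) * evZ χ (φ j) := by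
    intro χ j
    have h1 := l2_evR_wl (ι := ι) (S := Finset.cons v S hv) (T := T) χ W (b₁ j)
    rw [hlog] at h1
    show evR χ (wl ι (Finset.cons v S hv) T
      (Fin.snoc (α := fun _ => Pl H) w (Sum.inr W) (Fin.last r)) (b₁ j)) = _
    rw [Fin.snoc_last]
    exact h1
  have hdetne : ∀ χ : G →* ℂˣ, Function.Injective χ → (N χ).det ≠ 0 := by
    intro χ hχ h0
    have h1 := hcore.value χ hχ
    rw [hNdet, h0, mul_zero] at h1
    exact hne₁ χ⁻¹ (rp_inv hχ) h1.symm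
  obtain ⟨χ₀, hχ₀⟩ := hex
  obtain ⟨j₀, hj₀⟩ : ∃ j₀, evZ χ₀ (φ j₀) ≠ 0 := by
    by_contra hc
    push Not at hc
    apply hdetne χ₀ hχ₀
    apply Matrix.det_eq_zero_of_row_eq_zero (Fin.last r)
    intro j
    rw [hNlast, hc j, mul_zero]
  have hφ : ∀ χ : G →* ℂˣ, Function.Injective χ → evZ χ (φ j₀) ≠ 0 := fun χ hχ =>
    rp_conjZ _ hχ₀ hχ hj₀
  -- the new elements
  set y : Fin r → UM ι (Finset.cons v S hv) T := fun j =>
    φ j₀ • b₁ (j₀.succAbove j) - φ (j₀.succAbove j) • b₁ j₀ with hy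
  have hyf : ∀ j, f (y j) = 0 := by
    intro j
    rw [hy]
    simp only [map_sub, map_smul, smul_eq_mul]
    show φ j₀ * φ (j₀.succAbove j) - φ (j₀.succAbove j) * φ j₀ = 0
    ring
  have hyex : ∀ j, ∃ u' : UM ι S T, l2_inc ι T hv u' = y j := fun j => l2_mem_range hv hW (y j) (hyf j)
  choose b hb using hyex
  set s := r + (j₀ : ℕ) with hs
  obtain ⟨z, hz1, hz2⟩ := inj_div ((-1) ^ (s + 1) * (x₁ * toQ G (φ j₀))) (toQ G (φ j₀ ^ r))
    (fun χ hχ => by
      rw [l2_evQ_toQ, map_pow]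
      exact pow_ne_zero r (hφ χ hχ))
  have hz3 : ∀ χ : G →* ℂˣ, Function.Injective χ → evQ χ z * evZ χ (φ j₀) ^ r =
      (-1) ^ (s + 1) * (evQ χ x₁ * evZ χ (φ j₀)) := by
    intro χ hχ
    have h1 := hz2 χ hχ
    rw [l2_evQ_toQ, map_pow, map_mul, map_mul, map_pow, map_neg, map_one, l2_evQ_toQ] at h1
    exact h1
  refine ⟨fun χ => c₁ χ / (Real.log (nv v) : ℂ), leadI_split hv hfr hc₁,
    fun χ hχ => div_ne_zero (hne₁ χ hχ) hL0', b, z, ⟨hz1, ?_⟩⟩
  -- the value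
  intro χ hχ
  have hwl : ∀ (i : Fin r) (j : Fin r), evR χ (wl ι S T (w i) (b j)) =
      evZ χ (φ j₀) * N χ i.castSucc (j₀.succAbove j) - evZ χ (φ (j₀.succAbove j)) * N χ i.castSucc j₀ := by
    intro i j
    have h1 : wl ι S T (w i) (b j) = wl ι (Finset.cons v S hv) T (w i) (y j) := by
      rw [← hb j]
      rfl
    have h2 : ∀ k, N χ i.castSucc k = evR χ (wl ι (Finset.cons v S hv) T (w i) (b₁ k)) := by
      intro k
      show evR χ (wl ι (Finset.cons v S hv) T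
        (Fin.snoc (α := fun _ => Pl H) w (Sum.inr W) i.castSucc) (b₁ k)) = _
      rw [Fin.snoc_castSucc]
    have h3 : ∀ (a : MonoidAlgebra ℤ G) (q : MonoidAlgebra ℝ G), evR χ (a • q) = evZ χ a * evR χ q := by
      intro a q
      have h4 : a • q = toR G a * q := rfl
      rw [h4, map_mul, l2_evR_toR]
    rw [h1, h2, h2, hy]
    simp only [map_sub, map_smul, h3]
  have hdet : evR χ (wmat ι S T w b).det = (Matrix.of fun i j : Fin r =>
      evZ χ (φ j₀) * N χ i.castSucc (j₀.succAbove j) -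
        evZ χ (φ (j₀.succAbove j)) * N χ i.castSucc j₀).det := by
    have h1 := RingHom.map_det (evR χ : MonoidAlgebra ℝ G →+* ℂ) (wmat ι S T w b)
    refine h1.trans ?_
    congr 1
    ext i j
    exact hwl i j
  have halg := l2_alg (N χ) (-(Real.log (nv v) : ℝ) : ℂ) (fun j => evZ χ (φ j)) j₀ (hNlast χ)
  rw [← hdet] at halg
  have hval := hcore.value χ hχ
  rw [hNdet] at hval
  have h5 := hz3 χ hχ
  have hφr : evZ χ (φ j₀) ^ r ≠ 0 := pow_ne_zero r (hφ χ hχ)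
  rw [eq_div_iff hL0']
  apply mul_left_cancel₀ hφr
  generalize evR χ (wmat ι S T w b).det = D at *
  generalize (N χ).det = D₁ at *
  generalize evZ χ (φ j₀) = a at *
  generalize evQ χ z = z' at *
  generalize evQ χ x₁ = x' at *
  generalize ((Real.log (nv v) : ℝ) : ℂ) = L at *
  rw [pow_succ] at h5
  linear_combination D * L * h5 + x' * halg + a ^ r * hval

end LEAD

end Pool.Agent.SY
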