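import Pool.Agent.Lib_helper29.SY.DefsS
import Pool.Agent.Lib_helper29.SY.Defs
import Pool.Agent.Lib_helper29.SY.DT
import Pool.Agent.Lib_helper49.RT.Amp
import Pool.Agent.Lib_helper17.RS.P_UP1
import Pool.Agent.Lib_helper17.RS.P_DI
import Pool.Agent.Lib_helper17.RS.P_CH
import Pool.Agent.Lib_helper29.SY.P_RA
import Pool.Agent.Lib_helper29.SY.P_RN
import Pool.Agent.Lib_helper29.SY.P_RP

/-!
# SY, block RC: chains
-/

set_option autoImplicit false
set_option linter.unusedSectionVars false

namespace Pool.Agent.SY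

open Pool.Agent.RSK Pool.Agent.RS2 Pool.Agent.RS3 Pool.Agent.RT
open NumberField IsDedekindDomain Filter Topology Complex

section LEAD

variable {F H : Type} [Field F] [NumberField F] [Field H] [NumberField H] [Algebra F H]
  [IsGalois F H] {G : Type} [CommGroup G] [Fintype G]
  {ι : G ≃* (H ≃ₐ[F] H)} {S T : Finset (HeightOneSpectrum (𝓞 F))} {r : ℕ} {w : Fin r → Pl H}
  {fr : HeightOneSpectrum (𝓞 F) → G}

/-- RC1. As `chain_S2` (RS2/P_CH). -/
theorem chain_SI [IsCyclic G] {S₁ T : Finset (HeightOneSpectrum (𝓞 F))} (hd : Disjoint S₁ T)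
    (n : ℕ) {S : Finset (HeightOneSpectrum (𝓞 F))} {r : ℕ} {w : Fin r → Pl H}
    (hD : Data ι S T r w fr) (hSS : S ⊆ S₁) (hn : S.card + n = S₁.card)
    (h : ∀ {r₁ : ℕ} (w₁ : Fin r₁ → Pl H), Data ι S₁ T r₁ w₁ fr → RCore ι S₁ T w₁ fr) :
    RCore ι S T w fr := by
  induction n generalizing S r with
  | zero =>
    have e : S = S₁ := Finset.eq_of_subset_of_card_le hSS (by omega)
    subst e
    exact h w hD
  | succ n ih =>
    obtain ⟨v, hv₁, hv⟩ : ∃ v ∈ S₁, v ∉ S := by
      by_contra hcon
      push Not at hcon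
      have := Finset.card_le_card (show S₁ ⊆ S from hcon)
      omega
    have hvT : v ∉ T := Finset.disjoint_left.1 hd hv₁
    have hsub : Finset.cons v S hv ⊆ S₁ := by
      intro v' hv'
      rcases Finset.mem_cons.1 hv' with rfl | h'
      · exact hv₁
      · exact hSS h'
    have hcard : (Finset.cons v S hv).card + n = S₁.card := by
      rw [Finset.card_cons]
      omega
    by_cases hfr : fr v = 1
    · obtain ⟨W, hW⟩ : ∃ W : HeightOneSpectrum (𝓞 H), W.under (𝓞 F) = v := by
        obtain ⟨W, hW⟩ := dn_surj (F := F) (H := H) (Sum.inr v)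
        rcases W with W | W
        · exact absurd hW (by simp [dn])
        · exact ⟨W, by simpa [dn] using hW⟩
      exact rc_split hD hv hvT hfr hW (ih (data_split hD hv hvT hfr hW) hsub hcard)
    · exact rc_non hD hv hvT hfr (ih (data_non hD hv hvT hfr) hsub hcard)

/-- adding places to `T` -/
theorem rcx_add [IsCyclic G] (n : ℕ)
    {T₁ T₂ : Finset (HeightOneSpectrum (𝓞 F))} (hT : T₁ ⊆ T₂) (hS : Disjoint S T₂)
    (hn : T₁.card + n = T₂.card) (hD : Data ι S T₁ r w fr) (h : RCore ι S T₁ w fr) :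
    RCore ι S T₂ w fr := by
  induction n generalizing T₁ with
  | zero =>
    have e : T₁ = T₂ := Finset.eq_of_subset_of_card_le hT (by omega)
    subst e
    exact h
  | succ n ih =>
    obtain ⟨v, hv₁, hv⟩ : ∃ v ∈ T₂, v ∉ T₁ := by
      by_contra hcon
      push Not at hcon
      have := Finset.card_le_card (show T₂ ⊆ T₁ from hcon)
      omega
    have hvS : v ∉ S := fun h' => Finset.disjoint_left.1 hS h' hv₁
    have hsub : Finset.cons v T₁ hv ⊆ T₂ := by
      intro v' hv'
      rcases Finset.mem_cons.1 hv' with rfl | h'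
      · exact hv₁
      · exact hT h'
    have hcard : (Finset.cons v T₁ hv).card + n = T₂.card := by
      rw [Finset.card_cons]
      omega
    exact ih hsub hcard (data_T hD hv hvS) (rc_addT hD hv hvS h)

/-- removing places from `T` -/
theorem rcx_rm [IsCyclic G] (n : ℕ)
    {T₁ T₂ : Finset (HeightOneSpectrum (𝓞 F))} (hT : T₁ ⊆ T₂) (hS : Disjoint S T₂)
    (hn : T₁.card + n = T₂.card) (hD : Data ι S T₁ r w fr) (h : RCore ι S T₂ w fr) :
    RCore ι S T₁ w fr := by
  induction n generalizing T₁ with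
  | zero =>
    have e : T₁ = T₂ := Finset.eq_of_subset_of_card_le hT (by omega)
    subst e
    exact h
  | succ n ih =>
    obtain ⟨v, hv₁, hv⟩ : ∃ v ∈ T₂, v ∉ T₁ := by
      by_contra hcon
      push Not at hcon
      have := Finset.card_le_card (show T₂ ⊆ T₁ from hcon)
      omega
    have hvS : v ∉ S := fun h' => Finset.disjoint_left.1 hS h' hv₁
    have hsub : Finset.cons v T₁ hv ⊆ T₂ := by
      intro v' hv'
      rcases Finset.mem_cons.1 hv' with rfl | h'
      · exact hv₁
      · exact hT h'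
    have hcard : (Finset.cons v T₁ hv).card + n = T₂.card := by
      rw [Finset.card_cons]
      omega
    exact rc_rmT hD hv hvS (ih hsub hcard (data_T hD hv hvS))

/-- RC2. As `chain_T2` (RS2/P_CH), without condition. -/
theorem chain_TI [IsCyclic G] {T₁ : Finset (HeightOneSpectrum (𝓞 F))} (hT : Disjoint T T₁)
    (hD : Data ι S T r w fr) (hD₁ : Data ι S T₁ r w fr)
    (h : RCore ι S T₁ w fr) : RCore ι S T w fr := by
  classical
  have hS : Disjoint S (T ∪ T₁) := by
    rw [Finset.disjoint_union_right]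
    exact ⟨hD.disj, hD₁.disj⟩
  have hc : (T ∪ T₁).card = T.card + T₁.card := Finset.card_union_of_disjoint hT
  have h2 := rcx_add T.card (Finset.subset_union_right (s₁ := T) (s₂ := T₁)) hS (by omega) hD₁ h
  exact rcx_rm T₁.card (Finset.subset_union_left (s₁ := T) (s₂ := T₁)) hS (by omega) hD h2

end LEAD

end Pool.Agent.SY

open Pool.Agent.SY in
example : type_of% @chain_SI := @chain_SI
open Pool.Agent.SY in
example : type_of% @chain_TI := @chain_TI
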