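import Pool.Agent.Lib_helper29.SY.DefsS
import Pool.Agent.Lib_helper29.SY.Defs
import Pool.Agent.Lib_helper29.SY.DT
import Pool.Agent.Lib_helper49.RT.Amp
import Pool.Agent.Lib_helper35.RS2.P_QK
import Pool.Agent.Lib_helper29.SY.P_LI

/-!
# SY block CK (helper13): the case distinction for a cyclic subextension
Adapted from `case_K2` (RS2/P_QK). Uses: leadI_non, leadI_zero.
-/

set_option autoImplicit false
set_option linter.unusedSectionVars false

namespace Pool.Agent.SY

open Pool.Agent.RSK Pool.Agent.RS2 Pool.Agent.RS3 Pool.Agent.RT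
open NumberField IsDedekindDomain Filter Topology Complex
open scoped TensorProduct

section TOP2

variable {F H : Type} [Field F] [NumberField F] [Field H] [NumberField H] [Algebra F H]
  [IsGalois F H] {G : Type} [CommGroup G] [Fintype G] {ι : G ≃* (H ≃ₐ[F] H)}
  {S T : Finset (HeightOneSpectrum (𝓞 F))} {r : ℕ} {w : Fin r → Pl H}
  {fr : HeightOneSpectrum (𝓞 F) → G}

/-- CK. As `case_K2` (RS2/P_QK) for a cyclic group `G'`. -/
theorem case_KI {K G' : Type} [Field K] [NumberField K] [Algebra F K] [Algebra K H]
    [IsScalarTower F K H] [IsGalois F K] [IsGalois K H] [CommGroup G'] [Fintype G'] [IsCyclic G']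
    (hG' : Nontrivial G') {ι' : G' ≃* (K ≃ₐ[F] K)} {π : G →* G'} (hq : Quo ι ι' π)
    (hl : ∀ (S' T' : Finset (HeightOneSpectrum (𝓞 F))) (r' : ℕ) (w' : Fin r' → Pl K)
      (fr' : HeightOneSpectrum (𝓞 F) → G'), Data ι' S' T' r' w' fr' → RCore ι' S' T' w' fr')
    (hD : Data ι S T r w fr) :
    (Data ι' S T r (fun i => dn K (w i)) (fun v => π (fr v))) ∨
      LeadI S T r (fun v => π (fr v)) (fun _ => 0) := by
  classical
  by_cases hall : ∀ W : Pl K, InS S (dn F W) → (∀ σ : K ≃ₐ[F] K, act σ W = W → σ = 1) →
      ∃ i, dn F W = dn F (w i)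
  · left
    refine ⟨hD.disj, ?_, hD.tors, ?_, ?_, ?_, ?_, ?_, ?_⟩
    · intro W hW
      exact qk_unram (H := H) fun W' hW' => hD.unram W' (by rw [hW']; exact hW)
    · intro i
      rw [dn_dn]
      exact hD.mem i
    · intro i
      exact qk_split0 hq (hD.split i)
    · intro i j h
      rw [dn_dn, dn_dn] at h
      exact hD.inj i j h
    · intro W h1 h2
      obtain ⟨i, hi⟩ := hall W h1 h2
      exact ⟨i, by rw [dn_dn, hi]⟩
    · exact hD.card
    · intro v hv
      exact quo_fr hq (hD.frob v hv)
  · right
    push Not at hall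
    obtain ⟨W, hWS, hWs, hW⟩ := hall
    obtain ⟨r', w', hr', hmem, hsp, hinj, hal⟩ := qk_enum F K S
    have hcardS : Fintype.card (PS S) = Fintype.card (InfinitePlace F) + S.card := by
      rw [Fintype.card_sum, Fintype.card_coe]
    -- `r < r'`
    have hrr : r < r' := by
      have h1 : ∀ j : Option (Fin r), ∃ i, dn F (j.elim W (fun i => dn K (w i))) = dn F (w' i) := by
        intro j
        rcases j with _ | j
        · exact hal W hWS hWs
        · refine hal (dn K (w j)) ?_ (qk_split0 hq (hD.split j))
          rw [dn_dn]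
          exact hD.mem j
      choose φ hφ using h1
      have h2 : Function.Injective φ := by
        intro j j' h
        have h3 : dn F (j.elim W (fun i => dn K (w i))) =
            dn F (j'.elim W (fun i => dn K (w i))) := by rw [hφ, hφ, h]
        rcases j with _ | j <;> rcases j' with _ | j'
        · rfl
        · exact absurd (show dn F W = dn F (dn K (w j')) from h3) (by rw [dn_dn]; exact hW j')
        · exact absurd (show dn F W = dn F (dn K (w j)) from h3.symm) (by rw [dn_dn]; exact hW j)
        · have h4 : dn F (dn K (w j)) = dn F (dn K (w j')) := h3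
          rw [dn_dn, dn_dn] at h4
          rw [hD.inj j j' h4]
      have h3 := Fintype.card_le_of_injective φ h2
      rw [Fintype.card_option, Fintype.card_fin, Fintype.card_fin] at h3
      exact h3
    -- the additional place
    have hne : ∃ σ : K ≃ₐ[F] K, σ ≠ 1 := by
      obtain ⟨g, hg⟩ := exists_ne (1 : G')
      exact ⟨ι' g, fun h => hg ((map_eq_one_iff ι' ι'.injective).1 h)⟩
    obtain ⟨v, hvB, -, hns'⟩ := cheb0 hne (S ∪ T)
    have hns : ∀ g : G', IsFr v (ι' g) → g ≠ 1 := fun g hg h =>
      hns' _ hg (by rw [h, map_one])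
    have hvS : v ∉ S := fun h => hvB (Finset.mem_union_left _ h)
    have hvT : v ∉ T := fun h => hvB (Finset.mem_union_right _ h)
    have hfrv : ∀ u, u ∉ S → IsFr u (ι' (π (fr u))) := fun u hu => quo_fr hq (hD.frob u hu)
    have hnosplit : ∀ W : HeightOneSpectrum (𝓞 K), W.under (𝓞 F) = v →
        ¬ ∀ σ : K ≃ₐ[F] K, act σ (Sum.inr W : Pl K) = Sum.inr W → σ = 1 := by
      intro W hWu h
      have h1 := h _ (qk_fr_fix (hfrv v hvS) hWu)
      exact hns _ (hfrv v hvS) ((map_eq_one_iff ι' ι'.injective).1 h1)
    set S₂ : Finset (HeightOneSpectrum (𝓞 F)) := Finset.cons v S hvS with hS₂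
    have hSS₂ : ∀ u, u ∉ S₂ → u ∉ S := fun u hu h => hu (by
      rw [hS₂, Finset.mem_cons]; exact Or.inr h)
    have hcard₂ : S₂.card = S.card + 1 := by
      rw [hS₂, Finset.card_cons]
    have hinS₂ : ∀ P : Pl F, InS S P → InS S₂ P := by
      intro P hP
      rcases P with P | P
      · trivial
      · show P ∈ S₂
        by_contra h
        exact hSS₂ P h hP
    have hD' : Data ι' S₂ T r' w' (fun v => π (fr v)) := by
      refine ⟨?_, ?_, hD.tors, ?_, hsp, hinj, ?_, ?_, ?_⟩
      · rw [Finset.disjoint_left]
        intro u hu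
        rw [hS₂, Finset.mem_cons] at hu
        rcases hu with rfl | hu
        · exact hvT
        · exact Finset.disjoint_left.1 hD.disj hu
      · intro W hW
        exact qk_unram (H := H) fun W' hW' => hD.unram W' (by rw [hW']; exact hSS₂ _ hW)
      · intro i
        exact hinS₂ _ (hmem i)
      · intro W hW hs
        refine hal W ?_ hs
        rcases W with W | W
        · trivial
        · have h1 : W.under (𝓞 F) ∈ S₂ := hW
          rw [hS₂, Finset.mem_cons] at h1
          rcases h1 with h1 | h1
          · exact absurd hs (hnosplit W h1)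
          · exact h1
      · rw [hcard₂]
        omega
      · intro u hu
        exact hfrv u (hSS₂ u hu)
    obtain ⟨c, hc, -⟩ := hl S₂ T r' w' (fun v => π (fr v)) hD'
    have hf : (fun v => π (fr v)) v ≠ 1 := hns (π (fr v)) (hfrv v hvS)
    exact leadI_zero (leadI_non (fr := fun v => π (fr v)) hvS hf hc) hrr

example : type_of% @case_KI := @case_KI

end TOP2

end Pool.Agent.SY
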