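import Pool.Agent.Lib_helper29.SY.DefsS
import Pool.Agent.Lib_helper29.SY.Defs
import Pool.Agent.Lib_helper29.SY.DT
import Pool.Agent.Lib_helper49.RT.Amp

/-!
# Project SY, block IK
-/

set_option autoImplicit false
set_option linter.unusedSectionVars false

namespace Pool.Agent.SY

open Pool.Agent.RSK Pool.Agent.RS2 Pool.Agent.RS3 Pool.Agent.RT
open NumberField IsDedekindDomain Filter Topology Complex
open scoped TensorProduct

section IK

variable {F₀ F K L : Type} [Field F₀] [NumberField F₀] [Field F] [NumberField F] [Field K]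
  [NumberField K] [Field L] [NumberField L] [Algebra F₀ F] [Algebra F₀ L] [Algebra F K]
  [Algebra F L] [Algebra K L] [IsScalarTower F₀ F L] [IsScalarTower F K L] [IsGalois F₀ L]

omit [NumberField F₀] [NumberField K] [IsScalarTower F K L] in
theorem ik_card {B : Type} [Group B] [Finite B] (j : B →* (L ≃ₐ[F₀] L))
    (hj : Function.Injective j)
    (hr : ∀ γ : L ≃ₐ[F₀] L, (∀ x : F, γ (algebraMap F L x) = algebraMap F L x) → ∃ b, j b = γ)
    (hr' : ∀ (b : B) (x : F), j b (algebraMap F L x) = algebraMap F L x) :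
    Module.finrank F L = Nat.card B := by
  have hG : IsGalois F L := IsGalois.tower_top_of_isGalois F₀ F L
  rw [← IsGalois.card_aut_eq_finrank F L]
  refine (Nat.card_congr (Equiv.ofBijective
    (fun b : B => (AlgEquiv.ofRingEquiv (f := (j b).toRingEquiv) (fun x => hr' b x) :
      L ≃ₐ[F] L)) ⟨?_, ?_⟩)).symm
  · intro b b' h
    apply hj
    ext x
    exact DFunLike.congr_fun h x
  · intro τ
    obtain ⟨b, hb⟩ := hr (τ.restrictScalars F₀) (fun x => by simp)
    refine ⟨b, ?_⟩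
    ext x
    exact DFunLike.congr_fun hb x

theorem indK_eq {B : Type} [Group B] [Finite B] (j : B →* (L ≃ₐ[F₀] L)) (π : B →* (K ≃ₐ[F] K))
    (hj : Function.Injective j)
    (hr : ∀ γ : L ≃ₐ[F₀] L, (∀ x : F, γ (algebraMap F L x) = algebraMap F L x) → ∃ b, j b = γ)
    (hr' : ∀ (b : B) (x : F), j b (algebraMap F L x) = algebraMap F L x)
    (hπ : ∀ (b : B) (x : K), j b (algebraMap K L x) = algebraMap K L (π b x))
    (χ : (K ≃ₐ[F] K) →* ℂˣ) (γ : L ≃ₐ[F₀] L) : indK χ γ = indG j (χ.comp π) γ := by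
  classical
  have : Fintype (L ≃ₐ[F₀] L) := Fintype.ofFinite _
  have : Fintype B := Fintype.ofFinite _
  have : Finite (K ≃ₐ[F] K) := inferInstance
  have : Fintype (K ≃ₐ[F] K) := Fintype.ofFinite _
  rw [indK, indG, ik_card (F := F) j hj hr hr']
  congr 1
  have h1 : ∀ δ : L ≃ₐ[F₀] L,
      (∑ᶠ b : {b : B // j b = δ⁻¹ * γ * δ}, (((χ.comp π) b.1 : ℂˣ) : ℂ)) =
      ∑ b : {b : B // j b = δ⁻¹ * γ * δ}, (((χ.comp π) b.1 : ℂˣ) : ℂ) := fun δ =>
    finsum_eq_sum_of_fintype _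
  simp_rw [h1]
  rw [finsum_eq_sum_of_fintype, finsum_eq_sum_of_fintype, ← Fintype.sum_sigma']
  symm
  refine Fintype.sum_bijective (fun q : (δ : L ≃ₐ[F₀] L) × {b : B // j b = δ⁻¹ * γ * δ} =>
    (⟨(q.1, π q.2.1), ?_⟩ : {q : (L ≃ₐ[F₀] L) × (K ≃ₐ[F] K) //
    ∀ x : K, γ (q.1 (algebraMap K L x)) = q.1 (algebraMap K L (q.2 x))})) ⟨?_, ?_⟩ _ _ ?_
  · intro x
    have := hπ q.2.1 x
    rw [q.2.2] at this
    rw [← this]
    simp [AlgEquiv.mul_apply, AlgEquiv.aut_inv]
  · rintro ⟨δ, b, hb⟩ ⟨δ', b', hb'⟩ h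
    simp only [Subtype.mk.injEq, Prod.mk.injEq] at h
    obtain ⟨rfl, -⟩ := h
    have : b = b' := hj (hb.trans hb'.symm)
    subst this
    rfl
  · rintro ⟨⟨δ, τ⟩, h⟩
    have h2 : ∀ x : K, (δ⁻¹ * γ * δ) (algebraMap K L x) = algebraMap K L (τ x) := by
      intro x
      have := h x
      simp only at this
      simp [AlgEquiv.mul_apply, AlgEquiv.aut_inv, this]
    obtain ⟨b, hb⟩ := hr (δ⁻¹ * γ * δ) (fun x => by
      have := h2 (algebraMap F K x)
      rw [AlgEquiv.commutes, ← IsScalarTower.algebraMap_apply] at this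
      exact this)
    refine ⟨⟨δ, b, hb⟩, ?_⟩
    simp only [Subtype.mk.injEq, Prod.mk.injEq, true_and]
    ext x
    apply (algebraMap K L).injective
    rw [← hπ, hb, h2]
  · intro q
    rfl

end IK

end Pool.Agent.SY
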