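import Pool.Agent.Lib_helper29.SY.P_ST
import Pool.Agent.Lib_helper35.RS3.P_LA3
import Pool.Agent.Lib_helper35.RS2.P_D2
import Pool.Agent.Lib_helper35.RS2.P_D3
import Pool.Agent.Lib_helper29.SY.P_IK
import Pool.Agent.Lib_helper29.SY.P_RC

/-!
# Project SY, block LY: arbitrary `S` and `T`
-/

set_option autoImplicit false
set_option linter.unusedSectionVars false

namespace Pool.Agent.SY

open Pool.Agent.RSK Pool.Agent.RS2 Pool.Agent.RS3 Pool.Agent.RT
open NumberField IsDedekindDomain Filter Topology Complex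
open scoped TensorProduct

/-- residue characteristics of places above -/
theorem ly_char {F₀ F : Type} [Field F₀] [NumberField F₀] [Field F] [NumberField F]
    [Algebra F₀ F] {v₀ : HeightOneSpectrum (𝓞 F₀)} {v : HeightOneSpectrum (𝓞 F)}
    (hv : v.under (𝓞 F₀) = v₀) (h0 : ringChar (𝓞 F₀ ⧸ v₀.asIdeal) ≠ 0) :
    ringChar (𝓞 F ⧸ v.asIdeal) = ringChar (𝓞 F₀ ⧸ v₀.asIdeal) := by
  have hm : v₀.asIdeal.IsMaximal := v₀.isMaximal
  have hp : v₀.asIdeal.IsPrime := v₀.isPrime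
  have hc : CharP (𝓞 F₀ ⧸ v₀.asIdeal) (ringChar (𝓞 F₀ ⧸ v₀.asIdeal)) := ringChar.charP _
  have hl : (ringChar (𝓞 F₀ ⧸ v₀.asIdeal)).Prime :=
    (CharP.char_is_prime_or_zero (𝓞 F₀ ⧸ v₀.asIdeal) _).resolve_right h0
  refine tf_char v hl ?_
  have h1 : ((ringChar (𝓞 F₀ ⧸ v₀.asIdeal) : ℕ) : 𝓞 F₀) ∈ v₀.asIdeal := by
    rw [← Ideal.Quotient.eq_zero_iff_mem, map_natCast]
    exact CharP.cast_eq_zero _ _
  rw [← hv] at h1
  have h2 : algebraMap (𝓞 F₀) (𝓞 F) ((ringChar (𝓞 F₀ ⧸ v₀.asIdeal) : ℕ) : 𝓞 F₀) ∈ v.asIdeal := by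
    rw [← hv]
    exact h1
  rwa [map_natCast] at h2

section TOP

variable {F K : Type} [Field F] [NumberField F] [Field K] [NumberField K] [Algebra F K]
  [IsGalois F K] {G : Type} [CommGroup G] [Fintype G] {ι : G ≃* (K ≃ₐ[F] K)}
  {S T : Finset (HeightOneSpectrum (𝓞 F))} {r : ℕ} {w : Fin r → Pl K}
  {fr : HeightOneSpectrum (𝓞 F) → G}

theorem lay_core [IsCyclic G] (hG : Nontrivial G) (h : PermLay F K) (hD : Data ι S T r w fr) :
    RCore ι S T w fr := by
  classical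
  obtain ⟨F₀, L, _, _, _, _, _, _, _, _, _, _, _, Y, Y', _, _, σ, σ', χ₁, hχ₁, hcf⟩ := h
  have : IsGalois F L := IsGalois.tower_top_of_isGalois F₀ F L
  have : IsGalois K L := IsGalois.tower_top_of_isGalois F K L
  have hfdL : FiniteDimensional F₀ L := Module.Finite.of_restrictScalars_finite ℚ F₀ L
  have hfdFL : FiniteDimensional F L := Module.Finite.of_restrictScalars_finite ℚ F L
  -- the characters
  set πK : (L ≃ₐ[F] L) →* (K ≃ₐ[F] K) := AlgEquiv.restrictNormalHom K with hπK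
  set π : (L ≃ₐ[F] L) →* G := ι.symm.toMonoidHom.comp πK with hπd
  have hπ : ∀ (σ : L ≃ₐ[F] L) (x : K), σ (algebraMap K L x) = algebraMap K L (ι (π σ) x) := by
    intro σ x
    have h1 : ι (π σ) = πK σ := by
      rw [hπd]
      exact ι.apply_symm_apply _
    rw [h1]
    exact (AlgEquiv.restrictNormal_commutes σ K x).symm
  set χ₀ : G →* ℂˣ := χ₁.comp ι.toMonoidHom with hχd
  have hχ₀ : Function.Injective χ₀ := hχ₁.comp ι.injective
  have hχπ : χ₀.comp π = χ₁.comp πK := by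
    ext b
    show ((χ₁ (ι (ι.symm (πK b))) : ℂˣ) : ℂ) = _
    rw [ι.apply_symm_apply]
    rfl
  have hcf' : ∀ γ, (Nat.card {y // σ γ y = y} : ℂ) = Nat.card {y // σ' γ y = y} +
      indG (rsg F₀ F L) (χ₀.comp π) γ := by
    intro γ
    rw [hχπ, ← indK_eq (rsg F₀ F L) πK ?_ ?_ ?_ ?_ χ₁ γ, ← hcf γ]
    · ring
    · intro a b hab
      exact AlgEquiv.restrictScalars_injective F₀ hab
    · intro γ hγ
      exact ⟨AlgEquiv.ofRingEquiv (f := γ.toRingEquiv) hγ, by ext x; rfl⟩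
    · intro b x
      exact b.commutes x
    · intro b x
      exact (AlgEquiv.restrictNormal_commutes b K x).symm
  -- the sets of places
  obtain ⟨B, hB⟩ := la3_ram F₀ L
  obtain ⟨S₀, hS₀⟩ : ∃ S₀ : Finset (HeightOneSpectrum (𝓞 F₀)),
      S₀ = S.image (fun v => v.under (𝓞 F₀)) ∪ B := ⟨_, rfl⟩
  have hne : ∃ τ : L ≃ₐ[F₀] L, τ ≠ 1 := by
    obtain ⟨g, hg⟩ := exists_ne (1 : G)
    obtain ⟨b, hb⟩ := st_surj hπ g
    refine ⟨rsg F₀ F L b, fun h1 => hg ?_⟩
    have h2 : b = 1 := AlgEquiv.restrictScalars_injective F₀ h1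
    rw [← hb, h2, map_one]
  obtain ⟨v₀, hv₀, hchar, -⟩ := cheb0 hne (S₀ ∪ T.image (fun v => v.under (𝓞 F₀)))
  rw [Finset.mem_union, not_or] at hv₀
  have hm1 : ∀ v : HeightOneSpectrum (𝓞 F), v ∈ ovr F {v₀} ↔ v.under (𝓞 F₀) = v₀ := fun v => by
    rw [mem_ovr, Finset.mem_singleton]
  have hSS : S ⊆ ovr F S₀ := fun v hvS => by
    rw [mem_ovr, hS₀, Finset.mem_union]
    exact Or.inl (Finset.mem_image_of_mem _ hvS)
  have hd0 : Disjoint S₀ {v₀} := Finset.disjoint_singleton_right.2 hv₀.1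
  have hd1 : Disjoint (ovr F S₀) (ovr F {v₀}) := by
    rw [Finset.disjoint_left]
    intro v h1 h2
    rw [hm1] at h2
    rw [mem_ovr, h2] at h1
    exact hv₀.1 h1
  have hdS : Disjoint S (ovr F {v₀}) := Finset.disjoint_of_subset_left hSS hd1
  have hdT : Disjoint T (ovr F {v₀}) := by
    rw [Finset.disjoint_left]
    intro v h1 h2
    rw [hm1] at h2
    apply hv₀.2
    rw [← h2]
    exact Finset.mem_image_of_mem _ h1
  obtain ⟨v₁, hv₁⟩ : ∃ v₁ : HeightOneSpectrum (𝓞 F), v₁ ∈ ovr F {v₀} := by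
    obtain ⟨W, hW⟩ := dn_surj (F := F₀) (H := F) (Sum.inr v₀)
    rcases W with W | W
    · exact absurd hW (by simp [dn])
    · refine ⟨W, ?_⟩
      rw [hm1]
      simpa [dn] using hW
  have hfin : Module.finrank ℚ F ≤ Module.finrank ℚ L := by
    rw [← Module.finrank_mul_finrank ℚ F L]
    exact Nat.le_mul_of_pos_right _ Module.finrank_pos
  have hD1 : Data ι S (ovr F {v₀}) r w fr :=
    { disj := hdS
      unram := hD.unram
      tors := Or.inr ⟨v₁, hv₁, by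
        rw [ly_char ((hm1 v₁).1 hv₁) (by omega)]
        exact lt_of_le_of_lt (Nat.add_le_add_right hfin 1) hchar⟩
      mem := hD.mem
      split := hD.split
      inj := hD.inj
      all := hD.all
      card := hD.card
      frob := hD.frob }
  refine chain_TI hdT hD hD1 ?_
  have hcs := Finset.card_le_card hSS
  refine chain_SI hd1 ((ovr F S₀).card - S.card) hD1 hSS (by omega) ?_
  intro r₁ w₁ hD₂
  have hunr : ∀ W : HeightOneSpectrum (𝓞 L), W.under (𝓞 F₀) ∉ S₀ →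
      Algebra.IsUnramifiedAt (𝓞 F₀) W.asIdeal := by
    intro W hW
    refine hB W (fun h => hW ?_)
    rw [hS₀, Finset.mem_union]
    exact Or.inr h
  have htf : TFree (ovr L S₀) (ovr L {v₀}) := by
    intro x hx n hn hxn
    exact tf_big (T := {v₀}) (Finset.mem_singleton_self v₀) hchar x hx.2 n hn hxn
  exact stable_lay hG σ σ' hχ₀ hπ hcf' hd0 htf hunr (la3_dataW hD₂)

end TOP

end Pool.Agent.SY
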