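import Pool.Agent.Lib_helper29.SY.DefsS

/-! Block HA of project SY: the affine action. -/

set_option autoImplicit false
set_option linter.unusedSectionVars false

namespace Pool.Agent.SY

open Equiv.Perm
open scoped BigOperators

theorem ha_act {Γ B : Type} [Group Γ] [CommGroup B] {m : ℕ} (hm : 0 < m) (j : B →* Γ)
    (hj : Function.Injective j) (θ : (ZMod m)ˣ →* Γ)
    (hconj : ∀ a b, θ a * j b * (θ a)⁻¹ = j (b ^ (a : ZMod m).val))
    (hdec : ∀ γ, ∃ b a, γ = j b * θ a) (htriv : ∀ b a, j b * θ a = 1 → a = 1)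
    (φ : B →* Multiplicative (ZMod m)) {e : ℕ} (he : e ∣ m) :
    ∃ ρ : Γ →* Equiv.Perm (ZMod e),
      (∀ b y, ρ (j b) y = y + (((Multiplicative.toAdd (φ b)).val : ℕ) : ZMod e)) ∧
      ∀ (a : (ZMod m)ˣ) (y : ZMod e), ρ (θ a) y = (((a : ZMod m).val : ℕ) : ZMod e) * y := by
  have : NeZero m := ⟨hm.ne'⟩
  let c : ZMod m →+* ZMod e := ZMod.castHom he (ZMod e)
  have hc : ∀ x : ZMod m, ((x.val : ℕ) : ZMod e) = c x := by
    intro x
    rw [ZMod.castHom_apply, ZMod.natCast_val]
  choose β α hβα using hdec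
  have huniq : ∀ b a b' a', j b * θ a = j b' * θ a' → b = b' ∧ a = a' := by
    intro b a b' a' h
    have h1 : j (b'⁻¹ * b) * θ (a * a'⁻¹) = 1 := by
      rw [map_mul, map_mul, map_inv, map_inv]
      calc (j b')⁻¹ * j b * (θ a * (θ a')⁻¹) = (j b')⁻¹ * (j b * θ a) * (θ a')⁻¹ := by group
        _ = 1 := by rw [h]; group
    have h2 := htriv _ _ h1
    have h3 : a = a' := mul_inv_eq_one.1 h2
    subst h3
    exact ⟨hj (mul_right_cancel h), rfl⟩
  have h1 : β 1 = 1 ∧ α 1 = 1 := by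
    apply huniq
    rw [← hβα 1, map_one, map_one, one_mul]
  have hmul : ∀ γ δ, β (γ * δ) = β γ * β δ ^ ((α γ : (ZMod m)ˣ) : ZMod m).val ∧
      α (γ * δ) = α γ * α δ := by
    intro γ δ
    apply huniq
    rw [← hβα (γ * δ)]
    nth_rewrite 1 [hβα γ]
    nth_rewrite 1 [hβα δ]
    rw [map_mul j, map_mul θ, ← hconj]
    group
  have hjb : ∀ b, β (j b) = b ∧ α (j b) = 1 := by
    intro b
    apply huniq
    rw [← hβα (j b), map_one, mul_one]
  have hθa : ∀ a, β (θ a) = 1 ∧ α (θ a) = a := by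
    intro a
    apply huniq
    rw [← hβα (θ a), map_one, one_mul]
  let f : Γ →* Function.End (ZMod e) :=
    { toFun := fun γ y => c ((α γ : (ZMod m)ˣ) : ZMod m) * y + c (Multiplicative.toAdd (φ (β γ)))
      map_one' := by
        funext y
        show c ((α 1 : (ZMod m)ˣ) : ZMod m) * y + c (Multiplicative.toAdd (φ (β 1))) = y
        rw [h1.1, h1.2]
        simp
      map_mul' := by
        intro γ δ
        funext y
        show c ((α (γ * δ) : (ZMod m)ˣ) : ZMod m) * y +
            c (Multiplicative.toAdd (φ (β (γ * δ)))) =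
          c ((α γ : (ZMod m)ˣ) : ZMod m) * (c ((α δ : (ZMod m)ˣ) : ZMod m) * y +
            c (Multiplicative.toAdd (φ (β δ)))) + c (Multiplicative.toAdd (φ (β γ)))
        rw [(hmul γ δ).1, (hmul γ δ).2, Units.val_mul, map_mul c, map_mul φ, map_pow,
          toAdd_mul, toAdd_pow, map_add c, nsmul_eq_mul, map_mul c, map_natCast, hc]
        ring }
  refine ⟨MonoidHom.toHomPerm f, ?_, ?_⟩
  · intro b y
    show c ((α (j b) : (ZMod m)ˣ) : ZMod m) * y + c (Multiplicative.toAdd (φ (β (j b)))) = _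
    rw [(hjb b).1, (hjb b).2, hc, Units.val_one, map_one, one_mul, add_comm]
  · intro a y
    show c ((α (θ a) : (ZMod m)ˣ) : ZMod m) * y + c (Multiplicative.toAdd (φ (β (θ a)))) = _
    rw [(hθa a).1, (hθa a).2, hc, map_one]
    simp

example : type_of% @ha_act := @ha_act

end Pool.Agent.SY
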