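import Pool.Agent.Lib_helper29.SY.DefsS

/-!
# Project SY: block HB (Möbius count in `ℤ/e`)
-/

set_option autoImplicit false
set_option linter.unusedSectionVars false

namespace Pool.Agent.SY

open Equiv.Perm
open scoped BigOperators

/-- the number of solutions as a character sum over `ℤ/e` -/
theorem hb_char {e : ℕ} [NeZero e] {z : ℂ} (hz : IsPrimitiveRoot z e) (b s : ZMod e) :
    (Nat.card {y : ZMod e // b * y + s = 0} : ℂ) =
      ∑ u : ZMod e, if u * b = 0 then AddChar.zmodChar e hz.pow_eq_one (u * s) else 0 := by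
  classical
  set χ := AddChar.zmodChar e hz.pow_eq_one with hχ
  have hp : χ.IsPrimitive := AddChar.zmodChar_primitive_of_primitive_root e hz
  have h1 : ∀ c : ZMod e, ∑ x : ZMod e, χ (x * c) = if c = 0 then (e : ℂ) else 0 := by
    intro c
    rw [AddChar.sum_mulShift c hp]
    simp [ZMod.card]
  have he : (e : ℂ) ≠ 0 := by exact_mod_cast NeZero.ne e
  have hcard : (Nat.card {y : ZMod e // b * y + s = 0} : ℂ) =
      ∑ y : ZMod e, if b * y + s = 0 then (1 : ℂ) else 0 := by
    rw [Nat.card_eq_fintype_card, Fintype.card_subtype, Finset.card_filter]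
    push_cast
    rfl
  have h2 : (e : ℂ) * (Nat.card {y : ZMod e // b * y + s = 0} : ℂ) =
      (e : ℂ) * ∑ u : ZMod e, if u * b = 0 then χ (u * s) else 0 := by
    calc (e : ℂ) * (Nat.card {y : ZMod e // b * y + s = 0} : ℂ)
        = ∑ y : ZMod e, ∑ u : ZMod e, χ (u * (b * y + s)) := by
          rw [hcard, Finset.mul_sum]
          refine Finset.sum_congr rfl fun y _ => ?_
          rw [h1]
          split_ifs <;> simp
      _ = ∑ u : ZMod e, ∑ y : ZMod e, χ (u * s) * χ (y * (u * b)) := by
          rw [Finset.sum_comm]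
          refine Finset.sum_congr rfl fun u _ => Finset.sum_congr rfl fun y _ => ?_
          rw [← AddChar.map_add_eq_mul]
          congr 1; ring
      _ = _ := by
          rw [Finset.mul_sum]
          refine Finset.sum_congr rfl fun u _ => ?_
          rw [← Finset.mul_sum, h1]
          split_ifs <;> ring
  exact mul_left_cancel₀ he h2

/-- the number of solutions as a sum over `ℤ/m` -/
theorem hb_lift {m : ℕ} [NeZero m] {ζ : ℂ} (hζ : IsPrimitiveRoot ζ m) (a t : ZMod m) {d : ℕ}
    (hd : d ∣ m) :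
    (Nat.card {y : ZMod (m / d) // ((a.val : ℕ) : ZMod (m / d)) * y +
      ((t.val : ℕ) : ZMod (m / d)) = y} : ℂ) =
      ∑ v : ZMod m, if d ∣ v.val then (if v * (a - 1) = 0 then ζ ^ (v * t).val else 0) else 0 := by
  classical
  obtain ⟨e, rfl⟩ := hd
  have hm0 : d * e ≠ 0 := NeZero.ne _
  have hd0 : d ≠ 0 := fun h => hm0 (by rw [h, zero_mul])
  have he0 : e ≠ 0 := fun h => hm0 (by rw [h, mul_zero])
  have hde : d * e / d = e := Nat.mul_div_cancel_left _ (by omega)
  rw [hde]
  have : NeZero e := ⟨he0⟩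
  have hz : IsPrimitiveRoot (ζ ^ d) e := hζ.pow (by omega) rfl
  -- step 1
  have h1 : Nat.card {y : ZMod e // ((a.val : ℕ) : ZMod e) * y + ((t.val : ℕ) : ZMod e) = y} =
      Nat.card {y : ZMod e // (((a.val : ℕ) : ZMod e) - 1) * y + ((t.val : ℕ) : ZMod e) = 0} := by
    refine Nat.card_congr (Equiv.subtypeEquivRight fun y => ?_)
    constructor
    · intro h; linear_combination h
    · intro h; linear_combination h
  rw [h1, hb_char hz]
  -- the map
  let f : ZMod e → ZMod (d * e) := fun u => ((d * u.val : ℕ) : ZMod (d * e))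
  have hfv : ∀ u : ZMod e, (f u).val = d * u.val := by
    intro u
    simp only [f]
    rw [ZMod.val_natCast, Nat.mod_eq_of_lt]
    exact Nat.mul_lt_mul_of_pos_left (ZMod.val_lt u) (by omega)
  have hfi : Function.Injective f := by
    intro u u' h
    have := congrArg ZMod.val h
    rw [hfv, hfv] at this
    exact ZMod.val_injective e (Nat.eq_of_mul_eq_mul_left (by omega) this)
  have hterm : ∀ u : ZMod e, (if u * (((a.val : ℕ) : ZMod e) - 1) = 0 then
      AddChar.zmodChar e hz.pow_eq_one (u * ((t.val : ℕ) : ZMod e)) else 0) =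
      if f u * (a - 1) = 0 then ζ ^ (f u * t).val else 0 := by
    intro u
    have c1 : u * (((a.val : ℕ) : ZMod e) - 1) = 0 ↔ f u * (a - 1) = 0 := by
      have e1 : u * (((a.val : ℕ) : ZMod e) - 1) = 0 ↔
          ((u.val * a.val : ℕ) : ZMod e) = ((u.val : ℕ) : ZMod e) := by
        rw [mul_sub, mul_one, sub_eq_zero]
        push_cast
        rw [ZMod.natCast_zmod_val]
      have e2 : f u * (a - 1) = 0 ↔
          ((d * u.val * a.val : ℕ) : ZMod (d * e)) = ((d * u.val : ℕ) : ZMod (d * e)) := by
        rw [mul_sub, mul_one, sub_eq_zero]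
        simp only [f]
        push_cast
        rw [ZMod.natCast_zmod_val a]
      rw [e1, e2, ZMod.natCast_eq_natCast_iff, ZMod.natCast_eq_natCast_iff, mul_assoc]
      exact (Nat.ModEq.mul_left_cancel_iff' hd0).symm
    have c2 : AddChar.zmodChar e hz.pow_eq_one (u * ((t.val : ℕ) : ZMod e)) =
        ζ ^ (f u * t).val := by
      have e1 : u * ((t.val : ℕ) : ZMod e) = ((u.val * t.val : ℕ) : ZMod e) := by
        push_cast
        rw [ZMod.natCast_zmod_val]
      have e2 : f u * t = ((d * (u.val * t.val) : ℕ) : ZMod (d * e)) := by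
        simp only [f]
        push_cast
        rw [ZMod.natCast_zmod_val t]; ring
      rw [e1, AddChar.zmodChar_apply', e2, ← pow_mul, ← AddChar.zmodChar_apply hζ.pow_eq_one,
        AddChar.zmodChar_apply']
    by_cases h : f u * (a - 1) = 0
    · rw [if_pos h, if_pos (c1.2 h), c2]
    · rw [if_neg h, if_neg fun h' => h (c1.1 h')]
  rw [Finset.sum_congr rfl fun u _ => hterm u]
  -- reindex
  rw [← Finset.sum_filter (s := (Finset.univ : Finset (ZMod (d * e))))
    (p := fun v => d ∣ v.val)]
  have himg : (Finset.univ : Finset (ZMod (d * e))).filter (fun v => d ∣ v.val) =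
      (Finset.univ : Finset (ZMod e)).image f := by
    ext v
    simp only [Finset.mem_filter, Finset.mem_univ, true_and, Finset.mem_image]
    constructor
    · rintro ⟨k, hk⟩
      have hk' : k < e := by
        have := ZMod.val_lt v
        rw [hk] at this
        exact Nat.lt_of_mul_lt_mul_left this
      refine ⟨(k : ZMod e), ?_⟩
      apply ZMod.val_injective
      rw [hfv, hk, ZMod.val_natCast, Nat.mod_eq_of_lt hk']
    · rintro ⟨u, rfl⟩
      rw [hfv]; exact dvd_mul_right _ _
  rw [himg, Finset.sum_image fun x _ y _ h => hfi h]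

theorem hb_count {m : ℕ} (hm : 0 < m) {ζ : ℂ} (hζ : IsPrimitiveRoot ζ m) (a : (ZMod m)ˣ)
    (t : ZMod m) [Fintype (ZMod m)ˣ] [DecidableEq (ZMod m)ˣ] :
    ∑ e ∈ m.divisors, (ArithmeticFunction.moebius (m / e) : ℂ) *
      (Nat.card {y : ZMod e // (((a : ZMod m).val : ℕ) : ZMod e) * y + ((t.val : ℕ) : ZMod e) = y}
        : ℂ) = if a = 1 then ∑ u : (ZMod m)ˣ, ζ ^ ((u : ZMod m) * t).val else 0 := by
  classical
  have : NeZero m := ⟨hm.ne'⟩
  set c : ℕ → ℂ := fun e => (Nat.card {y : ZMod e // (((a : ZMod m).val : ℕ) : ZMod e) * y +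
    ((t.val : ℕ) : ZMod e) = y} : ℂ) with hc
  have h1 : ∑ e ∈ m.divisors, (ArithmeticFunction.moebius (m / e) : ℂ) * c e =
      ∑ d ∈ m.divisors, (ArithmeticFunction.moebius d : ℂ) * c (m / d) := by
    rw [← Nat.sum_div_divisors m fun d => (ArithmeticFunction.moebius d : ℂ) * c (m / d)]
    refine Finset.sum_congr rfl fun e he => ?_
    rw [Nat.div_div_self (Nat.dvd_of_mem_divisors he) hm.ne']
  have h2 : ∀ d ∈ m.divisors, c (m / d) = ∑ v : ZMod m, if d ∣ v.val then
      (if v * ((a : ZMod m) - 1) = 0 then ζ ^ (v * t).val else 0) else 0 := fun d hd =>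
    hb_lift hζ (a : ZMod m) t (Nat.dvd_of_mem_divisors hd)
  have hmu : ∀ k : ℕ, ∑ d ∈ m.divisors, (if d ∣ k then (ArithmeticFunction.moebius d : ℂ) else 0) =
      if Nat.Coprime k m then 1 else 0 := by
    intro k
    rw [← Finset.sum_filter]
    have hf : m.divisors.filter (fun d => d ∣ k) = (Nat.gcd k m).divisors := by
      ext d
      simp only [Finset.mem_filter, Nat.mem_divisors]
      constructor
      · rintro ⟨⟨h3, -⟩, h4⟩
        exact ⟨Nat.dvd_gcd h4 h3, Nat.gcd_ne_zero_right hm.ne'⟩
      · rintro ⟨h3, -⟩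
        exact ⟨⟨h3.trans (Nat.gcd_dvd_right _ _), hm.ne'⟩, h3.trans (Nat.gcd_dvd_left _ _)⟩
    rw [hf]
    have h5 := congrArg (fun F : ArithmeticFunction ℤ => F (Nat.gcd k m))
      ArithmeticFunction.coe_zeta_mul_moebius
    simp only [ArithmeticFunction.coe_zeta_mul_apply, ArithmeticFunction.one_apply] at h5
    have h6 : ((∑ d ∈ (Nat.gcd k m).divisors, ArithmeticFunction.moebius d : ℤ) : ℂ) =
        ((if Nat.gcd k m = 1 then 1 else 0 : ℤ) : ℂ) := by rw [h5]
    push_cast at h6
    rw [h6]
  have h3 : ∑ d ∈ m.divisors, (ArithmeticFunction.moebius d : ℂ) * c (m / d) =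
      ∑ v : ZMod m, if Nat.Coprime v.val m then
        (if v * ((a : ZMod m) - 1) = 0 then ζ ^ (v * t).val else 0) else 0 := by
    rw [Finset.sum_congr rfl fun d hd => by rw [h2 d hd, Finset.mul_sum], Finset.sum_comm]
    refine Finset.sum_congr rfl fun v _ => ?_
    have h7 : ∀ d ∈ m.divisors, (ArithmeticFunction.moebius d : ℂ) * (if d ∣ v.val then
        (if v * ((a : ZMod m) - 1) = 0 then ζ ^ (v * t).val else 0) else 0) =
        (if d ∣ v.val then (ArithmeticFunction.moebius d : ℂ) else 0) *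
          (if v * ((a : ZMod m) - 1) = 0 then ζ ^ (v * t).val else 0) := by
      intro d _
      by_cases h : d ∣ v.val
      · rw [if_pos h, if_pos h]
      · rw [if_neg h, if_neg h, mul_zero, zero_mul]
    rw [Finset.sum_congr rfl h7, ← Finset.sum_mul, hmu]
    split_ifs <;> simp
  rw [h1, h3, ← Finset.sum_filter (s := (Finset.univ : Finset (ZMod m)))
    (p := fun v => Nat.Coprime v.val m)]
  have himg : (Finset.univ : Finset (ZMod m)).filter (fun v => Nat.Coprime v.val m) =
      (Finset.univ : Finset (ZMod m)ˣ).image (fun u : (ZMod m)ˣ => (u : ZMod m)) := by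
    ext v
    simp only [Finset.mem_filter, Finset.mem_univ, true_and, Finset.mem_image]
    rw [← ZMod.isUnit_iff_coprime, ZMod.natCast_zmod_val]
    rfl
  rw [himg, Finset.sum_image fun x _ y _ h => Units.ext h]
  by_cases ha : a = 1
  · subst ha
    simp
  · rw [if_neg ha]
    refine Finset.sum_eq_zero fun u _ => if_neg fun h => ha ?_
    have h8 : (a : ZMod m) - 1 = 0 := by
      have := congrArg (fun x => ((u⁻¹ : (ZMod m)ˣ) : ZMod m) * x) h
      simpa [← mul_assoc] using this
    exact Units.ext (by rw [sub_eq_zero] at h8; simpa using h8)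


end Pool.Agent.SY
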