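import Pool.Agent.Lib_helper29.SY.DefsS

/-!
# SY, block HC: the logarithm of a character
-/

set_option autoImplicit false
set_option linter.unusedSectionVars false

namespace Pool.Agent.SY

open Equiv.Perm
open scoped BigOperators

/-- HC. A character with values in the `m`-th roots of unity. -/
theorem hc_log {B : Type} [CommGroup B] {m : ℕ} (hm : 0 < m) {ζ : ℂ} (hζ : IsPrimitiveRoot ζ m)
    (ψ : B →* ℂˣ) (hψ : ∀ b, ψ b ^ m = 1) : ∃ φ : B →* Multiplicative (ZMod m),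
      ∀ b, ((ψ b : ℂˣ) : ℂ) = ζ ^ (Multiplicative.toAdd (φ b)).val := by
  have : NeZero m := ⟨hm.ne'⟩
  have hk : ∀ b, ∃ k : ℕ, k < m ∧ ζ ^ k = ((ψ b : ℂˣ) : ℂ) := fun b =>
    hζ.eq_pow_of_pow_eq_one (by rw [← Units.val_pow_eq_pow_val, hψ b, Units.val_one])
  choose k hk1 hk2 using hk
  have hinj : ∀ i j : ℕ, ζ ^ i = ζ ^ j → (i : ZMod m) = (j : ZMod m) := by
    intro i j h
    rw [ZMod.natCast_eq_natCast_iff]
    have h2 : (hζ.isUnit hm.ne').unit ^ i = (hζ.isUnit hm.ne').unit ^ j := by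
      apply Units.ext
      rw [Units.val_pow_eq_pow_val, Units.val_pow_eq_pow_val, IsUnit.unit_spec, h]
    rw [pow_eq_pow_iff_modEq] at h2
    have h3 : orderOf (hζ.isUnit hm.ne').unit = m := by
      rw [← orderOf_units, IsUnit.unit_spec, ← hζ.eq_orderOf]
    rwa [h3] at h2
  refine ⟨MonoidHom.mk' (fun b => Multiplicative.ofAdd ((k b : ℕ) : ZMod m)) fun a b => ?_,
    fun b => ?_⟩
  · rw [← ofAdd_add, ← Nat.cast_add]
    congr 1
    apply hinj
    rw [hk2, pow_add, hk2, hk2, map_mul, Units.val_mul]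
  · show ((ψ b : ℂˣ) : ℂ) = ζ ^ (((k b : ℕ) : ZMod m)).val
    rw [ZMod.val_natCast_of_lt (hk1 b), hk2]

end Pool.Agent.SY
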