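import Pool.Agent.Lib_helper29.SY.DefsS

/-!
# Project SY, block SG (realization of integral combinations of permutation characters)
-/

set_option autoImplicit false
set_option linter.unusedSectionVars false

namespace Pool.Agent.SY

open Equiv.Perm
open scoped BigOperators

/-- `b i` copies of the `Z i` -/
def sgAct {Γ I : Type} [Group Γ] (Z : I → Type) (τ : (i : I) → Γ →* Equiv.Perm (Z i))
    (b : I → ℕ) : Γ →* Equiv.Perm (Σ i, Z i × Fin (b i)) where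
  toFun γ := Equiv.sigmaCongrRight fun i => Equiv.prodCongr (τ i γ) (Equiv.refl (Fin (b i)))
  map_one' := by
    refine Equiv.ext fun y => ?_
    obtain ⟨i, z, t⟩ := y
    show (⟨i, τ i 1 z, t⟩ : Σ i, Z i × Fin (b i)) = ⟨i, z, t⟩
    rw [map_one]
    rfl
  map_mul' γ γ' := by
    refine Equiv.ext fun y => ?_
    obtain ⟨i, z, t⟩ := y
    show (⟨i, τ i (γ * γ') z, t⟩ : Σ i, Z i × Fin (b i)) = ⟨i, τ i γ (τ i γ' z), t⟩
    rw [map_mul]
    rfl

theorem sg_act_apply {Γ I : Type} [Group Γ] (Z : I → Type) (τ : (i : I) → Γ →* Equiv.Perm (Z i))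
    (b : I → ℕ) (γ : Γ) (i : I) (z : Z i) (t : Fin (b i)) :
    sgAct Z τ b γ ⟨i, z, t⟩ = ⟨i, τ i γ z, t⟩ := rfl

/-- the fixed points -/
def sgFix {Γ I : Type} [Group Γ] (Z : I → Type) (τ : (i : I) → Γ →* Equiv.Perm (Z i))
    (b : I → ℕ) (γ : Γ) :
    {y : Σ i, Z i × Fin (b i) // sgAct Z τ b γ y = y} ≃
      Σ i, {z : Z i // τ i γ z = z} × Fin (b i) where
  toFun y := ⟨y.1.1, ⟨⟨y.1.2.1, by
    obtain ⟨⟨i, z, t⟩, h⟩ := y
    rw [sg_act_apply] at h
    have h1 := eq_of_heq (Sigma.mk.inj h).2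
    exact (Prod.mk.inj h1).1⟩, y.1.2.2⟩⟩
  invFun w := ⟨⟨w.1, w.2.1.1, w.2.2⟩, by
    rw [sg_act_apply, w.2.1.2]⟩
  left_inv _ := rfl
  right_inv _ := rfl

theorem sg_card {Γ I : Type} [Group Γ] [Fintype I] (Z : I → Type) [∀ i, Finite (Z i)]
    (τ : (i : I) → Γ →* Equiv.Perm (Z i)) (b : I → ℕ) (γ : Γ) :
    Nat.card {y : Σ i, Z i × Fin (b i) // sgAct Z τ b γ y = y} =
      ∑ i, Nat.card {z : Z i // τ i γ z = z} * b i := by
  rw [Nat.card_congr (sgFix Z τ b γ), Nat.card_sigma]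
  refine Finset.sum_congr rfl fun i _ => ?_
  rw [Nat.card_prod, Nat.card_eq_fintype_card (α := Fin (b i)), Fintype.card_fin]

theorem sg_real {Γ I : Type} [Group Γ] [Fintype I] (Z : I → Type) [∀ i, Finite (Z i)]
    (τ : (i : I) → Γ →* Equiv.Perm (Z i)) (a : I → ℤ) :
    ∃ (Y Y' : Type) (_ : Finite Y) (_ : Finite Y') (σ : Γ →* Equiv.Perm Y)
      (σ' : Γ →* Equiv.Perm Y'), ∀ γ, (Nat.card {y // σ γ y = y} : ℂ) =
        Nat.card {y // σ' γ y = y} + ∑ i, (a i : ℂ) * Nat.card {z // τ i γ z = z} := by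
  refine ⟨Σ i, Z i × Fin (a i).toNat, Σ i, Z i × Fin (-a i).toNat, inferInstance, inferInstance,
    sgAct Z τ fun i => (a i).toNat, sgAct Z τ fun i => (-a i).toNat, ?_⟩
  intro γ
  rw [sg_card, sg_card]
  push_cast
  rw [← Finset.sum_add_distrib]
  refine Finset.sum_congr rfl fun i _ => ?_
  have h1 : (((a i).toNat : ℤ) : ℂ) - (((-a i).toNat : ℤ) : ℂ) = ((a i : ℤ) : ℂ) := by
    rw [← Int.cast_sub, Int.toNat_sub_toNat_neg]
  rw [← h1]
  push_cast
  ring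

end Pool.Agent.SY
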