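import Pool.Agent.Lib_helper29.SY.DefsS
import Pool.Agent.Lib_helper29.SY.P_HA
import Pool.Agent.Lib_helper29.SY.P_HB
import Pool.Agent.Lib_helper29.SY.P_HC
import Pool.Agent.Lib_helper29.SY.P_SG

/-!
# SY block HD: induced characters of a holomorph
-/

set_option autoImplicit false
set_option linter.unusedSectionVars false

namespace Pool.Agent.SY

open Equiv.Perm
open scoped BigOperators

theorem hd_conj {Γ B : Type} [Group Γ] [CommGroup B] {m : ℕ} (j : B →* Γ)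
    (θ : (ZMod m)ˣ →* Γ) (hconj : ∀ a b, θ a * j b * (θ a)⁻¹ = j (b ^ (a : ZMod m).val))
    (c b : B) (d : (ZMod m)ˣ) :
    (j c * θ d) * j b * (j c * θ d)⁻¹ = j (b ^ (d : ZMod m).val) := by
  have h : (j c * θ d) * j b * (j c * θ d)⁻¹ = j c * (θ d * j b * (θ d)⁻¹) * (j c)⁻¹ := by group
  rw [h, hconj, ← map_inv, ← map_mul, ← map_mul, mul_comm c, mul_assoc, mul_inv_cancel, mul_one]

theorem hd_bij {Γ B : Type} [Group Γ] [CommGroup B] {m : ℕ} (j : B →* Γ)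
    (hj : Function.Injective j) (θ : (ZMod m)ˣ →* Γ)
    (hdec : ∀ γ, ∃ b a, γ = j b * θ a) (htriv : ∀ b a, j b * θ a = 1 → a = 1) :
    Function.Bijective fun p : B × (ZMod m)ˣ => j p.1 * θ p.2 := by
  constructor
  · rintro ⟨c, d⟩ ⟨c', d'⟩ h
    have h : j c * θ d = j c' * θ d' := h
    have h1 : j (c'⁻¹ * c) * θ (d * d'⁻¹) = 1 := by
      rw [map_mul, map_mul, map_inv, map_inv]
      calc (j c')⁻¹ * j c * (θ d * (θ d')⁻¹) = (j c')⁻¹ * (j c * θ d) * (θ d')⁻¹ := by group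
        _ = (j c')⁻¹ * (j c' * θ d') * (θ d')⁻¹ := by rw [h]
        _ = 1 := by group
    have h2 : d = d' := mul_inv_eq_one.1 (htriv _ _ h1)
    subst h2
    have h3 : c = c' := hj (mul_right_cancel h)
    rw [h3]
  · intro γ
    obtain ⟨b, a, h⟩ := hdec γ
    exact ⟨(b, a), h.symm⟩

/-- powers with exponents in `ℤ/m` -/
theorem hd_pow {M : Type} [Monoid M] {m : ℕ} {x : M} (hx : x ^ m = 1) (u v : ZMod m) :
    x ^ (u * v).val = (x ^ u.val) ^ v.val := by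
  rw [ZMod.val_mul, ← pow_mul, pow_eq_pow_mod (u.val * v.val) hx]

theorem hd_unit {M : Type} [Monoid M] {m : ℕ} {x : M} (hx : x ^ m = 1)
    (d : (ZMod m)ˣ) : (x ^ (d : ZMod m).val) ^ ((d⁻¹ : (ZMod m)ˣ) : ZMod m).val = x := by
  rw [← hd_pow hx, Units.mul_inv]
  rcases Nat.lt_or_ge 1 m with h | h
  · have : Fact (1 < m) := ⟨h⟩
    rw [ZMod.val_one, pow_one]
  · interval_cases m
    · simp [ZMod.val]
    · have e : x = 1 := by simpa using hx
      rw [e, one_pow]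

theorem hd_ind {Γ B : Type} [Group Γ] [CommGroup B] [Finite B] {m : ℕ} (hm : 0 < m) (j : B →* Γ)
    (hj : Function.Injective j) (θ : (ZMod m)ˣ →* Γ)
    (hconj : ∀ a b, θ a * j b * (θ a)⁻¹ = j (b ^ (a : ZMod m).val))
    (hdec : ∀ γ, ∃ b a, γ = j b * θ a) (htriv : ∀ b a, j b * θ a = 1 → a = 1)
    (hexp : ∀ b : B, b ^ m = 1) (ψ : B →* ℂˣ) [Fintype (ZMod m)ˣ] [DecidableEq (ZMod m)ˣ]
    (b : B) (a : (ZMod m)ˣ) :
    indG j ψ (j b * θ a) =
      if a = 1 then ∑ u : (ZMod m)ˣ, ((ψ b : ℂˣ) : ℂ) ^ (u : ZMod m).val else 0 := by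
  classical
  have hbij := hd_bij j hj θ hdec htriv
  have : Finite Γ := Finite.of_surjective _ hbij.2
  have := Fintype.ofFinite Γ
  have := Fintype.ofFinite B
  rw [indG_eq]
  have hsum : ∑ δ : Γ, ∑ b' : B,
      (if j b' = δ⁻¹ * (j b * θ a) * δ then ((ψ b' : ℂˣ) : ℂ) else 0) =
      ∑ p : B × (ZMod m)ˣ, ∑ b' : B,
        (if j b' = (j p.1 * θ p.2)⁻¹ * (j b * θ a) * (j p.1 * θ p.2)
          then ((ψ b' : ℂˣ) : ℂ) else 0) :=
    (Fintype.sum_bijective _ hbij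
      (fun p : B × (ZMod m)ˣ => ∑ b' : B,
        (if j b' = (j p.1 * θ p.2)⁻¹ * (j b * θ a) * (j p.1 * θ p.2)
          then ((ψ b' : ℂˣ) : ℂ) else 0)) _ fun _ => rfl).symm
  rw [hsum]
  have hiff : ∀ (p : B × (ZMod m)ˣ) (b' : B),
      j b' = (j p.1 * θ p.2)⁻¹ * (j b * θ a) * (j p.1 * θ p.2) ↔
        a = 1 ∧ b' ^ (p.2 : ZMod m).val = b := by
    rintro ⟨c, d⟩ b'
    have h1 : j b' = (j c * θ d)⁻¹ * (j b * θ a) * (j c * θ d) ↔
        j (b' ^ (d : ZMod m).val) = j b * θ a := by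
      rw [← hd_conj j θ hconj c b' d]
      constructor
      · intro h
        rw [h]
        group
      · intro h
        rw [← h]
        group
    rw [h1]
    constructor
    · intro h
      have h2 : j ((b' ^ (d : ZMod m).val)⁻¹ * b) * θ a = 1 := by
        rw [map_mul, map_inv, mul_assoc, ← h, inv_mul_cancel]
      have h3 := htriv _ _ h2
      refine ⟨h3, hj ?_⟩
      rw [h, h3, map_one, mul_one]
    · rintro ⟨h2, h3⟩
      rw [h3, h2, map_one, mul_one]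
  simp_rw [hiff]
  split_ifs with ha
  · subst ha
    have hin : ∀ p : B × (ZMod m)ˣ, (∑ b' : B,
        (if (1 : (ZMod m)ˣ) = 1 ∧ b' ^ (p.2 : ZMod m).val = b then ((ψ b' : ℂˣ) : ℂ) else 0)) =
        ((ψ b : ℂˣ) : ℂ) ^ ((p.2⁻¹ : (ZMod m)ˣ) : ZMod m).val := by
      intro p
      have h4 : ∀ b' : B, ((1 : (ZMod m)ˣ) = 1 ∧ b' ^ (p.2 : ZMod m).val = b) ↔
          b' = b ^ ((p.2⁻¹ : (ZMod m)ˣ) : ZMod m).val := by
        intro b'
        constructor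
        · rintro ⟨-, h⟩
          rw [← h, hd_unit (hexp b')]
        · intro h
          refine ⟨rfl, ?_⟩
          have h5 := hd_unit (hexp b) p.2⁻¹
          rw [inv_inv] at h5
          rw [h, h5]
      rw [Finset.sum_congr rfl fun b' _ => if_congr (h4 b') rfl rfl]
      rw [Finset.sum_ite_eq' Finset.univ, if_pos (Finset.mem_univ _), map_pow, Units.val_pow_eq_pow_val]
    rw [Finset.sum_congr rfl fun p _ => hin p]
    have hs : ∀ F : (ZMod m)ˣ → ℂ, ∑ p : B × (ZMod m)ˣ, F p.2 =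
        (Fintype.card B : ℂ) * ∑ d : (ZMod m)ˣ, F d := by
      intro F
      rw [← Finset.univ_product_univ, Finset.sum_product]
      change ∑ _x : B, ∑ y : (ZMod m)ˣ, F y = _
      rw [Finset.sum_const, Finset.card_univ, nsmul_eq_mul]
    rw [hs fun d : (ZMod m)ˣ => ((ψ b : ℂˣ) : ℂ) ^ ((d⁻¹ : (ZMod m)ˣ) : ZMod m).val]
    rw [inv_mul_cancel_left₀ (by exact_mod_cast Fintype.card_ne_zero)]
    exact Fintype.sum_equiv (Equiv.inv (ZMod m)ˣ)
      (fun d : (ZMod m)ˣ => ((ψ b : ℂˣ) : ℂ) ^ ((d⁻¹ : (ZMod m)ˣ) : ZMod m).val)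
      (fun u : (ZMod m)ˣ => ((ψ b : ℂˣ) : ℂ) ^ (u : ZMod m).val) fun d => rfl
  · simp [ha]

theorem hol_mono {Γ B : Type} [Group Γ] [CommGroup B] [Finite B] {m : ℕ} (hm : 0 < m) (j : B →* Γ)
    (hj : Function.Injective j) (θ : (ZMod m)ˣ →* Γ)
    (hconj : ∀ a b, θ a * j b * (θ a)⁻¹ = j (b ^ (a : ZMod m).val))
    (hdec : ∀ γ, ∃ b a, γ = j b * θ a) (htriv : ∀ b a, j b * θ a = 1 → a = 1)
    (hexp : ∀ b : B, b ^ m = 1) (ψ : B →* ℂˣ) :
    ∃ (Y Y' : Type) (_ : Finite Y) (_ : Finite Y') (σ : Γ →* Equiv.Perm Y)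
      (σ' : Γ →* Equiv.Perm Y'), ∀ γ, (Nat.card {y // σ γ y = y} : ℂ) =
        Nat.card {y // σ' γ y = y} + indG j ψ γ := by
  classical
  have : NeZero m := ⟨hm.ne'⟩
  have hζ := Complex.isPrimitiveRoot_exp m hm.ne'
  set ζ : ℂ := Complex.exp (2 * Real.pi * Complex.I / m) with hζd
  have hψ : ∀ b, ψ b ^ m = 1 := fun b => by rw [← map_pow, hexp b, map_one]
  obtain ⟨φ, hφ⟩ := hc_log hm hζ ψ hψ
  have hρ : ∀ e : {e : ℕ // e ∈ m.divisors}, ∃ ρ : Γ →* Equiv.Perm (ZMod e.1),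
      (∀ b y, ρ (j b) y = y + (((Multiplicative.toAdd (φ b)).val : ℕ) : ZMod e.1)) ∧
      ∀ (a : (ZMod m)ˣ) (y : ZMod e.1), ρ (θ a) y = (((a : ZMod m).val : ℕ) : ZMod e.1) * y :=
    fun e => ha_act hm j hj θ hconj hdec htriv φ (Nat.dvd_of_mem_divisors e.2)
  choose ρ hρ1 hρ2 using hρ
  have hfin : ∀ e : {e : ℕ // e ∈ m.divisors}, Finite (ZMod e.1) := by
    intro e
    have : NeZero e.1 := ⟨(Nat.pos_of_mem_divisors e.2).ne'⟩
    infer_instance
  obtain ⟨Y, Y', hY, hY', σ, σ', h⟩ := sg_real (Γ := Γ) (I := {e : ℕ // e ∈ m.divisors})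
    (fun e => ZMod e.1) ρ (fun e => ArithmeticFunction.moebius (m / e.1))
  refine ⟨Y, Y', hY, hY', σ, σ', fun γ => ?_⟩
  rw [h γ]
  congr 1
  obtain ⟨b, a, rfl⟩ := hdec γ
  rw [hd_ind hm j hj θ hconj hdec htriv hexp ψ b a]
  have hb := hb_count hm hζ a (Multiplicative.toAdd (φ b))
  have e1 : ∑ e : {e : ℕ // e ∈ m.divisors}, ((ArithmeticFunction.moebius (m / e.1) : ℤ) : ℂ) *
      (Nat.card {z // ρ e (j b * θ a) z = z} : ℂ) =
      ∑ e ∈ m.divisors, (ArithmeticFunction.moebius (m / e) : ℂ) *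
      (Nat.card {y : ZMod e // (((a : ZMod m).val : ℕ) : ZMod e) * y +
        (((Multiplicative.toAdd (φ b)).val : ℕ) : ZMod e) = y} : ℂ) := by
    rw [← Finset.sum_coe_sort m.divisors (fun e : ℕ =>
      ((ArithmeticFunction.moebius (m / e) : ℤ) : ℂ) *
      (Nat.card {y : ZMod e // (((a : ZMod m).val : ℕ) : ZMod e) * y +
        (((Multiplicative.toAdd (φ b)).val : ℕ) : ZMod e) = y} : ℂ))]
    refine Finset.sum_congr rfl fun e _ => ?_
    congr 2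
    refine Nat.card_congr (Equiv.subtypeEquivRight fun z => ?_)
    rw [map_mul, Equiv.Perm.mul_apply, hρ1, hρ2]
  rw [e1, hb]
  split_ifs with ha
  · refine Finset.sum_congr rfl fun u _ => ?_
    rw [hφ b]
    have hz : ζ ^ m = 1 := hζ.pow_eq_one
    rw [mul_comm (u : ZMod m), hd_pow hz]
  · rfl

end Pool.Agent.SY
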