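import Pool.Agent.Lib_helper29.SY.DefsS
import Pool.Agent.Lib_helper29.SY.Defs
import Pool.Agent.Lib_helper29.SY.DT
import Pool.Agent.Lib_helper49.RT.Amp
import Pool.Agent.Lib_helper29.SY.P_HD
import Pool.Agent.Lib_helper29.SY.P_IK

/-!
# SY: block FH
-/

set_option autoImplicit false
set_option linter.unusedSectionVars false

namespace Pool.Agent.SY

open Pool.Agent.RSK Pool.Agent.RS2 Pool.Agent.RS3 Pool.Agent.RT
open NumberField IsDedekindDomain Filter Topology Complex
open scoped TensorProduct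

/-- a finite cyclic group has an injective character -/
theorem fh_char {C : Type} [Group C] [Finite C] (hC : IsCyclic C) :
    ∃ χ : C →* ℂˣ, Function.Injective χ := by
  have hn : NeZero (Nat.card C) := ⟨Nat.card_pos.ne'⟩
  set e := (zmodCyclicMulEquiv hC).symm with he
  set ψ : Multiplicative (ZMod (Nat.card C)) →* ℂ :=
    (ZMod.stdAddChar (N := Nat.card C)).toMonoidHom with hψ
  refine ⟨(ψ.comp e.toMonoidHom).toHomUnits, ?_⟩
  intro x y hxy
  have h1 : ψ (e x) = ψ (e y) := congrArg Units.val hxy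
  have h2 : Multiplicative.toAdd (e x) = Multiplicative.toAdd (e y) :=
    ZMod.injective_stdAddChar h1
  exact e.injective (Multiplicative.toAdd.injective h2)

section FAM

variable {F H : Type} [Field F] [NumberField F] [Field H] [NumberField H] [Algebra F H]
  [IsGalois F H] {G : Type} [CommGroup G] [Fintype G] (ι : G ≃* (H ≃ₐ[F] H))

theorem hol_lay (h : HolT F H) (N : Subgroup G) (hN : IsCyclic (G ⧸ N)) :
    PermLay F (Kf ι N) := by
  obtain ⟨F₀, _, _, _, _, _, _, m, θ, hm, hexp, hconj, hdec, htriv⟩ := h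
  obtain ⟨ι', hq⟩ := kf_quo ι N
  obtain ⟨χ₀, hχ₀⟩ := fh_char hN
  set χ : (Kf ι N ≃ₐ[F] Kf ι N) →* ℂˣ := χ₀.comp ι'.symm.toMonoidHom with hχ
  have hχi : Function.Injective χ := hχ₀.comp ι'.symm.injective
  set π : G →* (Kf ι N ≃ₐ[F] Kf ι N) := ι'.toMonoidHom.comp (QuotientGroup.mk' N) with hπ
  have hj : Function.Injective (rst F₀ ι) := by
    intro a b hab
    apply ι.injective
    ext x
    exact congrArg (fun γ : H ≃ₐ[F₀] H => γ x) hab
  have hjx : ∀ (b : G) (x : H), rst F₀ ι b x = ι b x := fun _ _ => rfl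
  obtain ⟨Y, Y', hY, hY', σ, σ', hσ⟩ := hol_mono (Γ := H ≃ₐ[F₀] H) (B := G) hm (rst F₀ ι) hj θ
    (by
      intro a b
      ext x
      rw [AlgEquiv.mul_apply, AlgEquiv.mul_apply, hjx, hjx, hconj, map_pow]
      congr 1
      rw [← AlgEquiv.mul_apply, mul_inv_cancel, AlgEquiv.one_apply])
    (by
      intro γ
      obtain ⟨s, a, hs⟩ := hdec γ
      refine ⟨ι.symm s, a, ?_⟩
      ext x
      rw [AlgEquiv.mul_apply, hjx, MulEquiv.apply_symm_apply, hs])
    (by
      intro b a hba
      apply htriv a (ι b⁻¹)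
      intro x
      have h1 : ι b (θ a x) = x := by
        have := congrArg (fun γ : H ≃ₐ[F₀] H => γ x) hba
        exact this
      have h2 : ι b⁻¹ (ι b (θ a x)) = θ a x := by
        rw [← AlgEquiv.mul_apply, ← map_mul, inv_mul_cancel, map_one, AlgEquiv.one_apply]
      rw [← h2, h1])
    (by
      intro b
      apply ι.injective
      rw [map_pow, map_one]
      exact hexp (ι b))
    (χ.comp π)
  refine ⟨F₀, H, inferInstance, inferInstance, inferInstance, inferInstance, inferInstance,
    inferInstance, inferInstance, inferInstance, inferInstance, inferInstance, inferInstance,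
    Y, Y', hY, hY', σ, σ', χ, hχi, ?_⟩
  intro γ
  rw [hσ γ, add_sub_cancel_left]
  symm
  refine indK_eq (F₀ := F₀) (F := F) (K := Kf ι N) (L := H) (rst F₀ ι) π hj ?_ ?_ ?_ χ γ
  · intro γ hγ
    refine ⟨ι.symm { γ.toRingEquiv with commutes' := hγ }, ?_⟩
    ext x
    rw [hjx, MulEquiv.apply_symm_apply]
    rfl
  · intro b x
    rw [hjx]
    exact (ι b).commutes x
  · intro b x
    rw [hjx]
    exact (hq.compat b x).symm

end FAM

end Pool.Agent.SY
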