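import Pool.Agent.Lib_helper29.SY.DefsS

/-! Block KA of project SY: an extension of the units of `ℤ/n`, `n` odd, splits. -/

set_option autoImplicit false
set_option linter.unusedSectionVars false

namespace Pool.Agent.SY

open Equiv.Perm
open scoped BigOperators

theorem ka_odd {Γ : Type} [Group Γ] {n : ℕ} (hn : Odd n) (a : Γ) (h2 : a * a = 1)
    (hn1 : a ^ n = 1) : a = 1 := by
  obtain ⟨k, rfl⟩ := hn
  rw [pow_succ, pow_mul, pow_two, h2, one_pow, one_mul] at hn1
  exact hn1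

theorem split_odd {Γ : Type} [Group Γ] [Finite Γ] {n : ℕ} (hn : Odd n) (χ : Γ →* (ZMod n)ˣ)
    (hs : Function.Surjective χ) (hexp : ∀ a ∈ χ.ker, a ^ n = 1)
    (hrel : ∀ γ, ∀ a ∈ χ.ker, γ * a * γ⁻¹ = a ^ ((χ γ : (ZMod n)ˣ) : ZMod n).val) :
    ∃ θ : (ZMod n)ˣ →* Γ, ∀ a, χ (θ a) = a := by
  have hn0 : n ≠ 0 := by
    rintro rfl
    exact absurd hn (by decide)
  have : NeZero n := ⟨hn0⟩
  by_cases h1 : n = 1
  · subst h1
    exact ⟨1, fun a => Subsingleton.elim _ _⟩
  obtain ⟨τ, hτ⟩ := hs (-1)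
  have hval : (((-1 : (ZMod n)ˣ) : ZMod n)).val = n - 1 := by
    rw [Units.val_neg, Units.val_one]
    obtain ⟨k, rfl⟩ : ∃ k, n = k + 1 := ⟨n - 1, by omega⟩
    rw [ZMod.val_neg_one]
    rfl
  -- `τ` acts by inversion on the kernel
  have hinv : ∀ a ∈ χ.ker, τ * a * τ⁻¹ = a⁻¹ := by
    intro a ha
    rw [hrel τ a ha, hτ, hval, eq_inv_iff_mul_eq_one, ← pow_succ, Nat.sub_add_cancel (by omega)]
    exact hexp a ha
  have hττ : τ * τ ∈ χ.ker := by
    rw [MonoidHom.mem_ker, map_mul, hτ]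
    simp
  have hτ2 : τ * τ = 1 := by
    apply ka_odd hn
    · have h3 := hinv _ hττ
      have h4 : τ * (τ * τ) * τ⁻¹ = τ * τ := by group
      rw [h4] at h3
      nth_rewrite 1 [h3]
      exact inv_mul_cancel _
    · exact hexp _ hττ
  have hτi : τ⁻¹ = τ := by
    rw [inv_eq_iff_mul_eq_one]
    exact hτ2
  set Z : Subgroup Γ := Subgroup.centralizer {τ} with hZ
  have hmem : ∀ z : Γ, z ∈ Z ↔ τ * z = z * τ := by
    intro z
    rw [hZ, Subgroup.mem_centralizer_singleton_iff]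
    exact ⟨fun h => h.symm, fun h => h.symm⟩
  have hinj : Function.Injective (χ.comp Z.subtype) := by
    rw [injective_iff_map_eq_one]
    intro z hz
    have hzk : (z : Γ) ∈ χ.ker := hz
    have hzc := (hmem z.1).1 z.2
    have h5 := hinv _ hzk
    rw [hzc, mul_assoc, mul_inv_cancel, mul_one] at h5
    apply Subtype.ext
    apply ka_odd hn
    · nth_rewrite 1 [h5]
      exact inv_mul_cancel _
    · exact hexp _ hzk
  have hsurj : Function.Surjective (χ.comp Z.subtype) := by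
    intro u
    obtain ⟨γ, hγ⟩ := hs u
    obtain ⟨k, hk⟩ := hn
    set a : Γ := τ⁻¹ * (γ * τ * γ⁻¹) with ha
    have hak : a ∈ χ.ker := by
      rw [MonoidHom.mem_ker, ha, map_mul, map_mul, map_mul, map_inv, map_inv, hτ]
      simp
    set b : Γ := a ^ k with hb
    have hbk : b ∈ χ.ker := Subgroup.pow_mem _ hak k
    have h6 : b * τ * b⁻¹ = γ * τ * γ⁻¹ := by
      have h7 := hinv _ hbk
      have h8 : b * τ = τ * b⁻¹ := by
        rw [← h7]
        have : τ * (τ * b * τ⁻¹) = (τ * τ) * b * τ⁻¹ := by group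
        rw [this, hτ2, one_mul, hτi]
      have h9 : b⁻¹ * b⁻¹ = a := by
        have h10 : a * (b * b) = 1 := by
          rw [hb, ← pow_add, ← pow_succ', ← two_mul, ← hk]
          exact hexp a hak
        have h11 : b⁻¹ * b⁻¹ = (b * b)⁻¹ := by group
        rw [h11]
        exact (eq_inv_of_mul_eq_one_left h10).symm
      rw [h8, mul_assoc, h9, ha]
      group
    refine ⟨⟨b⁻¹ * γ, ?_⟩, ?_⟩
    · rw [hmem]
      have h12 : τ = b⁻¹ * (γ * τ * γ⁻¹) * b := by
        rw [← h6]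
        group
      calc τ * (b⁻¹ * γ) = (b⁻¹ * (γ * τ * γ⁻¹) * b) * (b⁻¹ * γ) := by rw [← h12]
        _ = b⁻¹ * γ * τ := by group
    · show χ (b⁻¹ * γ) = u
      rw [map_mul, map_inv, MonoidHom.mem_ker.1 hbk, inv_one, one_mul, hγ]
  let E := MulEquiv.ofBijective (χ.comp Z.subtype) ⟨hinj, hsurj⟩
  refine ⟨Z.subtype.comp E.symm.toMonoidHom, fun a => ?_⟩
  exact E.apply_symm_apply a

example : type_of% @split_odd := @split_odd

end Pool.Agent.SY
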