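import Pool.Agent.Lib_helper29.SY.DefsS
import Pool.Agent.Lib_helper29.SY.Defs
import Pool.Agent.Lib_helper29.SY.DT
import Pool.Agent.Lib_helper49.RT.Amp
import Pool.Agent.Lib_helper29.SY.P_KA

set_option autoImplicit false
set_option linter.unusedSectionVars false

namespace Pool.Agent.SY

open Pool.Agent.RSK Pool.Agent.RS2 Pool.Agent.RS3 Pool.Agent.RT
open NumberField IsDedekindDomain Filter Topology Complex
open scoped TensorProduct

section FAM

variable {F H : Type} [Field F] [NumberField F] [Field H] [NumberField H] [Algebra F H]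
  [IsGalois F H] {G : Type} [CommGroup G] [Fintype G] (ι : G ≃* (H ≃ₐ[F] H))

theorem fk_split {F₀ : Type} [Field F₀] [NumberField F₀] [Algebra F₀ F] [Algebra F₀ H]
    [IsScalarTower F₀ F H] {n : ℕ} [NeZero n] {ζ : F} {B : Set H} (hK : Kum F₀ n ζ B)
    (ho : Odd n) : ∃ θ : (ZMod n)ˣ →* (H ≃ₐ[F₀] H), ∀ a, kchi hK (θ a) = a := by
  have hn : 0 < n := Nat.pos_of_ne_zero (NeZero.ne n)
  have : IsGalois F₀ H := kum_galois hK hn
  refine split_odd ho (kchi hK) (kchi_surj hK) (fun a ha => ?_) (fun γ a ha => ?_)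
  · obtain ⟨σ, rfl⟩ := kchi_ker hK a (MonoidHom.mem_ker.1 ha)
    have h : rsg F₀ F H (σ ^ n) = 1 := by rw [kum_exp hK hn, map_one]
    rw [map_pow] at h
    exact h
  · obtain ⟨σ, rfl⟩ := kchi_ker hK a (MonoidHom.mem_ker.1 ha)
    have h : rsg F₀ F H (σ ^ ((kchi hK γ : (ZMod n)ˣ) : ZMod n).val) =
        (σ.restrictScalars F₀) ^ ((kchi hK γ : (ZMod n)ˣ) : ZMod n).val := by
      rw [map_pow]
      rfl
    rw [← h, mul_inv_eq_iff_eq_mul]
    exact AlgEquiv.ext fun x => kum_rel hK γ σ x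

/-- FK. Kummer extensions: `kum_disj`, `kum_rel`, `kchi_ker`, `kchi_surj`, `kchi_one`, `kum_exp`,
`kum_galois` (RS3/P_KUM) and `split_odd`. -/
theorem kum_holT (h : KumN F H) : HolT F H := by
  obtain ⟨F₀, i1, i2, i3, i4, i5, n, ζ, B, hn, hK, he⟩ := h
  have : NeZero n := ⟨hn.ne'⟩
  have hG : IsGalois F₀ H := kum_galois hK hn
  obtain ⟨θ, hθ⟩ : ∃ θ : (ZMod n)ˣ →* (H ≃ₐ[F₀] H), ∀ a, kchi hK (θ a) = a := by
    rcases Nat.even_or_odd n with h | h
    · exact kum_disj hK (he h)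
    · exact fk_split hK h
  refine ⟨F₀, i1, i2, i3, i4, i5, hG, n, θ, hn, fun s => kum_exp hK hn s, fun a s x => ?_,
    fun γ => ?_, fun a s h => ?_⟩
  · have h := kum_rel hK (θ a) s x
    rw [hθ] at h
    exact h
  · have h1 : kchi hK (γ * (θ (kchi hK γ))⁻¹) = 1 := by
      rw [map_mul, map_inv, hθ, mul_inv_cancel]
    obtain ⟨s, hs⟩ := kchi_ker hK _ h1
    refine ⟨s, kchi hK γ, fun x => ?_⟩
    have h2 : s (θ (kchi hK γ) x) = (γ * (θ (kchi hK γ))⁻¹) (θ (kchi hK γ) x) := by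
      rw [← hs]
      rfl
    rw [h2, ← AlgEquiv.mul_apply, inv_mul_cancel_right]
  · have h1 : s.restrictScalars F₀ = θ a := AlgEquiv.ext fun y => (h y).symm
    rw [← hθ a, ← h1, kchi_one hK s]

end FAM

end Pool.Agent.SY
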