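import Pool.Agent.Lib_helper29.SY.DefsS
import Pool.Agent.Lib_helper29.SY.Defs
import Pool.Agent.Lib_helper29.SY.DT
import Pool.Agent.Lib_helper49.RT.Amp
import Pool.Agent.Lib_helper17.RS.P_TR2
import Pool.Agent.Lib_helper35.RS3.P_FT3
import Pool.Agent.Lib_helper29.SY.P_CK
import Pool.Agent.Lib_helper29.SY.P_LY

/-!
# Project SY, block FN: the element for a subgroup with cyclic quotient
-/

set_option autoImplicit false
set_option linter.unusedSectionVars false

namespace Pool.Agent.SY

open Pool.Agent.RSK Pool.Agent.RS2 Pool.Agent.RS3 Pool.Agent.RT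
open NumberField IsDedekindDomain Filter Topology Complex
open scoped TensorProduct

section TOP2

variable {F H : Type} [Field F] [NumberField F] [Field H] [NumberField H] [Algebra F H]
  [IsGalois F H] {G : Type} [CommGroup G] [Fintype G] {ι : G ≃* (H ≃ₐ[F] H)}
  {S T : Finset (HeightOneSpectrum (𝓞 F))} {r : ℕ} {w : Fin r → Pl H}
  {fr : HeightOneSpectrum (𝓞 F) → G}

/-- the character of the quotient given by a character with kernel `N` is injective -/
theorem fn_inj (N : Subgroup G) (χ : G →* ℂˣ) (h : χ.ker = N) :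
    Function.Injective (ft3L N χ h.ge) := by
  rw [injective_iff_map_eq_one]
  intro g hg
  obtain ⟨g, rfl⟩ := QuotientGroup.mk_surjective g
  have h2 : χ g = 1 := hg
  rw [← MonoidHom.mem_ker, h] at h2
  exact (QuotientGroup.eq_one_iff g).2 h2

theorem ft5_N (N : Subgroup G) (hcyc : IsCyclic (G ⧸ N)) (hN : N ≠ ⊤) (hD : Data ι S T r w fr)
    (hp : PermLay F (Kf ι N)) :
    ∃ (c : (G →* ℂˣ) → ℂ) (b : Fin r → UM ι S T) (x : MonoidAlgebra ℚ G),
      Ft5Q ι S T w fr N c b x := by
  classical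
  haveI := kf_galois ι N
  obtain ⟨ι', hq⟩ := kf_quo ι N
  haveI : Fintype (G ⧸ N) := Fintype.ofFinite _
  haveI := hcyc
  have hnt : Nontrivial (G ⧸ N) := by
    by_contra h
    rw [not_nontrivial_iff_subsingleton] at h
    apply hN
    rw [eq_top_iff]
    intro g _
    rw [← QuotientGroup.eq_one_iff]
    exact Subsingleton.elim _ _
  have hl : ∀ (S' T' : Finset (HeightOneSpectrum (𝓞 F))) (r' : ℕ) (w' : Fin r' → Pl (Kf ι N))
      (fr' : HeightOneSpectrum (𝓞 F) → G ⧸ N), Data ι' S' T' r' w' fr' →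
      RCore ι' S' T' w' fr' := by
    intro S' T' r' w' fr' hD'
    exact lay_core hnt hp hD'
  rcases case_KI hnt hq hl hD with hK | hK
  · obtain ⟨c, hc, hc0, b, x, hco⟩ := hl _ _ _ _ _ hK
    obtain ⟨b₁, x₁, h1, h2, h3, h4⟩ := transport hq hD.split b x
    have hker : (Nat.card (QuotientGroup.mk' N).ker : ℂ) ≠ 0 := by
      exact_mod_cast Nat.card_pos.ne'
    refine ⟨fun χ => if h : N ≤ χ.ker then c (ft3L N χ h) else 0, b₁, x₁, ?_, ?_, ?_, ?_⟩
    · intro χ hχ
      obtain ⟨Λ, g1, g2, g3⟩ := hc (ft3L N χ hχ.ge) (fn_inj N χ hχ)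
      refine ⟨Λ, g1, g2, ?_⟩
      rw [dif_pos hχ.ge]
      exact g3
    · intro χ hχ
      by_cases hf : ∃ χ' : G ⧸ N →* ℂˣ, χ = χ'.comp (QuotientGroup.mk' N)
      · obtain ⟨χ', rfl⟩ := hf
        have hn : ¬ Function.Injective χ' := fun h => hχ (ft3_ker_comp N χ' (fun g hg h5 =>
          hg (h (h5.trans (map_one χ').symm))))
        have := h1 χ'
        rw [hco.off χ' hn] at this
        rcases mul_eq_zero.1 this with h | h
        · exact h
        · exfalso
          exact pow_ne_zero _ hker h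
      · exact h2 χ hf
    · intro χ hχ
      have h := h3 (ft3L N χ hχ.ge)
      rw [ft3L_comp, hco.value _ (fn_inj N χ hχ)] at h
      rw [h, dif_pos (by rw [ft3_ker_inv]; exact hχ.ge)]
      congr 1
      apply MonoidHom.ext
      intro g
      obtain ⟨g, rfl⟩ := QuotientGroup.mk_surjective g
      rfl
    · intro χ hχ h0
      rw [dif_pos hχ.ge] at h0
      exact absurd h0 (hc0 _ (fn_inj N χ hχ))
  · refine ⟨fun _ => 0, fun _ => 0, 0, ?_, ?_, ?_, ?_⟩
    · intro χ hχ
      exact hK (ft3L N χ hχ.ge) (fn_inj N χ hχ)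
    · intro χ _
      exact map_zero _
    · intro χ _
      rw [map_zero, zero_mul]
    · intro χ _ _
      exact map_zero _

end TOP2

example : type_of% @ft5_N := @ft5_N

end Pool.Agent.SY
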