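import Pool.Agent.Lib_helper29.SY.DefsS
import Pool.Agent.Lib_helper29.SY.Defs
import Pool.Agent.Lib_helper29.SY.DT
import Pool.Agent.Lib_helper49.RT.Amp
import Pool.Agent.Lib_helper35.RS3.P_HOL
import Pool.Agent.Lib_helper35.RS3.P_CFI
import Pool.Agent.Lib_helper35.RS2.P_GP
import Pool.Agent.Lib_helper17.RS.P_IF
import Pool.Agent.Lib_helper29.SY.P_IK

/-!
# SY, block FP: layers of prime power degree with the condition `Hol3`
-/

set_option autoImplicit false
set_option linter.unusedSectionVars false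

namespace Pool.Agent.SY

open Pool.Agent.RSK Pool.Agent.RS2 Pool.Agent.RS3 Pool.Agent.RT
open NumberField IsDedekindDomain Filter Topology Complex
open scoped TensorProduct

section FAM

theorem fp_cycp {G' : Type} [CommGroup G'] [Fintype G'] {p j : ℕ} (hp : p.Prime) (hj : 0 < j)
    (hc : IsCyclic G') (hcard : Nat.card G' = p ^ j) : ∃ P' : Subgroup G', CycP p j P' := by
  have := Fact.mk hp
  obtain ⟨g, hg⟩ := exists_prime_orderOf_dvd_card' (G := G') p (by
    rw [hcard]
    exact dvd_pow_self p hj.ne')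
  exact ⟨Subgroup.zpowers g, hp, hj, hc, hcard, by rw [Nat.card_zpowers, hg]⟩

theorem fp_char {G' : Type} [CommGroup G'] [Fintype G'] {p j : ℕ} {P' : Subgroup G'}
    (hC : CycP p j P') : ∃ χ : G' →* ℂˣ, Fth P' χ ∧ Function.Injective χ := by
  have hne : P' ≠ ⊥ := by
    intro h
    have h1 := hC.cardP
    rw [h, Subgroup.card_bot] at h1
    exact hC.prime.one_lt.ne h1
  obtain ⟨⟨a, ha⟩, ha0⟩ := Subgroup.ne_bot_iff_exists_ne_one.1 hne
  have ha1 : a ≠ 1 := fun h1 => ha0 (Subtype.ext h1)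
  obtain ⟨χ, hχ⟩ := CommGroup.exists_apply_ne_one_of_hasEnoughRootsOfUnity G' ℂ ha1
  have hF : Fth P' χ := ⟨a, ha, hχ⟩
  refine ⟨χ, hF, (injective_iff_map_eq_one χ).2 fun g hg => ?_⟩
  by_contra h
  exact fth_ne hC hF h hg

/-- the cyclic case -/
theorem fp_main {F K : Type} [Field F] [NumberField F] [Field K] [NumberField K] [Algebra F K]
    [IsGalois F K] {G' : Type} [CommGroup G'] [Fintype G'] (ι' : G' ≃* (K ≃ₐ[F] K)) {p j : ℕ}
    {P' : Subgroup G'} (hC : CycP p j P') (h : Hol3 p (p ^ j) F K) : PermLay F K := by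
  classical
  obtain ⟨g₀, hg₀⟩ := hC.cyc.exists_generator
  obtain ⟨F₀, i1, i2, i3, i4, i5, i6, i7, m, θ, ρ, ρ', hA⟩ := hol3_aff (ι := ι') hC hg₀ h
  obtain ⟨χ, hχ, hinj⟩ := fp_char hC
  have hp := hC.prime
  have hN : NeZero (p ^ m) := ⟨pow_ne_zero _ hp.ne_zero⟩
  have hN' : NeZero (p ^ (m - 1)) := ⟨pow_ne_zero _ hp.ne_zero⟩
  refine ⟨F₀, K, i1, i2, inferInstance, inferInstance, i3, i4, inferInstance, Algebra.id K, i5,
    inferInstance, i6, ZMod (p ^ m), ZMod (p ^ (m - 1)), inferInstance, inferInstance, ρ, ρ',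
    χ.comp ι'.symm.toMonoidHom, ?_, ?_⟩
  · intro a b hab
    exact ι'.symm.injective (hinj hab)
  · intro γ
    have hb : Function.Injective (rst F₀ ι') := by
      intro a b hab
      apply ι'.injective
      ext x
      exact DFunLike.congr_fun hab x
    have e1 : indK (χ.comp ι'.symm.toMonoidHom) γ =
        indG (rst F₀ ι') ((χ.comp ι'.symm.toMonoidHom).comp ι'.toMonoidHom) γ := by
      refine indK_eq (rst F₀ ι') ι'.toMonoidHom hb ?_ ?_ ?_ _ γ
      · intro γ' hγ'
        refine ⟨ι'.symm (AlgEquiv.ofRingEquiv (f := γ'.toRingEquiv) hγ'), ?_⟩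
        ext x
        show (ι' (ι'.symm _)) x = γ' x
        rw [MulEquiv.apply_symm_apply]
        rfl
      · intro b x
        exact (ι' b).commutes x
      · intro b x
        rfl
    have e2 : (χ.comp ι'.symm.toMonoidHom).comp ι'.toMonoidHom = χ := by
      ext x
      simp
    rw [e1, e2]
    have e3 := cfi hA hC (rst F₀ ι') hb rfl hχ γ
    have hG : (Nat.card G' : ℂ) ≠ 0 := by exact_mod_cast Nat.card_pos.ne'
    have e4 : indG (rst F₀ ι') χ γ = (Nat.card G' : ℂ)⁻¹ *
        ∑ δ : (K ≃ₐ[F₀] K), ∑ h : G', if δ⁻¹ * γ * δ = rst F₀ ι' h then (χ h : ℂ) else 0 := by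
      rw [indG, finsum_eq_sum_of_fintype]
      congr 1
      refine Finset.sum_congr rfl fun δ _ => ?_
      rw [finsum_eq_sum_of_fintype, ← Finset.sum_filter]
      exact (Finset.sum_subtype _ (fun b => by simp [eq_comm])
        (fun b => ((χ b : ℂˣ) : ℂ))).symm
    rw [e4, eq_inv_mul_iff_mul_eq₀ hG]
    have e5 := eq_sub_of_add_eq' e3.symm
    convert e5.symm using 1
    ring

variable {F H : Type} [Field F] [NumberField F] [Field H] [NumberField H] [Algebra F H]
  [IsGalois F H] {G : Type} [CommGroup G] [Fintype G] (ι : G ≃* (H ≃ₐ[F] H))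

/-- FP. Layers of prime power degree. -/
theorem hol3_lay (N : Subgroup G) (hN : IsCyclic (G ⧸ N)) (hN' : N ≠ ⊤) {p : ℕ} (hp : p.Prime)
    {j : ℕ} (hj : N.index = p ^ j) (h : Hol3 p N.index F (Kf ι N)) : PermLay F (Kf ι N) := by
  classical
  have := kf_galois ι N
  obtain ⟨ι', -⟩ := kf_quo ι N
  have : Fintype (G ⧸ N) := Fintype.ofFinite _
  have hj0 : 0 < j := by
    rcases Nat.eq_zero_or_pos j with h0 | h0
    · exfalso
      rw [h0, pow_zero] at hj
      exact hN' (Subgroup.index_eq_one.1 hj)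
    · exact h0
  obtain ⟨P', hC⟩ := fp_cycp hp hj0 hN (hj : Nat.card (G ⧸ N) = p ^ j)
  exact fp_main ι' hC (hj ▸ h)

end FAM

end Pool.Agent.SY
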