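import Pool.Agent.Lib_helper29.SY.DefsS

/-!
# Project SY, block SA: type of a permutation (helper88)
-/

set_option autoImplicit false
set_option linter.unusedSectionVars false

namespace Pool.Agent.SY

open Equiv.Perm
open scoped BigOperators

/-- words with the same content differ by a permutation -/
theorem sa_perm {n : ℕ} (x y : Fin n → Fin n) (h : cnt x = cnt y) :
    ∃ τ : Equiv.Perm (Fin n), ∀ s, x (τ s) = y s := by
  classical
  have e : ∀ a : Fin n, Nonempty ({s : Fin n // y s = a} ≃ {s : Fin n // x s = a}) := by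
    intro a
    have h1 : Nat.card {s : Fin n // y s = a} = Nat.card {s : Fin n // x s = a} :=
      (congrFun h a).symm
    exact ⟨(Finite.equivFinOfCardEq h1).trans (Finite.equivFin _).symm⟩
  refine ⟨((Equiv.sigmaFiberEquiv y).symm.trans
    (Equiv.sigmaCongrRight fun a => (e a).some)).trans (Equiv.sigmaFiberEquiv x), fun s => ?_⟩
  exact ((e (y s)).some ⟨s, rfl⟩).2

theorem sa_sum {n : ℕ} (x : Fin n → Fin n) : ∑ a, cnt x a = n := by
  classical
  have h : Nat.card (Σ a : Fin n, {s : Fin n // x s = a}) = n := by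
    rw [Nat.card_congr (Equiv.sigmaFiberEquiv x), Nat.card_eq_fintype_card, Fintype.card_fin]
  rw [Nat.card_sigma] at h
  exact h

theorem sa_word {n : ℕ} (γ₀ : Equiv.Perm (Fin n)) : ∃ (x₀ : Fin n → Fin n) (c : Prt n),
    cnt x₀ = c.f ∧ ∀ s t, x₀ s = x₀ t ↔ SameCycle γ₀ s t := by
  classical
  let y₀ : Fin n → Fin n := fun s => (Quotient.mk (SameCycle.setoid γ₀) s).out
  have hy : ∀ s t, y₀ s = y₀ t ↔ SameCycle γ₀ s t := by
    intro s t
    constructor
    · intro h
      have h1 := Quotient.out_injective h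
      exact Quotient.exact h1
    · intro h
      have h1 : Quotient.mk (SameCycle.setoid γ₀) s = Quotient.mk (SameCycle.setoid γ₀) t :=
        Quotient.sound h
      show (Quotient.mk (SameCycle.setoid γ₀) s).out = (Quotient.mk (SameCycle.setoid γ₀) t).out
      rw [h1]
  let f : Fin n → ℕᵒᵈ := fun a => OrderDual.toDual (cnt y₀ a)
  let σ : Equiv.Perm (Fin n) := Tuple.sort f
  have hσ : Monotone (f ∘ σ) := Tuple.monotone_sort f
  let x₀ : Fin n → Fin n := fun s => σ.symm (y₀ s)
  have hx : ∀ a, cnt x₀ a = cnt y₀ (σ a) := by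
    intro a
    unfold cnt
    refine Nat.card_congr (Equiv.subtypeEquivRight fun s => ?_)
    show σ.symm (y₀ s) = a ↔ y₀ s = σ a
    exact Equiv.symm_apply_eq σ
  have hanti : Antitone (cnt x₀) := by
    intro a b hab
    rw [hx a, hx b]
    have h1 := hσ hab
    exact h1
  have hle : ∀ a, cnt x₀ a < n + 1 := by
    intro a
    have h1 : cnt x₀ a ≤ ∑ a, cnt x₀ a :=
      Finset.single_le_sum (fun _ _ => Nat.zero_le _) (Finset.mem_univ a)
    rw [sa_sum] at h1
    omega
  refine ⟨x₀, ⟨fun a => ⟨cnt x₀ a, hle a⟩, ?_, ?_⟩, ?_, ?_⟩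
  · intro a b hab
    exact hanti hab
  · exact sa_sum x₀
  · rfl
  · intro s t
    rw [← hy s t]
    exact σ.symm.injective.eq_iff

/-- the supports of the cycles -/
theorem sa_cycleType {n : ℕ} (γ : Equiv.Perm (Fin n)) :
    γ.cycleType = (γ.cycleFactorsFinset.image support).val.map Finset.card := by
  classical
  rw [cycleType_def, Finset.image_val_of_injOn, Multiset.map_map]
  intro c hc d hd h
  have hc' : c ∈ γ.cycleFactorsFinset := hc
  have hd' : d ∈ γ.cycleFactorsFinset := hd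
  have hcy := (mem_cycleFactorsFinset_iff.1 hc').1
  obtain ⟨x, hx, _⟩ := hcy
  have hx1 : x ∈ c.support := mem_support.2 hx
  have hx2 : x ∈ d.support := by
    have h' : c.support = d.support := h
    rw [← h']; exact hx1
  rw [cycle_is_cycleOf hx1 hc', cycle_is_cycleOf hx2 hd']

theorem sa_image {n : ℕ} (γ : Equiv.Perm (Fin n)) (S : Finset (Fin n)) :
    S ∈ γ.cycleFactorsFinset.image support ↔
      ∃ x, (∃ y, y ≠ x ∧ SameCycle γ x y) ∧ ∀ y, y ∈ S ↔ SameCycle γ x y := by
  classical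
  rw [Finset.mem_image]
  constructor
  · rintro ⟨c, hc, rfl⟩
    obtain ⟨x, hx, _⟩ := (mem_cycleFactorsFinset_iff.1 hc).1
    have hx1 : x ∈ c.support := mem_support.2 hx
    have hcx : c = cycleOf γ x := cycle_is_cycleOf hx1 hc
    have hγx : x ∈ γ.support := (mem_cycleFactorsFinset_support_le hc) hx1
    refine ⟨x, ⟨γ x, mem_support.1 hγx, (SameCycle.refl γ x).apply_right⟩, fun y => ?_⟩
    rw [hcx, mem_support_cycleOf_iff]
    exact ⟨fun h => h.1, fun h => ⟨h, hγx⟩⟩
  · rintro ⟨x, ⟨y, hy, hxy⟩, hS⟩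
    have hγx : x ∈ γ.support := by
      rw [mem_support]
      intro hfix
      exact hy ((hxy.symm.eq_of_right hfix))
    refine ⟨cycleOf γ x, cycleOf_mem_cycleFactorsFinset_iff.2 hγx, ?_⟩
    ext z
    rw [mem_support_cycleOf_iff, hS z]
    exact ⟨fun h => h.1, fun h => ⟨h, hγx⟩⟩

theorem sa_conj {n : ℕ} (γ δ : Equiv.Perm (Fin n))
    (h : ∀ s t, SameCycle γ s t ↔ SameCycle δ s t) : IsConj γ δ := by
  classical
  rw [isConj_iff_cycleType_eq, sa_cycleType γ, sa_cycleType δ]
  congr 2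
  ext S
  rw [sa_image, sa_image]
  simp only [h]

theorem sa_type {n : ℕ} (γ₀ : Equiv.Perm (Fin n)) : ∃ c : Prt n, fix1 c.f γ₀ ≠ 0 ∧
    ∀ γ : Equiv.Perm (Fin n), fix1 c.f γ ≠ 0 → cyc γ₀ ≤ cyc γ ∧ (cyc γ = cyc γ₀ → IsConj γ₀ γ) := by
  classical
  obtain ⟨x₀, c, hc, hx₀⟩ := sa_word γ₀
  refine ⟨c, ?_, ?_⟩
  · unfold fix1
    have : Nonempty {x : Fin n → Fin n // cnt x = c.f ∧ ∀ s, x (γ₀ s) = x s} :=
      ⟨⟨x₀, hc, fun s => (hx₀ _ _).2 ((SameCycle.refl γ₀ s).apply_left)⟩⟩
    exact Nat.card_pos.ne'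
  · intro γ hγ
    have hne : Nonempty {x : Fin n → Fin n // cnt x = c.f ∧ ∀ s, x (γ s) = x s} := by
      by_contra hcon
      rw [not_nonempty_iff] at hcon
      exact hγ (by unfold fix1; exact Nat.card_of_isEmpty)
    obtain ⟨⟨x, hx1, hx2⟩⟩ := hne
    obtain ⟨τ, hτ⟩ := sa_perm x x₀ (hx1.trans hc.symm)
    set γ' : Equiv.Perm (Fin n) := τ⁻¹ * γ * τ with hγ'
    have hfix : ∀ s, x₀ (γ' s) = x₀ s := by
      intro s
      rw [← hτ (γ' s), ← hτ s, hγ']
      have h1 : τ ((τ⁻¹ * γ * τ) s) = γ (τ s) := by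
        simp [Equiv.Perm.mul_apply]
      rw [h1]
      exact hx2 _
    have hsame : ∀ s t, SameCycle γ' s t ↔ SameCycle γ (τ s) (τ t) := by
      intro s t
      have h1 : γ' = τ⁻¹ * γ * (τ⁻¹)⁻¹ := by rw [inv_inv]
      rw [h1, sameCycle_conj, inv_inv]
    -- orbits of `γ'` are contained in the fibres of `x₀`
    have hpow : ∀ (k : ℕ) (s : Fin n), x₀ ((γ' ^ k) s) = x₀ s := by
      intro k
      induction k with
      | zero => intro s; simp
      | succ k ih =>
        intro s
        rw [pow_succ', Equiv.Perm.mul_apply, hfix, ih]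
    have hsub : ∀ s t, SameCycle γ' s t → SameCycle γ₀ s t := by
      intro s t hst
      obtain ⟨k, _, _, hk⟩ := hst.exists_pow_eq'' 
      rw [← hx₀, ← hk, hpow]
    -- the map of the quotients
    let φ : Quotient (SameCycle.setoid γ') → Quotient (SameCycle.setoid γ₀) :=
      Quotient.map id hsub
    have hφ : Function.Surjective φ := by
      intro q
      obtain ⟨s, rfl⟩ := Quotient.exists_rep q
      exact ⟨Quotient.mk _ s, rfl⟩
    have hcyc : cyc γ' = cyc γ := by
      unfold cyc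
      exact Nat.card_congr (Quotient.congr τ hsame)
    have hle : cyc γ₀ ≤ cyc γ' := by
      unfold cyc
      exact Nat.card_le_card_of_surjective φ hφ
    refine ⟨by rw [← hcyc]; exact hle, fun heq => ?_⟩
    have hcard : Nat.card (Quotient (SameCycle.setoid γ')) =
        Nat.card (Quotient (SameCycle.setoid γ₀)) := by
      have h1 : cyc γ' = cyc γ₀ := hcyc.trans heq
      exact h1
    have hbij : Function.Bijective φ :=
      (Nat.bijective_iff_surjective_and_card φ).2 ⟨hφ, hcard⟩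
    have hiff : ∀ s t, SameCycle γ₀ s t ↔ SameCycle γ' s t := by
      intro s t
      refine ⟨fun h => ?_, hsub s t⟩
      have h1 : φ (Quotient.mk _ s) = φ (Quotient.mk _ t) := Quotient.sound h
      exact Quotient.exact (hbij.1 h1)
    refine (sa_conj γ₀ γ' hiff).trans ?_
    rw [isConj_iff]
    exact ⟨τ, by rw [hγ']; group⟩

end Pool.Agent.SY
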