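import Pool.Agent.Lib_helper29.SY.DefsS
import Pool.Agent.Lib_helper29.SY.P_SA

/-!
# Project SY, block SB: nondegeneracy
-/

set_option autoImplicit false
set_option linter.unusedSectionVars false

namespace Pool.Agent.SY

open Equiv.Perm
open scoped BigOperators

/-- SB. A class function on a product of symmetric groups which is orthogonal to the permutation
characters on words is zero. -/
theorem sb_nondeg {k : ℕ} (n : Fin k → ℕ) (g : ((i : Fin k) → Equiv.Perm (Fin (n i))) → ℂ)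
    (hg : ∀ δ γ, g (δ * γ * δ⁻¹) = g γ)
    (h : ∀ c : (i : Fin k) → Prt (n i), ∑ γ, g γ * ∏ i, (fix1 (c i).f (γ i) : ℂ) = 0) :
    ∀ γ, g γ = 0 := by
  classical
  by_contra hcon
  push Not at hcon
  obtain ⟨γ₁, hγ₁⟩ := hcon
  obtain ⟨γ₀, hγ₀, hmax⟩ := Finset.exists_max_image
    (Finset.univ.filter fun γ : (i : Fin k) → Equiv.Perm (Fin (n i)) => g γ ≠ 0)
    (fun γ => ∑ i, cyc (γ i)) ⟨γ₁, Finset.mem_filter.2 ⟨Finset.mem_univ _, hγ₁⟩⟩
  have hg0 : g γ₀ ≠ 0 := (Finset.mem_filter.1 hγ₀).2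
  choose c hc0 hc using fun i => sa_type (γ₀ i)
  have hterm : ∀ γ, g γ * ∏ i, (fix1 (c i).f (γ i) : ℂ) =
      g γ₀ * (((if g γ = 0 then 0 else ∏ i, fix1 (c i).f (γ i) : ℕ)) : ℂ) := by
    intro γ
    by_cases h1 : g γ = 0
    · rw [if_pos h1, h1]
      simp
    rw [if_neg h1]
    by_cases h2 : ∀ i, fix1 (c i).f (γ i) ≠ 0
    · have hle : ∀ i ∈ Finset.univ, cyc (γ₀ i) ≤ cyc (γ i) := fun i _ => (hc i (γ i) (h2 i)).1
      have hs : ∑ i, cyc (γ i) ≤ ∑ i, cyc (γ₀ i) :=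
        hmax γ (Finset.mem_filter.2 ⟨Finset.mem_univ _, h1⟩)
      have heq : ∑ i, cyc (γ₀ i) = ∑ i, cyc (γ i) := le_antisymm (Finset.sum_le_sum hle) hs
      have heq' := (Finset.sum_eq_sum_iff_of_le hle).1 heq
      have hconj : ∀ i, ∃ d : Equiv.Perm (Fin (n i)), d * γ₀ i * d⁻¹ = γ i := fun i =>
        isConj_iff.1 ((hc i (γ i) (h2 i)).2 (heq' i (Finset.mem_univ i)).symm)
      choose d hd using hconj
      have hgg : g γ = g γ₀ := by
        have h3 : d * γ₀ * d⁻¹ = γ := funext fun i => hd i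
        rw [← h3, hg]
      rw [hgg]
      push_cast
      rfl
    · push Not at h2
      obtain ⟨i, hi⟩ := h2
      have h3 : ∏ i, fix1 (c i).f (γ i) = 0 := Finset.prod_eq_zero (Finset.mem_univ i) hi
      have h4 : ∏ i, (fix1 (c i).f (γ i) : ℂ) = 0 :=
        Finset.prod_eq_zero (Finset.mem_univ i) (by rw [hi]; simp)
      rw [h3, h4]
      simp
  have hsum := h c
  rw [Finset.sum_congr rfl fun γ _ => hterm γ, ← Finset.mul_sum] at hsum
  rcases mul_eq_zero.1 hsum with h5 | h5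
  · exact hg0 h5
  · rw [← Nat.cast_sum, Nat.cast_eq_zero, Finset.sum_eq_zero_iff] at h5
    have h6 := h5 γ₀ (Finset.mem_univ _)
    rw [if_neg hg0, Finset.prod_eq_zero_iff] at h6
    obtain ⟨i, _, hi⟩ := h6
    exact hc0 i hi

end Pool.Agent.SY
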