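import Pool.Agent.Lib_helper29.SY.DefsS

/-!
# Project SY, block SC: the pairing with the sign counts the injective pairs
-/

set_option autoImplicit false
set_option linter.unusedSectionVars false

namespace Pool.Agent.SY

open Equiv.Perm
open scoped BigOperators

/-- the signed number of the permutations which fix a word `z` -/
theorem sc_inner {n : ℕ} {Z : Type} (z : Fin n → Z) :
    (∑ γ : Equiv.Perm (Fin n), open Classical in
      (if ∀ s, z (γ s) = z s then ((Equiv.Perm.sign γ : ℤ) : ℂ) else 0)) =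
      open Classical in if Function.Injective z then 1 else 0 := by
  classical
  split_ifs with hz
  · rw [Finset.sum_eq_single (1 : Equiv.Perm (Fin n))]
    · simp
    · intro γ _ hγ
      rw [if_neg]
      intro h
      exact hγ (Equiv.ext fun s => hz (h s))
    · intro h
      exact absurd (Finset.mem_univ _) h
  · rw [Function.Injective] at hz
    push Not at hz
    obtain ⟨s, t, hst, hne⟩ := hz
    set w : Equiv.Perm (Fin n) := Equiv.swap s t with hw
    have hzw : ∀ u, z (w u) = z u := by
      intro u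
      rw [hw]
      rcases eq_or_ne u s with rfl | h1
      · rw [Equiv.swap_apply_left, hst]
      · rcases eq_or_ne u t with rfl | h2
        · rw [Equiv.swap_apply_right, hst]
        · rw [Equiv.swap_apply_of_ne_of_ne h1 h2]
    have hsum : (∑ γ : Equiv.Perm (Fin n),
        (if ∀ s, z (γ s) = z s then ((Equiv.Perm.sign γ : ℤ) : ℂ) else 0)) =
        -(∑ γ : Equiv.Perm (Fin n),
        (if ∀ s, z (γ s) = z s then ((Equiv.Perm.sign γ : ℤ) : ℂ) else 0)) := by
      conv_lhs => rw [← Equiv.sum_comp (Equiv.mulLeft w)]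
      rw [← Finset.sum_neg_distrib]
      refine Finset.sum_congr rfl fun γ _ => ?_
      have h1 : (∀ s, z ((Equiv.mulLeft w) γ s) = z s) ↔ ∀ s, z (γ s) = z s := by
        simp only [Equiv.coe_mulLeft, Equiv.Perm.mul_apply, hzw]
      by_cases h2 : ∀ s, z (γ s) = z s
      · rw [if_pos (h1.2 h2), if_pos h2, Equiv.coe_mulLeft, Equiv.Perm.sign_mul, hw,
          Equiv.Perm.sign_swap hne]
        simp
      · rw [if_neg (fun h => h2 (h1.1 h)), if_neg h2, neg_zero]
    have h2 := hsum
    rw [eq_neg_iff_add_eq_zero, ← two_mul] at h2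
    exact (mul_eq_zero.1 h2).resolve_left two_ne_zero

/-- a natural cardinal of a subtype as a sum of indicators -/
theorem sc_card {X : Type} [Fintype X] (p : X → Prop) :
    (Nat.card {x // p x} : ℂ) = ∑ x : X, open Classical in (if p x then 1 else 0) := by
  classical
  rw [Nat.card_eq_fintype_card, Fintype.card_subtype, Finset.card_filter]
  push_cast
  rfl

/-- SC. The pairing with the sign counts the injective pairs. -/
theorem sc_pair {n : ℕ} (c c' : Fin n → ℕ) :
    ∑ γ : Equiv.Perm (Fin n), ((Equiv.Perm.sign γ : ℤ) : ℂ) * (fix1 c γ : ℂ) * (fix1 c' γ : ℂ) =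
      inj2 c c' := by
  classical
  have h1 : ∀ γ : Equiv.Perm (Fin n),
      ((Equiv.Perm.sign γ : ℤ) : ℂ) * (fix1 c γ : ℂ) * (fix1 c' γ : ℂ) =
      ∑ q : (Fin n → Fin n) × (Fin n → Fin n), (if cnt q.1 = c ∧ cnt q.2 = c' then 1 else 0) *
        (if ∀ s, ((fun s => (q.1 s, q.2 s)) (γ s) : Fin n × Fin n) = (fun s => (q.1 s, q.2 s)) s
          then ((Equiv.Perm.sign γ : ℤ) : ℂ) else 0) := by
    intro γ
    rw [fix1, fix1, sc_card, sc_card, mul_assoc, Finset.sum_mul_sum, Finset.mul_sum,
      Fintype.sum_prod_type]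
    refine Finset.sum_congr rfl fun x _ => ?_
    rw [Finset.mul_sum]
    refine Finset.sum_congr rfl fun y _ => ?_
    by_cases hx : cnt x = c <;> by_cases hy : cnt y = c' <;>
      by_cases hx2 : ∀ s, x (γ s) = x s <;> by_cases hy2 : ∀ s, y (γ s) = y s <;>
      simp [hx, hy, hx2, hy2, forall_and]
  rw [Finset.sum_congr rfl fun γ _ => h1 γ, Finset.sum_comm, inj2, sc_card]
  refine Finset.sum_congr rfl fun q _ => ?_
  have h4 : (∑ γ : Equiv.Perm (Fin n),
      (if ∀ s, ((fun s => (q.1 s, q.2 s)) (γ s) : Fin n × Fin n) = (fun s => (q.1 s, q.2 s)) s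
          then ((Equiv.Perm.sign γ : ℤ) : ℂ) else 0)) =
      if Function.Injective (fun s => (q.1 s, q.2 s)) then 1 else 0 := by
    convert sc_inner (fun s => (q.1 s, q.2 s))
  rw [← Finset.mul_sum, h4]
  by_cases h2 : cnt q.1 = c <;> by_cases h3 : cnt q.2 = c' <;>
    by_cases h5 : Function.Injective (fun s => (q.1 s, q.2 s)) <;> simp [h2, h3, h5]

end Pool.Agent.SY
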