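import Pool.Agent.Lib_helper29.SY.DefsS

set_option autoImplicit false
set_option linter.unusedSectionVars false

namespace Pool.Agent.SY

open Equiv.Perm
open scoped BigOperators

theorem sd1_cnt {n : ℕ} (x : Fin n → Fin n) (σ : Equiv.Perm (Fin n)) :
    cnt (fun s => x (σ s)) = cnt x := by
  funext a
  unfold cnt
  exact Nat.card_congr (σ.subtypeEquiv fun s => Iff.rfl)

theorem sd_dvd {n : ℕ} (c c' : Fin n → ℕ) : n.factorial ∣ inj2 c c' := by
  classical
  set Q : Type := {q : (Fin n → Fin n) × (Fin n → Fin n) // cnt q.1 = c ∧ cnt q.2 = c' ∧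
    Function.Injective fun s => (q.1 s, q.2 s)} with hQ
  let act : MulAction (Equiv.Perm (Fin n)) Q :=
    { smul := fun σ q => ⟨(fun s => q.1.1 (σ⁻¹ s), fun s => q.1.2 (σ⁻¹ s)),
        (sd1_cnt q.1.1 σ⁻¹).trans q.2.1, (sd1_cnt q.1.2 σ⁻¹).trans q.2.2.1,
        fun s t hst => (σ⁻¹).injective (q.2.2.2 hst)⟩
      one_smul := fun q => rfl
      mul_smul := fun σ τ q => by
        apply Subtype.ext
        show ((fun s => q.1.1 ((σ * τ)⁻¹ s)), fun s => q.1.2 ((σ * τ)⁻¹ s)) =
          ((fun s => q.1.1 (τ⁻¹ (σ⁻¹ s))), fun s => q.1.2 (τ⁻¹ (σ⁻¹ s)))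
        rw [mul_inv_rev]
        rfl }
  have hfree : ∀ (σ : Equiv.Perm (Fin n)) (q : Q), σ • q = q → σ = 1 := by
    intro σ q h
    have h1 : ((fun s => q.1.1 (σ⁻¹ s)), fun s => q.1.2 (σ⁻¹ s)) = q.1 := congrArg Subtype.val h
    have h2 : ∀ s, σ⁻¹ s = s := by
      intro s
      apply q.2.2.2
      have h3 := congrFun (congrArg Prod.fst h1) s
      have h4 := congrFun (congrArg Prod.snd h1) s
      exact Prod.ext h3 h4
    have h5 : σ⁻¹ = 1 := Equiv.ext h2
    exact inv_eq_one.1 h5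
  have hfin : Finite Q := inferInstance
  let _ : Fintype Q := Fintype.ofFinite Q
  let _ : ∀ σ : Equiv.Perm (Fin n), Fintype (MulAction.fixedBy Q σ) := fun σ => Fintype.ofFinite _
  let _ : Fintype (Quotient (MulAction.orbitRel (Equiv.Perm (Fin n)) Q)) := Fintype.ofFinite _
  have hB := MulAction.sum_card_fixedBy_eq_card_orbits_mul_card_group (Equiv.Perm (Fin n)) Q
  rw [Finset.sum_eq_single (1 : Equiv.Perm (Fin n))] at hB
  · have h1 : Fintype.card (MulAction.fixedBy Q (1 : Equiv.Perm (Fin n))) = inj2 c c' := by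
      unfold inj2
      rw [← Nat.card_eq_fintype_card]
      exact Nat.card_congr (Equiv.subtypeUnivEquiv fun q => one_smul _ q)
    rw [h1, Fintype.card_perm, Fintype.card_fin] at hB
    exact ⟨_, hB.trans (mul_comm _ _)⟩
  · intro σ _ hσ
    rw [Fintype.card_eq_zero_iff]
    exact ⟨fun q => hσ (hfree σ q.1 q.2)⟩
  · intro h
    exact absurd (Finset.mem_univ _) h

theorem sd1_card_lt {n : ℕ} (k : ℕ) (hk : k ≤ n) : Nat.card {b : Fin n // (b : ℕ) < k} = k := by
  rw [Nat.card_eq_fintype_card, Fintype.card_subtype, Fin.card_filter_val_lt]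
  omega

theorem sd1_seg {n : ℕ} (c : Fin n → ℕ) (hc : Antitone c) (a : Fin n) (b : ℕ) :
    (a : ℕ) < Nat.card {a' : Fin n // b < c a'} ↔ b < c a := by
  classical
  rw [Nat.card_eq_fintype_card, Fintype.card_subtype]
  constructor
  · intro h
    by_contra hb
    rw [not_lt] at hb
    have h1 : (Finset.univ.filter fun a' : Fin n => b < c a') ⊆ Finset.Iio a := by
      intro a' ha'
      rw [Finset.mem_filter] at ha'
      rw [Finset.mem_Iio]
      by_contra h2
      rw [not_lt] at h2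
      have := hc h2
      omega
    have h2 := Finset.card_le_card h1
    rw [Fin.card_Iio] at h2
    omega
  · intro h
    have h1 : Finset.Iic a ⊆ (Finset.univ.filter fun a' : Fin n => b < c a') := by
      intro a' ha'
      rw [Finset.mem_Iic] at ha'
      rw [Finset.mem_filter]
      exact ⟨Finset.mem_univ _, h.trans_le (hc ha')⟩
    have h2 := Finset.card_le_card h1
    rw [Fin.card_Iic] at h2
    omega

theorem sd1_le {n : ℕ} (c : Fin n → ℕ) (b : Fin n) : cj c b ≤ n := by
  unfold cj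
  have := Finite.card_subtype_le (α := Fin n) fun a => (b : ℕ) < c a
  simpa using this

theorem sd1_anti {n : ℕ} (c : Fin n → ℕ) : Antitone (cj c) := by
  intro b b' h
  unfold cj
  refine Nat.card_le_card_of_injective
    (fun a : {a : Fin n // (b' : ℕ) < c a} => (⟨a.1, lt_of_le_of_lt h a.2⟩ : {a : Fin n // (b : ℕ) < c a}))
    fun a a' haa => Subtype.ext (congrArg (fun z : {a : Fin n // (b : ℕ) < c a} => z.1) haa)

theorem sd1_sum {n : ℕ} (c : Fin n → ℕ) (hc : ∀ a, c a ≤ n) : ∑ b, cj c b = ∑ a, c a := by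
  classical
  have h1 : ∀ b, cj c b = ∑ a, if (b : ℕ) < c a then 1 else 0 := by
    intro b
    unfold cj
    rw [Nat.card_eq_fintype_card, Fintype.card_subtype, Finset.card_filter]
  have h2 : ∀ a, c a = ∑ b : Fin n, if (b : ℕ) < c a then 1 else 0 := by
    intro a
    rw [← Finset.card_filter, ← Fintype.card_subtype, ← Nat.card_eq_fintype_card,
      sd1_card_lt _ (hc a)]
  simp_rw [h1]
  rw [Finset.sum_comm]
  exact Finset.sum_congr rfl fun a _ => (h2 a).symm

theorem sd_cj {n : ℕ} (c : Prt n) : (∃ d : Prt n, d.f = cj c.f) ∧ cj (cj c.f) = c.f := by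
  have hc : Antitone c.f := fun a b h => c.2.1 h
  have hn : ∀ a, c.f a ≤ n := fun a => Nat.lt_succ_iff.1 (c.1 a).2
  refine ⟨⟨⟨fun b => ⟨cj c.f b, Nat.lt_succ_of_le (sd1_le _ _)⟩, ?_, ?_⟩, rfl⟩, ?_⟩
  · intro b b' h
    exact sd1_anti c.f h
  · show ∑ b, cj c.f b = n
    rw [sd1_sum _ hn]
    exact c.2.2
  · funext a
    have h1 : cj (cj c.f) a = Nat.card {b : Fin n // (b : ℕ) < c.f a} := by
      unfold cj
      refine Nat.card_congr (Equiv.subtypeEquivRight fun b => ?_)
      exact sd1_seg c.f hc a b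
    rw [h1, sd1_card_lt _ (hn a)]


end Pool.Agent.SY
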