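import Pool.Agent.Lib_helper29.SY.DefsS

/-!
# Project SY: block SD2 (easy half of the Gale-Ryser theorem)
-/

set_option autoImplicit false
set_option linter.unusedSectionVars false

namespace Pool.Agent.SY

open Equiv.Perm
open scoped BigOperators

/-- the partial sums -/
def sd2_P {n : ℕ} (c : Prt n) (k : ℕ) : ℕ := ∑ a : Fin n, if (a : ℕ) < k then c.f a else 0

theorem sd2_cnt {n : ℕ} (x : Fin n → Fin n) (a : Fin n) :
    cnt x a = (Finset.univ.filter fun s => x s = a).card := by
  unfold cnt
  rw [Nat.card_eq_fintype_card, Fintype.card_subtype]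

theorem sd2_cj {n : ℕ} (c : Fin n → ℕ) (b : Fin n) :
    cj c b = (Finset.univ.filter fun a : Fin n => (b : ℕ) < c a).card := by
  unfold cj
  rw [Nat.card_eq_fintype_card, Fintype.card_subtype]

/-- the number of cells in the first `k` rows -/
theorem sd2_rows {n : ℕ} (x : Fin n → Fin n) (k : ℕ) :
    ∑ a : Fin n, (if (a : ℕ) < k then cnt x a else 0) =
      (Finset.univ.filter fun s => (x s : ℕ) < k).card := by
  rw [Finset.card_eq_sum_card_fiberwise (f := x) (t := Finset.univ)
    (fun _ _ => Finset.mem_coe.mpr (Finset.mem_univ _))]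
  refine Finset.sum_congr rfl fun a _ => ?_
  rw [sd2_cnt, Finset.filter_filter]
  split_ifs with h
  · congr 1
    ext s
    simp only [Finset.mem_filter, Finset.mem_univ, true_and]
    constructor
    · rintro rfl; exact ⟨h, rfl⟩
    · exact fun h => h.2
  · symm
    rw [Finset.card_eq_zero, Finset.filter_eq_empty_iff]
    rintro s _ ⟨h1, rfl⟩
    exact h h1

theorem sd2_col {n : ℕ} (d : Prt n) (x y : Fin n → Fin n) (hy : cnt y = cj d.f)
    (hi : Function.Injective fun s => (x s, y s)) (k : ℕ) (b : Fin n) :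
    (Finset.univ.filter fun s => (x s : ℕ) < k ∧ y s = b).card ≤
      (Finset.univ.filter fun a : Fin n => (a : ℕ) < k ∧ (b : ℕ) < d.f a).card := by
  have h1 : (Finset.univ.filter fun s => (x s : ℕ) < k ∧ y s = b).card ≤
      (Finset.univ.filter fun a : Fin n => (a : ℕ) < k).card := by
    refine Finset.card_le_card_of_injOn x ?_ ?_
    · intro s hs
      simp only [Finset.coe_filter, Finset.mem_univ, true_and, Set.mem_ofPred_eq] at hs ⊢
      exact hs.1
    · intro s hs s' hs' h
      simp only [Finset.coe_filter, Finset.mem_univ, true_and, Set.mem_ofPred_eq] at hs hs'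
      exact hi (by simp only [h, hs.2, hs'.2])
  have h2 : (Finset.univ.filter fun s => (x s : ℕ) < k ∧ y s = b).card ≤
      (Finset.univ.filter fun a : Fin n => (b : ℕ) < d.f a).card := by
    rw [← sd2_cj, ← hy, sd2_cnt]
    refine Finset.card_le_card fun s hs => ?_
    simp only [Finset.mem_filter, Finset.mem_univ, true_and] at hs ⊢
    exact hs.2
  have hl1 : IsLowerSet {a : Fin n | (a : ℕ) < k} := by
    intro a a' h h'
    have h3 : (a' : ℕ) ≤ a := h
    exact lt_of_le_of_lt h3 h'
  have hl2 : IsLowerSet {a : Fin n | (b : ℕ) < d.f a} := by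
    intro a a' h h'
    have h3 : d.1 a ≤ d.1 a' := d.2.1 h
    have h4 : d.f a ≤ d.f a' := h3
    have h5 : (b : ℕ) < d.f a := h'
    exact lt_of_lt_of_le h5 h4
  rcases hl1.total hl2 with h | h
  · have e : (Finset.univ.filter fun a : Fin n => (a : ℕ) < k ∧ (b : ℕ) < d.f a) =
        Finset.univ.filter fun a : Fin n => (a : ℕ) < k := by
      ext a
      simp only [Finset.mem_filter, Finset.mem_univ, true_and]
      exact ⟨fun h' => h'.1, fun h' => ⟨h', h h'⟩⟩
    rw [e]; exact h1
  · have e : (Finset.univ.filter fun a : Fin n => (a : ℕ) < k ∧ (b : ℕ) < d.f a) =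
        Finset.univ.filter fun a : Fin n => (b : ℕ) < d.f a := by
      ext a
      simp only [Finset.mem_filter, Finset.mem_univ, true_and]
      exact ⟨fun h' => h'.2, fun h' => ⟨h h', h'⟩⟩
    rw [e]; exact h2

theorem sd2_le {n : ℕ} (c d : Prt n) (h : inj2 c.f (cj d.f) ≠ 0) (k : ℕ) :
    sd2_P c k ≤ sd2_P d k := by
  obtain ⟨⟨⟨x, y⟩, hx, hy, hi⟩⟩ : Nonempty {q : (Fin n → Fin n) × (Fin n → Fin n) //
      cnt q.1 = c.f ∧ cnt q.2 = cj d.f ∧ Function.Injective fun s => (q.1 s, q.2 s)} := by
    by_contra hne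
    rw [not_nonempty_iff] at hne
    exact h (by unfold inj2; exact Nat.card_of_isEmpty)
  simp only at hx hy hi
  unfold sd2_P
  rw [← hx, sd2_rows, Finset.card_eq_sum_card_fiberwise (f := y) (t := Finset.univ)
    (fun _ _ => Finset.mem_coe.mpr (Finset.mem_univ _))]
  have h1 : ∀ b : Fin n, ((Finset.univ.filter fun s => (x s : ℕ) < k).filter
      fun s => y s = b).card ≤
      ∑ a : Fin n, if (a : ℕ) < k ∧ (b : ℕ) < d.f a then 1 else 0 := by
    intro b
    rw [Finset.filter_filter, ← Finset.card_filter]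
    exact sd2_col d x y hy hi k b
  refine (Finset.sum_le_sum fun b _ => h1 b).trans ?_
  rw [Finset.sum_comm]
  refine Finset.sum_le_sum fun a _ => ?_
  split_ifs with ha
  · simp only [ha, true_and]
    rw [← Finset.card_filter]
    have h2 : (Finset.univ.filter fun b : Fin n => (b : ℕ) < d.f a).card ≤
        (Finset.range (d.f a)).card := by
      refine Finset.card_le_card_of_injOn (fun b : Fin n => (b : ℕ)) ?_ ?_
      · intro b hb
        simp only [Finset.coe_filter, Finset.mem_univ, true_and, Set.mem_ofPred_eq] at hb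
        simpa using hb
      · intro b _ b' _ h
        exact Fin.ext h
    rwa [Finset.card_range] at h2
  · simp only [ha, false_and, if_false]
    simp

theorem sd2_prk {n : ℕ} (c : Prt n) : prk c = ∑ k ∈ Finset.range n, sd2_P c (k + 1) := by
  unfold prk sd2_P
  rw [Finset.sum_comm]
  refine Finset.sum_congr rfl fun a _ => ?_
  rw [← Finset.sum_filter, Finset.sum_const, smul_eq_mul]
  congr 1
  have e : (Finset.range n).filter (fun k => (a : ℕ) < k + 1) = Finset.Ico (a : ℕ) n := by
    ext k
    simp only [Finset.mem_filter, Finset.mem_range, Finset.mem_Ico]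
    omega
  rw [e, Nat.card_Ico]

theorem sd2_succ {n : ℕ} (c : Prt n) (a : Fin n) :
    sd2_P c ((a : ℕ) + 1) = sd2_P c a + c.f a := by
  unfold sd2_P
  have h : ∀ b : Fin n, (if (b : ℕ) < (a : ℕ) + 1 then c.f b else 0) =
      (if (b : ℕ) < (a : ℕ) then c.f b else 0) + if b = a then c.f b else 0 := by
    intro b
    by_cases h1 : b = a
    · subst h1
      simp
    · have h2 : (b : ℕ) ≠ a := fun h => h1 (Fin.ext h)
      by_cases h3 : (b : ℕ) < a
      · rw [if_pos (by omega), if_pos h3, if_neg h1, add_zero]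
      · rw [if_neg (by omega), if_neg h3, if_neg h1]
  simp_rw [h]
  rw [Finset.sum_add_distrib]
  simp

theorem sd_tri {n : ℕ} (c d : Prt n) (h : inj2 c.f (cj d.f) ≠ 0) : c = d ∨ prk c < prk d := by
  by_cases hlt : prk c < prk d
  · exact Or.inr hlt
  · left
    have hle := sd2_le c d h
    have h1 : ∑ k ∈ Finset.range n, sd2_P c (k + 1) = ∑ k ∈ Finset.range n, sd2_P d (k + 1) := by
      refine le_antisymm (Finset.sum_le_sum fun k _ => hle _) ?_
      rw [← sd2_prk, ← sd2_prk]
      exact not_lt.mp hlt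
    have h2 : ∀ k ∈ Finset.range n, sd2_P c (k + 1) = sd2_P d (k + 1) :=
      (Finset.sum_eq_sum_iff_of_le fun k _ => hle (k + 1)).mp h1
    have h0 : ∀ k, k ≤ n → sd2_P c k = sd2_P d k := by
      intro k hk
      rcases k with _ | k
      · unfold sd2_P; simp
      · exact h2 k (Finset.mem_range.mpr hk)
    have h3 : ∀ a : Fin n, c.f a = d.f a := by
      intro a
      have e1 := sd2_succ c a
      have e2 := sd2_succ d a
      have e3 := h0 ((a : ℕ) + 1) a.2
      have e4 := h0 (a : ℕ) a.2.le
      omega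
    apply Subtype.ext
    funext a
    exact Fin.ext (h3 a)

end Pool.Agent.SY
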