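import Pool.Agent.Lib_helper29.SY.DefsS

set_option autoImplicit false
set_option linter.unusedSectionVars false

namespace Pool.Agent.SY

open Equiv.Perm
open scoped BigOperators

theorem sd3_card_lt {n m : ℕ} (h : m ≤ n) : Nat.card {b : Fin n // (b : ℕ) < m} = m := by
  have e : {b : Fin n // (b : ℕ) < m} ≃ Fin m :=
    { toFun := fun b => ⟨b.1, b.2⟩
      invFun := fun b => ⟨⟨b, b.2.trans_le h⟩, b.2⟩
      left_inv := fun b => rfl
      right_inv := fun b => rfl }
  rw [Nat.card_congr e, Nat.card_eq_fintype_card, Fintype.card_fin]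

/-- the Young diagram -/
abbrev sd3_Y {n : ℕ} (c : Prt n) : Type := {p : Fin n × Fin n // (p.2 : ℕ) < c.f p.1}

theorem sd3_f_le {n : ℕ} (c : Prt n) (a : Fin n) : c.f a ≤ n := Nat.lt_succ_iff.1 (c.1 a).2

theorem sd3_f_anti {n : ℕ} (c : Prt n) {a b : Fin n} (h : a ≤ b) : c.f b ≤ c.f a := c.2.1 h

theorem sd3_cardY {n : ℕ} (c : Prt n) : Nat.card (sd3_Y c) = n := by
  have e : sd3_Y c ≃ Σ a : Fin n, {b : Fin n // (b : ℕ) < c.f a} :=
    { toFun := fun p => ⟨p.1.1, ⟨p.1.2, p.2⟩⟩
      invFun := fun p => ⟨(p.1, p.2.1), p.2.2⟩
      left_inv := fun p => rfl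
      right_inv := fun p => rfl }
  rw [Nat.card_congr e, Nat.card_sigma]
  have h : ∀ a : Fin n, Nat.card {b : Fin n // (b : ℕ) < c.f a} = c.f a := fun a =>
    sd3_card_lt (sd3_f_le c a)
  rw [Finset.sum_congr rfl fun a _ => h a]
  exact c.2.2

/-- the cells of an injective pair are in the diagram -/
theorem sd3_key {n : ℕ} (c : Prt n) (x y : Fin n → Fin n) (hx : cnt x = c.f)
    (hy : cnt y = cj c.f) (hi : Function.Injective fun s => (x s, y s)) (s₀ : Fin n) :
    ((y s₀ : Fin n) : ℕ) < c.f (x s₀) := by
  classical
  set N : Fin n → ℕ → ℕ := fun b k => (Finset.univ.filter fun s => y s = b ∧ (x s : ℕ) < k).card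
    with hN
  set m : Fin n → ℕ → ℕ := fun b k =>
    (Finset.univ.filter fun a : Fin n => (a : ℕ) < k ∧ (b : ℕ) < c.f a).card with hm
  have hcnty : ∀ b, (Finset.univ.filter fun s => y s = b).card = cj c.f b := by
    intro b
    have h := congrFun hy b
    rw [← h]
    unfold cnt
    rw [Nat.card_eq_fintype_card, Fintype.card_subtype]
  have hcntx : ∀ a, (Finset.univ.filter fun s => x s = a).card = c.f a := by
    intro b
    have h := congrFun hx b
    rw [← h]
    unfold cnt
    rw [Nat.card_eq_fintype_card, Fintype.card_subtype]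
  have hcj : ∀ b, cj c.f b = (Finset.univ.filter fun a : Fin n => (b : ℕ) < c.f a).card := by
    intro b
    unfold cj
    rw [Nat.card_eq_fintype_card, Fintype.card_subtype]
  have hle : ∀ b k, N b k ≤ m b k := by
    intro b k
    by_cases hk : ∀ a : Fin n, (a : ℕ) < k → (b : ℕ) < c.f a
    · refine Finset.card_le_card_of_injOn x ?_ ?_
      · intro s hs
        simp only [Finset.coe_filter, Finset.mem_univ, true_and, Set.mem_setOf_eq] at hs ⊢
        exact ⟨hs.2, hk _ hs.2⟩
      · intro s hs s' hs' h
        simp only [Finset.coe_filter, Finset.mem_univ, true_and, Set.mem_setOf_eq] at hs hs'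
        exact hi (Prod.ext h (hs.1.trans hs'.1.symm))
    · push Not at hk
      obtain ⟨a, ha, hb⟩ := hk
      have h1 : m b k = cj c.f b := by
        rw [hcj]
        show (Finset.univ.filter fun a : Fin n => (a : ℕ) < k ∧ (b : ℕ) < c.f a).card = _
        congr 1
        ext a'
        simp only [Finset.mem_filter, Finset.mem_univ, true_and]
        refine ⟨fun h => h.2, fun h => ⟨?_, h⟩⟩
        by_contra hc
        have h2 : a ≤ a' := by
          rw [Fin.le_def]
          omega
        have := sd3_f_anti c h2
        omega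
      rw [h1, ← hcnty]
      refine Finset.card_le_card ?_
      intro s hs
      simp only [Finset.mem_filter, Finset.mem_univ, true_and] at hs ⊢
      exact hs.1
  have hsN : ∀ k, ∑ b, N b k = (Finset.univ.filter fun s => (x s : ℕ) < k).card := by
    intro k
    rw [Finset.card_eq_sum_card_fiberwise (f := y) (t := Finset.univ) (fun s _ => Finset.mem_coe.2 (Finset.mem_univ _))]
    refine Finset.sum_congr rfl fun b _ => ?_
    show (Finset.univ.filter fun s => y s = b ∧ (x s : ℕ) < k).card = _
    congr 1
    ext s
    simp only [Finset.mem_filter, Finset.mem_univ, true_and]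
    tauto
  have hsx : ∀ k, (Finset.univ.filter fun s => (x s : ℕ) < k).card =
      ∑ a ∈ Finset.univ.filter (fun a : Fin n => (a : ℕ) < k), c.f a := by
    intro k
    rw [Finset.card_eq_sum_card_fiberwise (f := x)
      (t := Finset.univ.filter fun a : Fin n => (a : ℕ) < k) (fun s hs => by
        simp only [Finset.coe_filter, Finset.mem_univ, true_and, Set.mem_setOf_eq] at hs ⊢
        exact hs)]
    refine Finset.sum_congr rfl fun a ha => ?_
    rw [← hcntx a]
    congr 1
    ext s
    simp only [Finset.mem_filter, Finset.mem_univ, true_and] at ha ⊢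
    constructor
    · exact fun h => h.2
    · intro h
      exact ⟨by rw [h]; exact ha, h⟩
  have hsm : ∀ k, ∑ b, m b k =
      ∑ a ∈ Finset.univ.filter (fun a : Fin n => (a : ℕ) < k), c.f a := by
    intro k
    have h1 : ∀ b, m b k = ∑ a ∈ Finset.univ.filter (fun a : Fin n => (a : ℕ) < k),
        if (b : ℕ) < c.f a then 1 else 0 := by
      intro b
      rw [← Finset.sum_filter, Finset.sum_const, smul_eq_mul, mul_one, Finset.filter_filter]
    rw [Finset.sum_congr rfl fun b _ => h1 b, Finset.sum_comm]
    refine Finset.sum_congr rfl fun a _ => ?_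
    rw [← Finset.sum_filter, Finset.sum_const, smul_eq_mul, mul_one]
    have h2 := sd3_card_lt (sd3_f_le c a)
    rw [Nat.card_eq_fintype_card, Fintype.card_subtype] at h2
    exact h2
  have heq : ∀ b k, N b k = m b k := by
    intro b k
    have h1 : ∑ b, N b k = ∑ b, m b k := by rw [hsN, hsx, hsm]
    exact (Finset.sum_eq_sum_iff_of_le fun b _ => hle b k).1 h1 b (Finset.mem_univ b)
  by_contra hc
  have h1 := heq (y s₀) (x s₀ : ℕ)
  have h2 : m (y s₀) (x s₀ : ℕ) = cj c.f (y s₀) := by
    rw [hcj]
    show (Finset.univ.filter fun a : Fin n => (a : ℕ) < (x s₀ : ℕ) ∧ ((y s₀ : Fin n) : ℕ) < c.f a).card = _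
    congr 1
    ext a
    simp only [Finset.mem_filter, Finset.mem_univ, true_and]
    refine ⟨fun h => h.2, fun h => ⟨?_, h⟩⟩
    by_contra hc'
    have h3 : x s₀ ≤ a := by
      rw [Fin.le_def]
      omega
    have := sd3_f_anti c h3
    omega
  have h3 : N (y s₀) (x s₀ : ℕ) < (Finset.univ.filter fun s => y s = y s₀).card := by
    refine Finset.card_lt_card ?_
    rw [Finset.ssubset_iff_of_subset]
    · refine ⟨s₀, ?_, ?_⟩
      · simp
      · simp
    · intro s hs
      simp only [Finset.mem_filter, Finset.mem_univ, true_and] at hs ⊢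
      exact hs.1
  rw [h1, h2, hcnty] at h3
  exact lt_irrefl _ h3

theorem sd_diag {n : ℕ} (c : Prt n) : inj2 c.f (cj c.f) = n.factorial := by
  classical
  have hY : Fintype.card (sd3_Y c) = n := by
    rw [← Nat.card_eq_fintype_card]
    exact sd3_cardY c
  have e : {q : (Fin n → Fin n) × (Fin n → Fin n) // cnt q.1 = c.f ∧ cnt q.2 = cj c.f ∧
      Function.Injective fun s => (q.1 s, q.2 s)} ≃ (Fin n ↪ sd3_Y c) :=
    { toFun := fun q => ⟨fun s => ⟨(q.1.1 s, q.1.2 s),
          sd3_key c q.1.1 q.1.2 q.2.1 q.2.2.1 q.2.2.2 s⟩, fun s s' h => by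
            refine q.2.2.2 ?_
            exact congrArg Subtype.val h⟩
      invFun := fun e => ⟨(fun s => (e s).1.1, fun s => (e s).1.2), by
          have hb : Function.Bijective e := by
            rw [Fintype.bijective_iff_injective_and_card]
            exact ⟨e.injective, by rw [hY, Fintype.card_fin]⟩
          have E : ∀ P : sd3_Y c → Prop, Nat.card {s // P (e s)} = Nat.card {p // P p} := by
            intro P
            exact Nat.card_congr ((Equiv.ofBijective e hb).subtypeEquiv fun s => Iff.rfl)
          refine ⟨?_, ?_, ?_⟩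
          · funext a
            show Nat.card {s : Fin n // (e s).1.1 = a} = c.f a
            rw [E fun p => p.1.1 = a, ← sd3_card_lt (sd3_f_le c a)]
            refine Nat.card_congr ?_
            exact
              { toFun := fun p => ⟨p.1.1.2, by
                  have h := p.1.2
                  rwa [p.2] at h⟩
                invFun := fun b => ⟨⟨(a, b.1), b.2⟩, rfl⟩
                left_inv := fun p => by
                  obtain ⟨⟨⟨p1, p2⟩, hp⟩, h⟩ := p
                  dsimp at h
                  subst h
                  rfl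
                right_inv := fun b => rfl }
          · funext b
            show Nat.card {s : Fin n // (e s).1.2 = b} = cj c.f b
            rw [E fun p => p.1.2 = b]
            unfold cj
            refine Nat.card_congr ?_
            exact
              { toFun := fun p => ⟨p.1.1.1, by
                  have h := p.1.2
                  rwa [p.2] at h⟩
                invFun := fun a => ⟨⟨(a.1, b), a.2⟩, rfl⟩
                left_inv := fun p => by
                  obtain ⟨⟨⟨p1, p2⟩, hp⟩, h⟩ := p
                  dsimp at h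
                  subst h
                  rfl
                right_inv := fun b => rfl }
          · intro s s' h
            exact e.injective (Subtype.ext h)⟩
      left_inv := fun q => rfl
      right_inv := fun e => rfl }
  unfold inj2
  rw [Nat.card_congr e, Nat.card_eq_fintype_card, Fintype.card_embedding_eq, hY, Fintype.card_fin,
    Nat.descFactorial_self]

end Pool.Agent.SY
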