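import Pool.Agent.Lib_helper29.SY.DefsS

/-!
# Project SY, block SE (a unitriangular integral system)
-/

set_option autoImplicit false
set_option linter.unusedSectionVars false

namespace Pool.Agent.SY

open Equiv.Perm
open scoped BigOperators

theorem se_step {I : Type} [Fintype I] (ρ : I → ℕ) (N : I → I → ℤ) (hd : ∀ i, N i i = 1)
    (ht : ∀ i j, N i j ≠ 0 → i = j ∨ ρ i < ρ j) (m : I → ℤ) (k : ℕ) :
    ∃ a : I → ℤ, ∀ j, ρ j < k → ∑ i, a i * N i j = m j := by
  classical
  induction k with
  | zero => exact ⟨fun _ => 0, fun j hj => absurd hj (Nat.not_lt_zero _)⟩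
  | succ k ih =>
    obtain ⟨a, ha⟩ := ih
    refine ⟨fun i => if ρ i = k then m i - ∑ l ∈ Finset.univ.erase i, a l * N l i else a i, ?_⟩
    intro j hj
    by_cases hjk : ρ j = k
    · rw [← Finset.add_sum_erase _ _ (Finset.mem_univ j)]
      simp only [if_pos hjk, hd, mul_one]
      have h1 : ∑ i ∈ Finset.univ.erase j,
          (if ρ i = k then m i - ∑ l ∈ Finset.univ.erase i, a l * N l i else a i) * N i j =
          ∑ l ∈ Finset.univ.erase j, a l * N l j := by
        refine Finset.sum_congr rfl fun i hi => ?_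
        by_cases hN : N i j = 0
        · rw [hN, mul_zero, mul_zero]
        · rcases ht i j hN with h | h
          · exact absurd h (Finset.ne_of_mem_erase hi)
          · have h2 : ¬ ρ i = k := by omega
            rw [if_neg h2]
      rw [h1]
      ring
    · rw [← ha j (by omega)]
      refine Finset.sum_congr rfl fun i _ => ?_
      by_cases hN : N i j = 0
      · rw [hN, mul_zero, mul_zero]
      · have h2 : ¬ ρ i = k := by
          rcases ht i j hN with h | h
          · rw [h]
            exact hjk
          · omega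
        simp only [if_neg h2]

theorem se_solve {I : Type} [Fintype I] (ρ : I → ℕ) (N : I → I → ℤ) (hd : ∀ i, N i i = 1)
    (ht : ∀ i j, N i j ≠ 0 → i = j ∨ ρ i < ρ j) (m : I → ℤ) :
    ∃ a : I → ℤ, ∀ j, ∑ i, a i * N i j = m j := by
  obtain ⟨a, ha⟩ := se_step ρ N hd ht m (Finset.univ.sup ρ + 1)
  exact ⟨a, fun j => ha j (Nat.lt_succ_of_le (Finset.le_sup (Finset.mem_univ j)))⟩

end Pool.Agent.SY
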