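import Pool.Agent.Lib_helper29.SY.DefsS
import Pool.Agent.Lib_helper29.SY.P_SB
import Pool.Agent.Lib_helper29.SY.P_SC
import Pool.Agent.Lib_helper29.SY.P_SD1
import Pool.Agent.Lib_helper29.SY.P_SD2
import Pool.Agent.Lib_helper29.SY.P_SD3
import Pool.Agent.Lib_helper29.SY.P_SE

/-!
# Project SY, block SF: integral class functions on products of symmetric groups
-/

set_option autoImplicit false
set_option linter.unusedSectionVars false

namespace Pool.Agent.SY

open Equiv.Perm
open scoped BigOperators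

theorem sf_f_inj {n : ℕ} {c d : Prt n} (h : c.f = d.f) : c = d := by
  apply Subtype.ext
  funext a
  apply Fin.ext
  exact congrFun h a

/-- the conjugate partition, as a partition -/
noncomputable def sf_cjP {n : ℕ} (c : Prt n) : Prt n := (sd_cj c).1.choose

theorem sf_cjP_f {n : ℕ} (c : Prt n) : (sf_cjP c).f = cj c.f := (sd_cj c).1.choose_spec

theorem sf_cjP_cjP {n : ℕ} (c : Prt n) : sf_cjP (sf_cjP c) = c := by
  apply sf_f_inj
  rw [sf_cjP_f, sf_cjP_f, (sd_cj c).2]

/-- `fix1 c` is a class function -/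
theorem sf_fix_conj {n : ℕ} (c : Fin n → ℕ) (δ γ : Equiv.Perm (Fin n)) :
    fix1 c (δ * γ * δ⁻¹) = fix1 c γ := by
  unfold fix1
  have hcnt : ∀ (x : Fin n → Fin n) (τ : Equiv.Perm (Fin n)), cnt (fun s => x (τ s)) = cnt x := by
    intro x τ
    funext a
    unfold cnt
    exact Nat.card_congr
      { toFun := fun s => ⟨τ s.1, s.2⟩
        invFun := fun s => ⟨τ.symm s.1, by
          show x (τ (τ.symm s.1)) = a
          rw [Equiv.apply_symm_apply]; exact s.2⟩
        left_inv := fun s => Subtype.ext (τ.symm_apply_apply _)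
        right_inv := fun s => Subtype.ext (τ.apply_symm_apply _) }
  refine Nat.card_congr
    { toFun := fun x => ⟨fun s => x.1 (δ s), by rw [hcnt]; exact x.2.1, fun s => ?_⟩
      invFun := fun x => ⟨fun s => x.1 (δ⁻¹ s), by rw [hcnt]; exact x.2.1, fun s => ?_⟩
      left_inv := fun x => Subtype.ext (by funext s; simp)
      right_inv := fun x => Subtype.ext (by funext s; simp) }
  · have h := x.2.2 (δ s)
    have e : (δ * γ * δ⁻¹) (δ s) = δ (γ s) := by simp
    rw [e] at h
    exact h
  · have e : δ⁻¹ ((δ * γ * δ⁻¹) s) = γ (δ⁻¹ s) := by simp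
    show x.1 (δ⁻¹ ((δ * γ * δ⁻¹) s)) = x.1 (δ⁻¹ s)
    rw [e]
    exact x.2.2 (δ⁻¹ s)

theorem sf_span {k : ℕ} (n : Fin k → ℕ) (f : ((i : Fin k) → Equiv.Perm (Fin (n i))) → ℂ)
    (hf : ∀ δ γ, f (δ * γ * δ⁻¹) = f γ)
    (hint : ∀ c : (i : Fin k) → Prt (n i), ∃ m : ℤ, ∑ γ, f γ *
      (∏ i, ((Equiv.Perm.sign (γ i) : ℤ) : ℂ)) * ∏ i, (fix1 (c i).f (γ i) : ℂ) =
        m * (Fintype.card ((i : Fin k) → Equiv.Perm (Fin (n i))) : ℂ)) :
    ∃ a : ((i : Fin k) → Prt (n i)) → ℤ, ∀ γ, f γ =
      ∑ c, (a c : ℂ) * ∏ i, (fix1 (c i).f (γ i) : ℂ) := by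
  classical
  choose m hm using hint
  have hcard : (Fintype.card ((i : Fin k) → Equiv.Perm (Fin (n i))) : ℂ) =
      ∏ i, ((n i).factorial : ℂ) := by
    rw [Fintype.card_pi]
    push_cast
    refine Finset.prod_congr rfl fun i _ => ?_
    rw [Fintype.card_perm, Fintype.card_fin]
  -- the matrix of the system
  set N : ((i : Fin k) → Prt (n i)) → ((i : Fin k) → Prt (n i)) → ℤ := fun c d =>
    ∏ i, ((inj2 (c i).f (cj (d i).f) / (n i).factorial : ℕ) : ℤ) with hN
  have hdiv : ∀ i (c d : Prt (n i)), ((inj2 c.f (cj d.f) : ℕ) : ℂ) =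
      (((inj2 c.f (cj d.f) / (n i).factorial : ℕ) : ℤ) : ℂ) * ((n i).factorial : ℂ) := by
    intro i c d
    have h := Nat.div_mul_cancel (sd_dvd c.f (cj d.f))
    conv_lhs => rw [← h]
    push_cast
    rfl
  obtain ⟨a, ha⟩ := se_solve (fun c : (i : Fin k) → Prt (n i) => ∑ i, prk (c i)) N
    (by
      intro c
      rw [hN]
      simp only
      apply Finset.prod_eq_one
      intro i _
      rw [sd_diag, Nat.div_self (Nat.factorial_pos _)]
      rfl)
    (by
      intro c d hcd
      rw [hN] at hcd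
      simp only at hcd
      have h1 : ∀ i, c i = d i ∨ prk (c i) < prk (d i) := by
        intro i
        apply sd_tri
        intro h0
        apply hcd
        apply Finset.prod_eq_zero (Finset.mem_univ i)
        rw [h0, Nat.zero_div]
        rfl
      by_cases h2 : c = d
      · exact Or.inl h2
      · right
        obtain ⟨i0, hi0⟩ : ∃ i, c i ≠ d i := by
          by_contra h3
          push Not at h3
          exact h2 (funext h3)
        apply Finset.sum_lt_sum
        · intro i _
          rcases h1 i with h | h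
          · rw [h]
          · exact h.le
        · exact ⟨i0, Finset.mem_univ _, (h1 i0).resolve_left hi0⟩)
    (fun d => m fun i => sf_cjP (d i))
  refine ⟨a, ?_⟩
  set sg : ((i : Fin k) → Equiv.Perm (Fin (n i))) → ℂ := fun γ =>
    ∏ i, ((Equiv.Perm.sign (γ i) : ℤ) : ℂ) with hsg
  have hsg0 : ∀ γ, sg γ ≠ 0 := by
    intro γ
    rw [hsg]
    apply Finset.prod_ne_zero_iff.2
    intro i _
    exact_mod_cast (Units.ne_zero (Equiv.Perm.sign (γ i)))
  set g : ((i : Fin k) → Equiv.Perm (Fin (n i))) → ℂ := fun γ =>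
    (f γ - ∑ c, (a c : ℂ) * ∏ i, (fix1 (c i).f (γ i) : ℂ)) * sg γ with hg
  have hzero : ∀ γ, g γ = 0 := by
    apply sb_nondeg n g
    · intro δ γ
      rw [hg]
      simp only
      rw [hf]
      have h1 : ∀ i, (δ * γ * δ⁻¹) i = δ i * γ i * (δ i)⁻¹ := fun i => rfl
      have h2 : sg (δ * γ * δ⁻¹) = sg γ := by
        rw [hsg]
        simp only
        refine Finset.prod_congr rfl fun i _ => ?_
        rw [h1, Equiv.Perm.sign_mul, Equiv.Perm.sign_mul, Equiv.Perm.sign_inv, mul_comm
          (Equiv.Perm.sign (δ i)), mul_assoc, Int.units_mul_self, mul_one]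
      rw [h2]
      congr 2
      refine Finset.sum_congr rfl fun c _ => ?_
      congr 1
      refine Finset.prod_congr rfl fun i _ => ?_
      rw [h1, sf_fix_conj]
    · intro c'
      -- the pairing
      have hpair : ∀ c : (i : Fin k) → Prt (n i),
          ∑ γ : (i : Fin k) → Equiv.Perm (Fin (n i)),
            (∏ i, (fix1 (c i).f (γ i) : ℂ)) * sg γ * ∏ i, (fix1 (c' i).f (γ i) : ℂ) =
            ∏ i, (inj2 (c i).f (c' i).f : ℂ) := by
        intro c
        have e1 : ∀ i, (inj2 (c i).f (c' i).f : ℂ) = ∑ σ : Equiv.Perm (Fin (n i)),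
            ((Equiv.Perm.sign σ : ℤ) : ℂ) * (fix1 (c i).f σ : ℂ) * (fix1 (c' i).f σ : ℂ) :=
          fun i => (sc_pair (c i).f (c' i).f).symm
        rw [Finset.prod_congr rfl fun i _ => e1 i, Finset.prod_univ_sum, Fintype.piFinset_univ]
        refine Finset.sum_congr rfl fun γ _ => ?_
        rw [hsg]
        simp only
        rw [← Finset.prod_mul_distrib, ← Finset.prod_mul_distrib]
        exact Finset.prod_congr rfl fun i _ => by ring
      set d : (i : Fin k) → Prt (n i) := fun i => sf_cjP (c' i) with hd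
      have hdd : (fun i => sf_cjP (d i)) = c' := by
        funext i
        rw [hd]
        exact sf_cjP_cjP (c' i)
      have h3 : ∀ c : (i : Fin k) → Prt (n i), ∏ i, (inj2 (c i).f (c' i).f : ℂ) =
          (N c d : ℂ) * ∏ i, ((n i).factorial : ℂ) := by
        intro c
        rw [hN]
        simp only
        push_cast
        rw [← Finset.prod_mul_distrib]
        refine Finset.prod_congr rfl fun i _ => ?_
        have h4 : (c' i).f = cj (d i).f := by
          rw [hd]
          simp only
          rw [sf_cjP_f, (sd_cj (c' i)).2]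
        rw [h4, hdiv i (c i) (d i)]
        push_cast
        rfl
      have h5 := ha d
      rw [hdd] at h5
      have h6 : (∑ c, (a c : ℂ) * (N c d : ℂ)) = (m c' : ℂ) := by
        rw [← h5]
        push_cast
        rfl
      have h7 := hm c'
      rw [hcard] at h7
      rw [hg]
      calc ∑ γ, (f γ - ∑ c, (a c : ℂ) * ∏ i, (fix1 (c i).f (γ i) : ℂ)) * sg γ *
            ∏ i, (fix1 (c' i).f (γ i) : ℂ)
          = ∑ γ, f γ * sg γ * ∏ i, (fix1 (c' i).f (γ i) : ℂ) -
            ∑ γ, ∑ c, (a c : ℂ) * ((∏ i, (fix1 (c i).f (γ i) : ℂ)) * sg γ *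
              ∏ i, (fix1 (c' i).f (γ i) : ℂ)) := by
            rw [← Finset.sum_sub_distrib]
            refine Finset.sum_congr rfl fun γ _ => ?_
            rw [sub_mul, sub_mul, Finset.sum_mul, Finset.sum_mul]
            congr 1
            exact Finset.sum_congr rfl fun c _ => by ring
        _ = (m c' : ℂ) * ∏ i, ((n i).factorial : ℂ) -
            ∑ c, (a c : ℂ) * ((N c d : ℂ) * ∏ i, ((n i).factorial : ℂ)) := by
            rw [h7, Finset.sum_comm]
            congr 1
            refine Finset.sum_congr rfl fun c _ => ?_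
            rw [← Finset.mul_sum, hpair, h3]
        _ = 0 := by
            rw [← h6, Finset.sum_mul, ← Finset.sum_sub_distrib]
            apply Finset.sum_eq_zero
            intro c _
            ring
  intro γ
  have h := hzero γ
  rw [hg] at h
  simp only at h
  have h8 := (mul_eq_zero.1 h).resolve_right (hsg0 γ)
  exact sub_eq_zero.1 h8

end Pool.Agent.SY
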