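import Pool.Agent.Lib_helper29.SY.DefsS

/-! # SY, block SH: the action on words -/

set_option autoImplicit false
set_option linter.unusedSectionVars false

namespace Pool.Agent.SY

open Equiv.Perm
open scoped BigOperators

theorem sh_cnt {n : ℕ} (x : Fin n → Fin n) (σ : Equiv.Perm (Fin n)) :
    cnt (fun s => x (σ s)) = cnt x := by
  funext a
  exact Nat.card_congr (σ.subtypeEquiv fun s => Iff.rfl)

/-- the words of contents `c i` -/
abbrev ShZ {k : ℕ} (n : Fin k → ℕ) (c : (i : Fin k) → Fin (n i) → ℕ) : Type :=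
  (i : Fin k) → {x : Fin (n i) → Fin (n i) // cnt x = c i}

/-- the action on words -/
def shτ {k : ℕ} (n : Fin k → ℕ) (c : (i : Fin k) → Fin (n i) → ℕ) :
    ((i : Fin k) → Equiv.Perm (Fin (n i))) →* Equiv.Perm (ShZ n c) where
  toFun γ :=
    { toFun := fun z i => ⟨fun s => (z i).1 ((γ i)⁻¹ s), by rw [sh_cnt]; exact (z i).2⟩
      invFun := fun z i => ⟨fun s => (z i).1 (γ i s), by rw [sh_cnt]; exact (z i).2⟩
      left_inv := by
        intro z
        funext i
        apply Subtype.ext
        funext s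
        simp
      right_inv := by
        intro z
        funext i
        apply Subtype.ext
        funext s
        simp }
  map_one' := by
    ext z i s
    simp
  map_mul' γ δ := by
    ext z i s
    simp

theorem sh_fix {k : ℕ} (n : Fin k → ℕ) (c : (i : Fin k) → Fin (n i) → ℕ)
    (γ : (i : Fin k) → Equiv.Perm (Fin (n i))) (z : ShZ n c) :
    shτ n c γ z = z ↔ ∀ i, ∀ s, (z i).1 (γ i s) = (z i).1 s := by
  constructor
  · intro h i s
    have h1 := congrArg (fun w : ShZ n c => (w i).1 (γ i s)) h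
    have h2 : (z i).1 ((γ i)⁻¹ (γ i s)) = (z i).1 (γ i s) := h1
    rw [← h2]
    simp
  · intro h
    funext i
    apply Subtype.ext
    funext s
    show (z i).1 ((γ i)⁻¹ s) = (z i).1 s
    have h1 := h i ((γ i)⁻¹ s)
    rw [← h1]
    simp

theorem sh_word {k : ℕ} (n : Fin k → ℕ) (c : (i : Fin k) → Fin (n i) → ℕ) :
    ∃ (Z : Type) (_ : Finite Z) (τ : ((i : Fin k) → Equiv.Perm (Fin (n i))) →* Equiv.Perm Z),
      ∀ γ, (Nat.card {z // τ γ z = z} : ℂ) = ∏ i, (fix1 (c i) (γ i) : ℂ) := by
  refine ⟨ShZ n c, inferInstance, shτ n c, fun γ => ?_⟩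
  have h : Nat.card {z : ShZ n c // shτ n c γ z = z} = ∏ i, fix1 (c i) (γ i) := by
    unfold fix1
    rw [← Nat.card_pi]
    refine Nat.card_congr
      { toFun := fun z i => ⟨(z.1 i).1, (z.1 i).2, (sh_fix n c γ z.1).1 z.2 i⟩
        invFun := fun w => ⟨fun i => ⟨(w i).1, (w i).2.1⟩,
          (sh_fix n c γ _).2 fun i => (w i).2.2⟩
        left_inv := fun z => rfl
        right_inv := fun w => rfl }
  rw [h]
  push_cast
  rfl

end Pool.Agent.SY
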