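import Pool.Agent.Lib_helper29.SY.DefsS

set_option autoImplicit false
set_option linter.unusedSectionVars false

namespace Pool.Agent.SY

open Equiv.Perm
open scoped BigOperators

theorem si_card {Γ Z : Type} [Group Γ] (τ : Γ →* Equiv.Perm Z) (δ γ : Γ) :
    Nat.card {z // τ (δ * γ * δ⁻¹) z = z} = Nat.card {z // τ γ z = z} := by
  refine Nat.card_congr ((τ δ⁻¹).subtypeEquiv fun z => ?_)
  rw [map_mul, map_mul, Equiv.Perm.mul_apply, Equiv.Perm.mul_apply, map_inv]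
  constructor
  · intro h
    rw [Equiv.Perm.eq_inv_iff_eq]
    exact h
  · intro h
    rw [Equiv.Perm.eq_inv_iff_eq] at h
    exact h

theorem si_int {Γ B Z : Type} [Group Γ] [Group B] [Fintype Γ] [Finite B] [Finite Z]
    (j : B →* Γ) (ψ : B →* ℂˣ) (ε : Γ →* ℂˣ) (τ : Γ →* Equiv.Perm Z) :
    ∃ m : ℤ, ∑ γ, indG j ψ γ * ((ε γ : ℂˣ) : ℂ) * (Nat.card {z // τ γ z = z} : ℂ) =
      m * (Fintype.card Γ : ℂ) := by
  classical
  letI : Fintype B := Fintype.ofFinite B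
  letI : Fintype Z := Fintype.ofFinite Z
  have ht : ∀ δ γ : Γ, ((ε (δ * γ * δ⁻¹) : ℂˣ) : ℂ) *
      (Nat.card {z // τ (δ * γ * δ⁻¹) z = z} : ℂ) =
      ((ε γ : ℂˣ) : ℂ) * (Nat.card {z // τ γ z = z} : ℂ) := by
    intro δ γ
    rw [si_card]
    congr 2
    rw [map_mul, map_mul, map_inv, mul_comm (ε δ), mul_inv_cancel_right]
  have h1 := indG_sum j ψ (fun γ => ((ε γ : ℂˣ) : ℂ) * (Nat.card {z // τ γ z = z} : ℂ)) ht
  have hM : ∀ (b : B) (x y : Z), (1 : Matrix Z Z ℂ) ((τ.comp j) b x) ((τ.comp j) b y) =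
      (1 : Matrix Z Z ℂ) x y := by
    intro b x y
    rw [Matrix.one_apply, Matrix.one_apply]
    simp only [EmbeddingLike.apply_eq_iff_eq]
  have h2 := tg_trace (k := ℂ) (κ := τ.comp j) (χ := (ψ * ε.comp j)⁻¹) (M := (1 : Matrix Z Z ℂ)) hM
  have h3 : (Matrix.mulVecLin (1 : Matrix Z Z ℂ)).restrict
      (tg_stable (χ := (ψ * ε.comp j)⁻¹) hM) = LinearMap.id := by
    refine LinearMap.ext fun h => ?_
    apply Subtype.ext
    show Matrix.mulVecLin (1 : Matrix Z Z ℂ) h.1 = h.1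
    rw [Matrix.mulVecLin_apply, Matrix.one_mulVec]
  rw [h3, LinearMap.trace_id] at h2
  have h4 : ∀ b : B, tgt (τ.comp j) (1 : Matrix Z Z ℂ) b = (Nat.card {z // τ (j b) z = z} : ℂ) := by
    intro b
    rw [tgt, Nat.card_eq_fintype_card, Fintype.card_subtype]
    simp only [Matrix.one_apply, MonoidHom.comp_apply]
    rw [Finset.sum_boole]
  refine ⟨(Module.finrank ℂ (TgW (τ.comp j) (ψ * ε.comp j)⁻¹) : ℤ), ?_⟩
  have h5 : ∑ γ, indG j ψ γ * ((ε γ : ℂˣ) : ℂ) * (Nat.card {z // τ γ z = z} : ℂ) =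
      ∑ γ, indG j ψ γ * (((ε γ : ℂˣ) : ℂ) * (Nat.card {z // τ γ z = z} : ℂ)) :=
    Finset.sum_congr rfl fun γ _ => mul_assoc _ _ _
  rw [h5, h1, Int.cast_natCast, h2, mul_comm]
  congr 2
  refine Finset.sum_congr rfl fun b _ => ?_
  rw [h4]
  simp [mul_assoc]

example : type_of% @si_int = type_of% @si_int := rfl

end Pool.Agent.SY
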