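import Pool.Agent.Lib_helper29.SY.DefsS
import Pool.Agent.Lib_helper29.SY.P_SF
import Pool.Agent.Lib_helper29.SY.P_SG
import Pool.Agent.Lib_helper29.SY.P_SH
import Pool.Agent.Lib_helper29.SY.P_SI

/-!
# SY, block SJ: induced linear characters of products of symmetric groups
-/

set_option autoImplicit false
set_option linter.unusedSectionVars false

namespace Pool.Agent.SY

open Equiv.Perm
open scoped BigOperators

theorem sj_conj {Γ B : Type} [Group Γ] [Group B] (j : B →* Γ) (ψ : B →* ℂˣ) (δ γ : Γ) :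
    indG j ψ (δ * γ * δ⁻¹) = indG j ψ γ := by
  unfold indG
  congr 1
  rw [← finsum_comp_equiv (Equiv.mulLeft δ)]
  refine finsum_congr fun ε => ?_
  have h1 : (Equiv.mulLeft δ ε)⁻¹ * (δ * γ * δ⁻¹) * (Equiv.mulLeft δ ε) = ε⁻¹ * γ * ε := by
    rw [Equiv.coe_mulLeft]
    group
  rw [h1]

theorem sj_equiv {Γ Γ' B : Type} [Group Γ] [Group Γ'] [Group B] (e : Γ ≃* Γ') (j : B →* Γ)
    (ψ : B →* ℂˣ) (γ : Γ) : indG (e.toMonoidHom.comp j) ψ (e γ) = indG j ψ γ := by
  unfold indG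
  congr 1
  rw [← finsum_comp_equiv e.toEquiv]
  refine finsum_congr fun δ => ?_
  have h1 : ∀ b, ((e.toMonoidHom.comp j) b = (e.toEquiv δ)⁻¹ * e γ * e.toEquiv δ) ↔
      j b = δ⁻¹ * γ * δ := by
    intro b
    rw [← e.injective.eq_iff, map_mul, map_mul, map_inv]
    rfl
  rw [← finsum_comp_equiv (Equiv.subtypeEquivRight h1).symm]
  rfl

/-- SJ. Induced linear characters of a product of symmetric groups are differences of permutation
characters. From `sf_span`, `sg_real`, `sh_word`, `si_int`. -/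
theorem sym_mono {Γ B : Type} [Group Γ] [Group B] [Finite B] {k : ℕ} (n : Fin k → ℕ)
    (e : Γ ≃* ((i : Fin k) → Equiv.Perm (Fin (n i)))) (j : B →* Γ) (ψ : B →* ℂˣ) :
    ∃ (Y Y' : Type) (_ : Finite Y) (_ : Finite Y') (σ : Γ →* Equiv.Perm Y)
      (σ' : Γ →* Equiv.Perm Y'), ∀ γ, (Nat.card {y // σ γ y = y} : ℂ) =
        Nat.card {y // σ' γ y = y} + indG j ψ γ := by
  set j' := e.toMonoidHom.comp j with hj'
  -- the words
  have hw := fun c : (i : Fin k) → Prt (n i) => sh_word n (fun i => (c i).f)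
  choose Z hZ τ hτ using hw
  -- the sign
  let ε : ((i : Fin k) → Equiv.Perm (Fin (n i))) →* ℂˣ :=
    { toFun := fun γ => ∏ i, Units.map (Int.castRingHom ℂ).toMonoidHom (Equiv.Perm.sign (γ i))
      map_one' := by simp
      map_mul' := fun γ γ' => by
        simp only [Pi.mul_apply, map_mul, Finset.prod_mul_distrib] }
  have hε : ∀ γ, ((ε γ : ℂˣ) : ℂ) = ∏ i, ((Equiv.Perm.sign (γ i) : ℤ) : ℂ) := by
    intro γ
    show ((∏ i, Units.map (Int.castRingHom ℂ).toMonoidHom (Equiv.Perm.sign (γ i)) : ℂˣ) : ℂ) = _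
    rw [Units.coe_prod]
    rfl
  obtain ⟨a, ha⟩ := sf_span n (fun γ => indG j' ψ γ) (fun δ γ => sj_conj j' ψ δ γ) fun c => by
    obtain ⟨m, hm⟩ := si_int j' ψ ε (τ c)
    refine ⟨m, ?_⟩
    rw [← hm]
    refine Finset.sum_congr rfl fun γ _ => ?_
    rw [hτ, hε]
  obtain ⟨Y, Y', hY, hY', σ, σ', h⟩ := sg_real Z τ a
  refine ⟨Y, Y', hY, hY', σ.comp e.toMonoidHom, σ'.comp e.toMonoidHom, fun γ => ?_⟩
  have h1 := h (e γ)
  have h2 : ∑ c, (a c : ℂ) * (Nat.card {z // τ c (e γ) z = z} : ℂ) = indG j ψ γ := by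
    rw [← sj_equiv e j ψ γ, ha (e γ)]
    exact Finset.sum_congr rfl fun c _ => by rw [hτ]
  rw [h2] at h1
  exact h1

end Pool.Agent.SY
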