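import Pool.Agent.Lib_helper29.SY.DefsS
import Pool.Agent.Lib_helper29.SY.Defs
import Pool.Agent.Lib_helper29.SY.DT
import Pool.Agent.Lib_helper49.RT.Amp
import Pool.Agent.Lib_helper17.RS.P_IF
import Pool.Agent.Lib_helper29.SY.P_IK
import Pool.Agent.Lib_helper29.SY.P_SJ

/-!
# SY block FS: products of symmetric groups
-/

set_option autoImplicit false
set_option linter.unusedSectionVars false

namespace Pool.Agent.SY

open Pool.Agent.RSK Pool.Agent.RS2 Pool.Agent.RS3 Pool.Agent.RT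
open NumberField IsDedekindDomain Filter Topology Complex
open scoped TensorProduct

/-- the inclusion of `Gal(L/F)` in `Gal(L/F₀)` -/
def fs_rsg (F₀ F L : Type) [Field F₀] [Field F] [Field L] [Algebra F₀ F] [Algebra F₀ L]
    [Algebra F L] [IsScalarTower F₀ F L] : (L ≃ₐ[F] L) →* (L ≃ₐ[F₀] L) where
  toFun g := g.restrictScalars F₀
  map_one' := rfl
  map_mul' _ _ := rfl

/-- a finite cyclic group has an injective character -/
theorem fs_char {C : Type} [Group C] [Finite C] [IsCyclic C] :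
    ∃ χ : C →* ℂˣ, Function.Injective χ := by
  have hn : Nat.card C ≠ 0 := Nat.card_pos.ne'
  haveI : NeZero (Nat.card C) := ⟨hn⟩
  have h1 : Nat.card C = Nat.card (rootsOfUnity (Nat.card C) ℂ) := by
    rw [Complex.card_rootsOfUnity]
  exact ⟨(rootsOfUnity (Nat.card C) ℂ).subtype.comp (mulEquivOfCyclicCardEq h1).toMonoidHom,
    fun a b h => (mulEquivOfCyclicCardEq h1).injective (Subtype.ext h)⟩

section FAM

variable {F H : Type} [Field F] [NumberField F] [Field H] [NumberField H] [Algebra F H]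
  [IsGalois F H] {G : Type} [CommGroup G] [Fintype G] (ι : G ≃* (H ≃ₐ[F] H))

/-- FS. Products of symmetric groups: `L`, `F₀` from `SymT`, `B = Gal(L/F)`, `χ` an injective
character of the cyclic group `Gal(K/F)`, `K = Kf ι N`; from `sym_mono`, `indK_eq`. -/
theorem sym_lay (h : SymT F H) (N : Subgroup G) (hN : IsCyclic (G ⧸ N)) :
    PermLay F (Kf ι N) := by
  obtain ⟨F₀, L, i1, i2, i3, i4, i5, i6, i7, i8, i9, i10, i11, k, n, ⟨e⟩⟩ := h
  obtain ⟨ι', -⟩ := kf_quo ι N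
  haveI hgal : IsGalois F (Kf ι N) := kf_galois ι N
  haveI hcyc : IsCyclic (Kf ι N ≃ₐ[F] Kf ι N) := ι'.isCyclic.1 hN
  haveI htow : IsScalarTower F (Kf ι N) L := by
    refine IsScalarTower.of_algebraMap_eq fun x => ?_
    rw [IsScalarTower.algebraMap_apply F H L]
    rfl
  haveI hfin : Finite (L ≃ₐ[F] L) := inferInstance
  obtain ⟨χ, hχ⟩ := fs_char (C := (Kf ι N ≃ₐ[F] Kf ι N))
  let j : (L ≃ₐ[F] L) →* (L ≃ₐ[F₀] L) := fs_rsg F₀ F L
  let π : (L ≃ₐ[F] L) →* (Kf ι N ≃ₐ[F] Kf ι N) := AlgEquiv.restrictNormalHom (Kf ι N)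
  obtain ⟨Y, Y', f1, f2, σ, σ', hσ⟩ := sym_mono n e j (χ.comp π)
  refine ⟨F₀, L, i1, i2, i3, i4, i5, i6, i7, inferInstance, i9, htow, i11, Y, Y', f1, f2, σ, σ',
    χ, hχ, fun γ => ?_⟩
  have key := indK_eq (F₀ := F₀) (F := F) (K := Kf ι N) (L := L) j π ?_ ?_ ?_ ?_ χ γ
  · rw [hσ γ, key]
    ring
  · intro a b hab
    ext x
    exact congrArg (fun g : L ≃ₐ[F₀] L => g x) hab
  · intro γ' hγ'
    exact ⟨{ γ' with commutes' := hγ' }, rfl⟩
  · intro b x
    exact b.commutes x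
  · intro b x
    exact (AlgEquiv.restrictNormal_commutes b (Kf ι N) x).symm

end FAM

end Pool.Agent.SY
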