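import Pool.Agent.Lib_helper29.SY.DefsS
import Pool.Agent.Lib_helper29.SY.Defs
import Pool.Agent.Lib_helper29.SY.DT
import Pool.Agent.Lib_helper49.RT.Amp
import Pool.Agent.Lib_helper35.RS4.C

/-!
# SY block FT: the element of the trivial layer
-/

set_option autoImplicit false
set_option linter.unusedSectionVars false

namespace Pool.Agent.SY

open Pool.Agent.RSK Pool.Agent.RS2 Pool.Agent.RS3 Pool.Agent.RT
open NumberField IsDedekindDomain Filter Topology Complex
open scoped TensorProduct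

section TOP2

variable {F H : Type} [Field F] [NumberField F] [Field H] [NumberField H] [Algebra F H]
  [IsGalois F H] {G : Type} [CommGroup G] [Fintype G] {ι : G ≃* (H ≃ₐ[F] H)}
  {S T : Finset (HeightOneSpectrum (𝓞 F))} {r : ℕ} {w : Fin r → Pl H}
  {fr : HeightOneSpectrum (𝓞 F) → G}

/-- FT. The element for `N = ⊤`: `triv_elt`, `triv_zero` (RS4/C) with `n = #G`, divide `x` by `n`. -/
theorem ft5_top (hD : Data ι S T r w fr) :
    ∃ (c : (G →* ℂˣ) → ℂ) (b : Fin r → UM ι S T) (x : MonoidAlgebra ℚ G),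
      Ft5Q ι S T w fr ⊤ c b x := by
  obtain ⟨c, b, x, h⟩ : ∃ (c : (G →* ℂˣ) → ℂ) (b : Fin r → UM ι S T) (x : MonoidAlgebra ℚ G),
      Pool.Agent.RS4.Ft4Q (Nat.card G) ι S T w fr ⊤ c b x := by
    by_cases h : Fintype.card (InfinitePlace F) + S.card = r + 1
    · exact Pool.Agent.RS4.triv_elt hD h (dvd_refl _)
    · have h1 := hD.card
      exact Pool.Agent.RS4.triv_zero hD (by omega)
  have hn : (Nat.card G : ℂ) ≠ 0 := by
    exact_mod_cast Nat.card_pos.ne'
  have he : ∀ χ : G →* ℂˣ, evQ χ (((Nat.card G : ℚ)⁻¹) • x) = (Nat.card G : ℂ)⁻¹ * evQ χ x := by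
    intro χ
    rw [map_smul, Algebra.smul_def]
    simp
  refine ⟨c, b, ((Nat.card G : ℚ)⁻¹) • x, h.lead, ?_, ?_, ?_⟩
  · intro χ hχ
    rw [he, h.off χ hχ, mul_zero]
  · intro χ hχ
    rw [he, mul_assoc, h.val χ hχ, ← mul_assoc, inv_mul_cancel₀ hn, one_mul]
  · intro χ hχ h0
    rw [he, h.van χ hχ h0, mul_zero]

end TOP2

end Pool.Agent.SY
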