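import Pool.Agent.Lib_helper29.SY.DefsS
import Pool.Agent.Lib_helper29.SY.Defs
import Pool.Agent.Lib_helper29.SY.DT
import Pool.Agent.Lib_helper49.RT.Amp
import Pool.Agent.Lib_helper49.RT.Step
import Pool.Agent.Lib_helper17.RS.P_WA

/-!
# Project SY, block WR: assembly
-/

set_option autoImplicit false
set_option linter.unusedSectionVars false

namespace Pool.Agent.SY

open Pool.Agent.RSK Pool.Agent.RS2 Pool.Agent.RS3 Pool.Agent.RT
open NumberField IsDedekindDomain Filter Topology Complex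
open scoped TensorProduct

section WR

variable {F H : Type} [Field F] [NumberField F] [Field H] [NumberField H] [Algebra F H]
  [IsGalois F H] {G : Type} [CommGroup G] [Fintype G] {ι : G ≃* (H ≃ₐ[F] H)}
  {S T : Finset (HeightOneSpectrum (𝓞 F))} {r : ℕ} {w : Fin r → Pl H}
  {fr : HeightOneSpectrum (𝓞 F) → G}

theorem wr_rat (c : (G →* ℂˣ) → ℂ) {K : Type} [Fintype K]
    (b : K → Fin r → UM ι S T) (x : K → MonoidAlgebra ℚ G)
    (hval : ∀ χ : G →* ℂˣ, ∑ k, evQ χ (x k) *
      evR χ (wmat ι S T w (b k)).det = c χ⁻¹)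
    (her : ∀ (χ : G →* ℂˣ) (k : K), c χ = 0 → evQ χ (x k) = 0) :
    Rat' ι S T w c (∑ k, waU (b k) (x k)) := by
  refine ⟨?_, ?_⟩
  · intro a ha
    rw [Finset.smul_sum]
    refine Finset.sum_eq_zero fun k _ => ?_
    rw [wa_smul]
    have h : toQ G a * x k = 0 := by
      apply evQ_inj
      intro χ
      rw [map_mul, map_zero]
      by_cases h0 : c χ = 0
      · rw [her χ k h0, mul_zero]
      · have := ha χ h0
        have e : evQ χ (toQ G a) = 0 := this
        rw [e, zero_mul]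
    rw [h, wa_zero]
  · intro χ
    rw [map_sum, map_sum, ← hval χ]
    exact Finset.sum_congr rfl fun k _ => wa_val _ _ _ _ _ _ _

/-- WR. As `wrap` (RSK/P_WA) and `rubin_p4` (RS4/D), `starkQ_of` (RT/Step). -/
theorem stark_all (hD : Data ι S T r w fr)
    (h : ∀ N : Subgroup G, IsCyclic (G ⧸ N) → ∃ (c : (G →* ℂˣ) → ℂ) (b : Fin r → UM ι S T)
      (x : MonoidAlgebra ℚ G), Ft5Q ι S T w fr N c b x) :
    StarkQ ι S T w fr := by
  classical
  have _ := hD
  choose C B X hP using h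
  have hker : ∀ χ : G →* ℂˣ, IsCyclic (G ⧸ χ.ker) := by
    intro χ
    haveI : Finite χ.range := Set.finite_range χ |>.to_subtype
    haveI : IsCyclic χ.range := inferInstance
    exact (QuotientGroup.quotientKerEquivRange χ).symm.isCyclic.1 inferInstance
  let c : (G →* ℂˣ) → ℂ := fun χ => C χ.ker (hker χ) χ
  have hc : ∀ N (hN : IsCyclic (G ⧸ N)) (χ : G →* ℂˣ), χ.ker = N → c χ = C N hN χ := by
    intro N hN χ h
    subst h
    rfl
  have hL : Lead S T r fr c := by
    intro χ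
    obtain ⟨Λ, h1, h2, h3⟩ := (hP χ.ker (hker χ)).lead χ rfl
    exact ⟨Λ, h1, h2, h3⟩
  let K := {N : Subgroup G // IsCyclic (G ⧸ N)}
  haveI : Fintype K := Fintype.ofFinite K
  have hkinv : ∀ χ : G →* ℂˣ, (χ⁻¹).ker = χ.ker := by
    intro χ
    ext g
    rw [MonoidHom.mem_ker, MonoidHom.mem_ker, MonoidHom.inv_apply, inv_eq_one]
  refine starkQ_of hL (wr_rat (ι := ι) (S := S) (T := T) (w := w) c (K := K)
    (fun N => B N.1 N.2) (fun N => X N.1 N.2) ?_ ?_)
  · intro χ
    rw [Finset.sum_eq_single ⟨χ.ker, hker χ⟩]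
    · rw [(hP χ.ker (hker χ)).val χ rfl, hc χ.ker (hker χ) χ⁻¹ (hkinv χ)]
    · intro N _ hN
      have : χ.ker ≠ N.1 := fun h => hN (Subtype.ext h.symm)
      rw [(hP N.1 N.2).off χ this, zero_mul]
    · intro h
      exact absurd (Finset.mem_univ _) h
  · intro χ N h0
    by_cases hf : χ.ker = N.1
    · apply (hP N.1 N.2).van χ hf
      rw [← hc N.1 N.2 χ hf]
      exact h0
    · exact (hP N.1 N.2).off χ hf

end WR

end Pool.Agent.SY
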