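import Pool.Agent.Lib_helper29.SY.P_LY
import Pool.Agent.Lib_helper29.SY.P_CK
import Pool.Agent.Lib_helper29.SY.P_FN
import Pool.Agent.Lib_helper29.SY.P_FT
import Pool.Agent.Lib_helper29.SY.P_WR
import Pool.Agent.Lib_helper29.SY.P_FS
import Pool.Agent.Lib_helper29.SY.P_FH
import Pool.Agent.Lib_helper29.SY.P_FK
import Pool.Agent.Lib_helper29.SY.P_FP

/-!
# Project SY: the main theorem
-/

set_option autoImplicit false
set_option linter.unusedSectionVars false

namespace Pool.Agent.SY

open Pool.Agent.RSK Pool.Agent.RS2 Pool.Agent.RS3 Pool.Agent.RT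
open NumberField IsDedekindDomain Filter Topology Complex

section TOP2

variable {F H : Type} [Field F] [NumberField F] [Field H] [NumberField H] [Algebra F H]
  [IsGalois F H] {G : Type} [CommGroup G] [Fintype G] {ι : G ≃* (H ≃ₐ[F] H)}
  {S T : Finset (HeightOneSpectrum (𝓞 F))} {r : ℕ} {w : Fin r → Pl H}
  {fr : HeightOneSpectrum (𝓞 F) → G}

/-- The conclusion of Stark's conjecture over `ℚ` if all nontrivial cyclic layers are permutation
layers. -/
theorem stark_perm (hD : Data ι S T r w fr)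
    (h : ∀ N : Subgroup G, IsCyclic (G ⧸ N) → N ≠ ⊤ → PermLay F (Kf ι N)) :
    StarkQ ι S T w fr := by
  refine stark_all hD fun N hN => ?_
  by_cases hT : N = ⊤
  · subst hT
    exact ft5_top hD
  · exact ft5_N N hN hT hD (h N hN hT)

theorem most_lay (hD : Data ι S T r w fr)
    (h : ∀ N : Subgroup G, IsCyclic (G ⧸ N) → N ≠ ⊤ → PermLay F (Kf ι N) ∨
      ∃ p j : ℕ, p.Prime ∧ N.index = p ^ j ∧ Hol3 p N.index F (Kf ι N)) :
    RubinMost ι S w fr := by
  refine (stark_iff hD).1 (stark_perm hD fun N hN hN' => ?_)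
  rcases h N hN hN' with h1 | ⟨p, j, hp, hj, h1⟩
  · exact h1
  · exact hol3_lay ι N hN hN' hp hj h1

theorem most_fam (hD : Data ι S T r w fr) (h : SymT F H ∨ HolT F H ∨ KumN F H) :
    RubinMost ι S w fr := by
  refine (stark_iff hD).1 (stark_perm hD fun N hN _ => ?_)
  rcases h with h | h | h
  · exact sym_lay ι h N hN
  · exact hol_lay ι h N hN
  · exact hol_lay ι (kum_holT h) N hN

end TOP2

end Pool.Agent.SY
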