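import Pool.Agent.Lib_helper29.SY.TG
import Pool.Agent.Lib_helper29.SY.Ind
import Pool.Agent.Lib_helper27.RS3.Defs3

/-!
# Words, contents and partitions
-/

set_option autoImplicit false
set_option linter.unusedSectionVars false

namespace Pool.Agent.SY

/-! ## Symmetric groups -/

section Sym

/-- the content of a word -/
noncomputable def cnt {n : ℕ} (x : Fin n → Fin n) (a : Fin n) : ℕ := Nat.card {s : Fin n // x s = a}

/-- the number of words of content `c` which are invariant under `γ` -/
noncomputable def fix1 {n : ℕ} (c : Fin n → ℕ) (γ : Equiv.Perm (Fin n)) : ℕ :=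
  Nat.card {x : Fin n → Fin n // cnt x = c ∧ ∀ s, x (γ s) = x s}

/-- the conjugate partition -/
noncomputable def cj {n : ℕ} (c : Fin n → ℕ) (b : Fin n) : ℕ := Nat.card {a : Fin n // (b : ℕ) < c a}

/-- the partitions of `n` -/
abbrev Prt (n : ℕ) : Type := {c : Fin n → Fin (n + 1) // Antitone c ∧ ∑ a, (c a : ℕ) = n}

/-- the parts -/
def Prt.f {n : ℕ} (c : Prt n) (a : Fin n) : ℕ := (c.1 a : ℕ)

/-- the number of pairs of words with contents `c`, `c'` and without repetition -/
noncomputable def inj2 {n : ℕ} (c c' : Fin n → ℕ) : ℕ :=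
  Nat.card {q : (Fin n → Fin n) × (Fin n → Fin n) // cnt q.1 = c ∧ cnt q.2 = c' ∧
    Function.Injective fun s => (q.1 s, q.2 s)}

/-- the number of cycles (with the fixed points) -/
noncomputable def cyc {n : ℕ} (γ : Equiv.Perm (Fin n)) : ℕ :=
  Nat.card (Quotient (Equiv.Perm.SameCycle.setoid γ))

/-- the rank of a partition: the sum of the partial sums -/
def prk {n : ℕ} (c : Prt n) : ℕ := ∑ a : Fin n, (n - (a : ℕ)) * c.f a

end Sym

end Pool.Agent.SY
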