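import Pool.Agent.Lib_helper29.SY.DefsS
import Pool.Agent.Lib_helper29.SY.Defs
import Pool.Agent.Lib_helper29.SY.DT
import Pool.Agent.Lib_helper49.RT.Amp
import Pool.Agent.Lib_helper35.RS3.P_ART
import Pool.Agent.Lib_helper35.RS2.P_QK

set_option autoImplicit false
set_option linter.unusedSectionVars false

namespace Pool.Agent.SY

open Pool.Agent.RSK Pool.Agent.RS2 Pool.Agent.RS3 Pool.Agent.RT
open NumberField IsDedekindDomain Filter Topology Complex
open scoped TensorProduct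

section STABLE

variable {F₀ F K L : Type} [Field F₀] [NumberField F₀] [Field F] [NumberField F] [Field K]
  [NumberField K] [Field L] [NumberField L] [Algebra F₀ F] [Algebra F₀ L] [Algebra F K]
  [Algebra F L] [Algebra K L] [IsScalarTower F₀ F L] [IsScalarTower F K L] [IsGalois F₀ L]
  [IsGalois F K] [IsGalois F L] [IsGalois K L]
  {G : Type} [CommGroup G] [Fintype G] {S₀ T₀ : Finset (HeightOneSpectrum (𝓞 F₀))}
  {r : ℕ} {fr : HeightOneSpectrum (𝓞 F) → G}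

/-- the restriction of a Frobenius automorphism -/
theorem ar_fr {σ : L ≃ₐ[F] L} {τ : K ≃ₐ[F] K}
    (hστ : ∀ x : K, σ (algebraMap K L x) = algebraMap K L (τ x))
    {W : HeightOneSpectrum (𝓞 L)} (hσ : FrAt W σ) : FrAt (W.under (𝓞 K)) τ := by
  intro x
  have h := hσ (algebraMap (𝓞 K) (𝓞 L) x)
  have h1 : algebraMap (𝓞 K) (𝓞 L) (RingOfIntegers.mapRingEquiv τ.toRingEquiv x) =
      RingOfIntegers.mapRingEquiv σ.toRingEquiv (algebraMap (𝓞 K) (𝓞 L) x) := by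
    apply RingOfIntegers.ext
    exact (hστ (x : K)).symm
  rw [ee_under_under]
  show algebraMap (𝓞 K) (𝓞 L) _ ∈ W.asIdeal
  rw [map_sub, map_pow, h1]
  exact h

/-- AR. The Artin formalism: `art_zY` (RS3/P_ART) for `σ`, `σ'`, `artL_add`, `artL_lst` (RS2/P_A7) for
`π : Gal(L/F) → G`; the Frobenius automorphism of `L/F` at `W` restricts to that of `K/F` at
`W.under (𝓞 K)`, which is unique (`frAt_uniq`). -/
theorem art_lay {ι : G ≃* (K ≃ₐ[F] K)} {π : (L ≃ₐ[F] L) →* G}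
    (hπ : ∀ (σ : L ≃ₐ[F] L) (x : K), σ (algebraMap K L x) = algebraMap K L (ι (π σ) x))
    {Y Y' : Type} [Finite Y] [Finite Y'] (σ : (L ≃ₐ[F₀] L) →* Equiv.Perm Y)
    (σ' : (L ≃ₐ[F₀] L) →* Equiv.Perm Y') {χ : G →* ℂˣ}
    (hcf : ∀ γ, (Nat.card {y // σ γ y = y} : ℂ) = Nat.card {y // σ' γ y = y} +
      indG (rsg F₀ F L) (χ.comp π) γ)
    (hST : Disjoint S₀ T₀)
    (hun : ∀ W : HeightOneSpectrum (𝓞 L), W.under (𝓞 F₀) ∉ S₀ →
      Algebra.IsUnramifiedAt (𝓞 F₀) W.asIdeal)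
    (hfr : ∀ v, v ∉ ovr F S₀ → IsFr v (ι (fr v))) {s : ℂ} (hs : 1 < s.re) :
    zY S₀ T₀ σ s = LST (ovr F S₀) (ovr F T₀) fr χ s * zY S₀ T₀ σ' s := by
  obtain ⟨φ, hφ⟩ := frSys_exists (H := L) S₀
  have hfr' : ∀ W : HeightOneSpectrum (𝓞 L), W.under (𝓞 F₀) ∉ S₀ → ∀ τ : L ≃ₐ[F] L,
      FrAt W τ → fr (W.under (𝓞 F)) = π τ := by
    intro W hW τ hτ
    have h1 : W.under (𝓞 F) ∉ ovr F S₀ := by
      rw [mem_ovr, ee_under_under]
      exact hW
    have h2 : FrAt (W.under (𝓞 K)) (ι (π τ)) := ar_fr (hπ τ) hτ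
    have h3 : FrAt (W.under (𝓞 K)) (ι (fr (W.under (𝓞 F)))) := by
      intro x
      rw [ee_under_under]
      exact hfr _ h1 (W.under (𝓞 K)) (ee_under_under W) x
    have h4 : Algebra.IsUnramifiedAt (𝓞 F) (W.under (𝓞 K)).asIdeal := by
      refine qk_unram (H := L) fun W' hW' => ?_
      refine unr_up (F₀ := F₀) (K := F) (hun W' ?_)
      rw [← ee_under_under (F₀ := F₀) (K := F) W', hW', ee_under_under (F₀ := F) (K := K) W,
        ee_under_under (F₀ := F₀) (K := F) W]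
      exact hW
    exact ι.injective (frAt_uniq h4 h3 h2)
  have e : (fun γ => indG (rsg F₀ F L) (χ.comp π) γ) = indF F₀ (χ.comp π) := rfl
  rw [art_zY hST hun hφ σ hs, art_zY hST hun hφ σ' hs,
    ← artL_lst hφ hST hun π fr hfr' χ hs, ← artL_add _ _ hs]
  congr 1
  funext γ
  rw [Pi.add_apply, ← e, hcf γ, add_comm]

end STABLE

end Pool.Agent.SY
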