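import Pool.Agent.Lib_helper29.SY.DefsS

/-!
# Project SY, block EV: the determinant on the isotypic part by evaluation
-/

set_option autoImplicit false
set_option linter.unusedSectionVars false

namespace Pool.Agent.SY

section EV

variable {B Ω : Type} [Group B] [Fintype B] [Fintype Ω]

open scoped Classical in
/-- the function supported on the orbit of `ω₀` -/
noncomputable def ev_e (κ : B →* Equiv.Perm Ω) (ψ : B →* ℂˣ) (ω₀ : Ω) (ω : Ω) : ℂ :=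
  (Nat.card (Pool.Agent.RS3.stb κ ω₀) : ℂ)⁻¹ *
    ∑ b : B, if κ b ω₀ = ω then (((ψ b)⁻¹ : ℂˣ) : ℂ) else 0

theorem ev_e_mem (κ : B →* Equiv.Perm Ω) (ψ : B →* ℂˣ) (ω₀ : Ω) :
    ev_e κ ψ ω₀ ∈ TgW (k := ℂ) κ ψ⁻¹ := by
  classical
  intro c ω
  show ev_e κ ψ ω₀ (κ c ω) = _ * ev_e κ ψ ω₀ ω
  rw [ev_e, ev_e, mul_left_comm]
  congr 1
  rw [Finset.mul_sum, ← Equiv.sum_comp (Equiv.mulLeft c)]
  refine Finset.sum_congr rfl fun b _ => ?_
  rw [Equiv.coe_mulLeft, map_mul, Equiv.Perm.mul_apply, map_mul, mul_inv, Units.val_mul,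
    MonoidHom.inv_apply]
  by_cases h : κ b ω₀ = ω
  · rw [if_pos h, if_pos (by rw [h])]
  · rw [if_neg h, if_neg (fun h' => h ((κ c).injective h')), mul_zero]

theorem ev_e_self (κ : B →* Equiv.Perm Ω) (ψ : B →* ℂˣ) (ω₀ : Ω)
    (h : ∀ b, κ b ω₀ = ω₀ → ψ b = 1) : ev_e κ ψ ω₀ ω₀ = 1 := by
  classical
  have h1 : (∑ b : B, if κ b ω₀ = ω₀ then (((ψ b)⁻¹ : ℂˣ) : ℂ) else 0) =
      (Nat.card (Pool.Agent.RS3.stb κ ω₀) : ℂ) := by
    have h2 : ∀ b : B, (if κ b ω₀ = ω₀ then (((ψ b)⁻¹ : ℂˣ) : ℂ) else 0) =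
        if κ b ω₀ = ω₀ then (1 : ℂ) else 0 := by
      intro b
      by_cases hb : κ b ω₀ = ω₀
      · rw [if_pos hb, if_pos hb, h b hb, inv_one, Units.val_one]
      · rw [if_neg hb, if_neg hb]
    rw [Finset.sum_congr rfl fun b _ => h2 b, ← Finset.sum_filter, Finset.sum_const, nsmul_eq_mul,
      mul_one, ← Fintype.card_subtype, ← Nat.card_eq_fintype_card]
    rfl
  rw [ev_e, h1]
  exact inv_mul_cancel₀ (by exact_mod_cast Nat.card_pos.ne')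

theorem ev_e_other (κ : B →* Equiv.Perm Ω) (ψ : B →* ℂˣ) (ω₀ ω : Ω)
    (h : ∀ b, κ b ω₀ ≠ ω) : ev_e κ ψ ω₀ ω = 0 := by
  classical
  rw [ev_e, Finset.sum_eq_zero, mul_zero]
  intro b _
  rw [if_neg (h b)]

theorem ev_e_mul (κ : B →* Equiv.Perm Ω) {M : Matrix Ω Ω ℂ} (hM : Pool.Agent.RS3.MIv κ M)
    (ψ : B →* ℂˣ) (ω₀ ω : Ω) : ∑ x, M ω x * ev_e κ ψ ω₀ x =
      (Nat.card (Pool.Agent.RS3.stb κ ω₀) : ℂ)⁻¹ * ∑ b : B, ((ψ b : ℂˣ) : ℂ) * M (κ b ω) ω₀ := by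
  classical
  have h1 : ∀ x, M ω x * ev_e κ ψ ω₀ x = (Nat.card (Pool.Agent.RS3.stb κ ω₀) : ℂ)⁻¹ *
      ∑ b : B, if κ b ω₀ = x then (((ψ b)⁻¹ : ℂˣ) : ℂ) * M ω x else 0 := by
    intro x
    rw [ev_e, mul_left_comm, Finset.mul_sum]
    congr 1
    refine Finset.sum_congr rfl fun b _ => ?_
    split_ifs
    · ring
    · rw [mul_zero]
  rw [Finset.sum_congr rfl fun x _ => h1 x, ← Finset.mul_sum]
  congr 1
  rw [Finset.sum_comm]
  have h2 : ∀ b : B, (∑ x, if κ b ω₀ = x then (((ψ b)⁻¹ : ℂˣ) : ℂ) * M ω x else 0) =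
      (((ψ b)⁻¹ : ℂˣ) : ℂ) * M ω (κ b ω₀) := by
    intro b
    rw [Finset.sum_ite_eq Finset.univ (κ b ω₀), if_pos (Finset.mem_univ _)]
  rw [Finset.sum_congr rfl fun b _ => h2 b, ← Equiv.sum_comp (Equiv.inv B)]
  refine Finset.sum_congr rfl fun b _ => ?_
  rw [Equiv.inv_apply, map_inv, inv_inv, ← hM b ω, map_inv, Equiv.Perm.inv_def,
    Equiv.apply_symm_apply]

theorem ev_det {κ : B →* Equiv.Perm Ω} {M : Matrix Ω Ω ℂ} (hM : Pool.Agent.RS3.MIv κ M)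
    (ψ : B →* ℂˣ) {r : ℕ} (w : Fin r → Ω) (hw : ∀ i b, κ b (w i) = w i → ψ b = 1)
    (hinj : ∀ i i' b, κ b (w i) = w i' → i = i')
    (hall : ∀ ω, (∀ b, κ b ω = ω → ψ b = 1) → ∃ i b, ω = κ b (w i)) :
    Module.finrank ℂ (TgW (k := ℂ) κ ψ⁻¹) = r ∧
    (Matrix.of fun i j : Fin r => ∑ b : B, ((ψ b : ℂˣ) : ℂ) * M (κ b (w i)) (w j)).det =
      (∏ j, (Nat.card (Pool.Agent.RS3.stb κ (w j)) : ℂ)) *
        LinearMap.det ((Matrix.mulVecLin M).restrict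
          (tg_stable (κ := κ) (χ := ψ⁻¹) (fun b x y => hM b x y))) := by
  classical
  let E : TgW (k := ℂ) κ ψ⁻¹ →ₗ[ℂ] (Fin r → ℂ) :=
    { toFun := fun h i => h.1 (w i)
      map_add' := fun _ _ => rfl
      map_smul' := fun _ _ => rfl }
  have hE : ∀ h i, E h i = h.1 (w i) := fun _ _ => rfl
  let e : Fin r → TgW (k := ℂ) κ ψ⁻¹ := fun j => ⟨ev_e κ ψ (w j), ev_e_mem κ ψ (w j)⟩
  have he : ∀ j, E (e j) = Pi.single j 1 := by
    intro j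
    funext i
    rw [hE]
    show ev_e κ ψ (w j) (w i) = _
    by_cases h : i = j
    · subst h
      rw [ev_e_self κ ψ _ (hw i), Pi.single_eq_same]
    · rw [Pi.single_eq_of_ne h]
      exact ev_e_other κ ψ _ _ fun b hb => h (hinj j i b hb).symm
  have hinjE : Function.Injective E := by
    rw [injective_iff_map_eq_zero]
    intro h hh
    apply Subtype.ext
    funext ω
    show h.1 ω = 0
    by_cases hc : ∀ b, κ b ω = ω → ψ b = 1
    · obtain ⟨i, b, rfl⟩ := hall ω hc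
      have h1 := h.2 b (w i)
      rw [h1]
      have h2 : h.1 (w i) = 0 := congrFun hh i
      rw [h2, mul_zero]
    · push Not at hc
      obtain ⟨b, hb, hb'⟩ := hc
      have h1 := h.2 b ω
      rw [hb, MonoidHom.inv_apply] at h1
      have h2 : (((ψ b)⁻¹ : ℂˣ) : ℂ) ≠ 1 := by
        intro h3
        apply hb'
        have h4 : (ψ b)⁻¹ = 1 := Units.ext h3
        exact inv_eq_one.1 h4
      have h3 : ((((ψ b)⁻¹ : ℂˣ) : ℂ) - 1) * h.1 ω = 0 := by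
        rw [sub_mul, one_mul, ← h1, sub_self]
      exact (mul_eq_zero.1 h3).resolve_left (sub_ne_zero.2 h2)
  have hsurjE : Function.Surjective E := by
    intro y
    refine ⟨∑ j, y j • e j, ?_⟩
    rw [map_sum]
    have h1 : ∀ j, E (y j • e j) = y j • Pi.single j 1 := by
      intro j
      rw [map_smul, he]
    rw [Finset.sum_congr rfl fun j _ => h1 j]
    funext i
    rw [Finset.sum_apply, Finset.sum_eq_single i]
    · rw [Pi.smul_apply, Pi.single_eq_same, smul_eq_mul, mul_one]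
    · intro j _ hj
      rw [Pi.smul_apply, Pi.single_eq_of_ne hj.symm, smul_zero]
    · intro h
      exact absurd (Finset.mem_univ _) h
  let E' : TgW (k := ℂ) κ ψ⁻¹ ≃ₗ[ℂ] (Fin r → ℂ) := LinearEquiv.ofBijective E ⟨hinjE, hsurjE⟩
  have hE' : ∀ h, E' h = E h := fun _ => rfl
  have hes : ∀ j, E'.symm (Pi.single j 1) = e j := by
    intro j
    rw [LinearEquiv.symm_apply_eq, hE', he]
  refine ⟨?_, ?_⟩
  · rw [LinearEquiv.finrank_eq E', Module.finrank_fin_fun]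
  · set f := (Matrix.mulVecLin M).restrict
      (tg_stable (κ := κ) (χ := ψ⁻¹) (fun b x y => hM b x y)) with hf
    have h1 : LinearMap.det f = LinearMap.det ((E' : TgW (k := ℂ) κ ψ⁻¹ →ₗ[ℂ] (Fin r → ℂ)) ∘ₗ f ∘ₗ
        (E'.symm : (Fin r → ℂ) →ₗ[ℂ] TgW (k := ℂ) κ ψ⁻¹)) := (LinearMap.det_conj f E').symm
    rw [h1, ← LinearMap.det_toMatrix']
    have h2 : (Matrix.of fun i j : Fin r => ∑ b : B, ((ψ b : ℂˣ) : ℂ) * M (κ b (w i)) (w j)) =
        LinearMap.toMatrix' ((E' : TgW (k := ℂ) κ ψ⁻¹ →ₗ[ℂ] (Fin r → ℂ)) ∘ₗ f ∘ₗ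
          (E'.symm : (Fin r → ℂ) →ₗ[ℂ] TgW (k := ℂ) κ ψ⁻¹)) *
        Matrix.diagonal fun j => (Nat.card (Pool.Agent.RS3.stb κ (w j)) : ℂ) := by
      ext i j
      rw [Matrix.mul_diagonal, LinearMap.toMatrix'_apply, Matrix.of_apply]
      have h3 : ((E' : TgW (k := ℂ) κ ψ⁻¹ →ₗ[ℂ] (Fin r → ℂ)) ∘ₗ f ∘ₗ
          (E'.symm : (Fin r → ℂ) →ₗ[ℂ] TgW (k := ℂ) κ ψ⁻¹)) (Pi.single j 1) i =
          (Nat.card (Pool.Agent.RS3.stb κ (w j)) : ℂ)⁻¹ *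
            ∑ b : B, ((ψ b : ℂˣ) : ℂ) * M (κ b (w i)) (w j) := by
        show E (f (E'.symm (Pi.single j 1))) i = _
        rw [hes, hE]
        exact ev_e_mul κ hM ψ (w j) (w i)
      have h4 : (Nat.card (Pool.Agent.RS3.stb κ (w j)) : ℂ) ≠ 0 := by
        exact_mod_cast Nat.card_pos.ne'
      rw [h3]
      field_simp
    rw [h2, Matrix.det_mul, Matrix.det_diagonal, mul_comm]

end EV

end Pool.Agent.SY
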