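import Pool.Agent.Lib_helper29.SY.Defs
import Pool.Agent.Lib_helper17.RS.P_UP1
import Pool.Agent.Lib_helper17.RS.P_UP2
import Pool.Agent.Lib_helper17.RS.P_BE

/-!
# Project SY, block NM: norms of units
-/

set_option autoImplicit false
set_option linter.unusedSectionVars false

namespace Pool.Agent.SY

open Pool.Agent.RSK Pool.Agent.RS2 Pool.Agent.RS3
open NumberField IsDedekindDomain Filter Topology Complex

section NM

variable {F K L : Type} [Field F] [NumberField F] [Field K]
  [NumberField K] [Field L] [NumberField L] [Algebra F K]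
  [Algebra F L] [Algebra K L] [IsScalarTower F K L] [IsGalois K L]

theorem nm_lg_prod (P : Pl L) {A : Type} (s : Finset A) (f : A → Lˣ) :
    lg P ((∏ d ∈ s, f d : Lˣ) : L) = ∑ d ∈ s, lg P (f d : L) := by
  classical
  induction s using Finset.induction_on with
  | empty => simp [lg_one]
  | insert a s ha ih =>
    rw [Finset.prod_insert ha, Finset.sum_insert ha, Units.val_mul, lg_mul _ (f a).ne_zero
      (Units.ne_zero _), ih]

theorem norm_lay (S T : Finset (HeightOneSpectrum (𝓞 F))) (u : Lˣ)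
    (hu : u ∈ Un (ovr L S) (ovr L T)) : ∃ v : Kˣ, v ∈ Un (ovr K S) (ovr K T) ∧
      (algebraMap K L (v : K) = ∏ d : L ≃ₐ[K] L, d (u : L)) ∧
      ∀ P : Pl L, (Nat.card {d : L ≃ₐ[K] L // act d P = P} : ℝ) * lg (dn K P) (v : K) =
        ∑ d : L ≃ₐ[K] L, lg (act d P) (u : L) := by
  classical
  have hfd : FiniteDimensional K L := Module.Finite.of_restrictScalars_finite ℚ K L
  let v : Kˣ := Units.map (Algebra.norm K : L →* K) u
  have h1 : algebraMap K L (v : K) = ∏ d : L ≃ₐ[K] L, d (u : L) := by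
    show algebraMap K L (Algebra.norm K (u : L)) = _
    exact Algebra.norm_eq_prod_automorphisms K (u : L)
  have h2 : Units.map (algebraMap K L : K →* L) v = ∏ d : L ≃ₐ[K] L, d • u := by
    apply Units.ext
    rw [Units.coe_map, Units.coe_prod]
    exact h1
  have h3 : ∀ d : L ≃ₐ[K] L, d • u ∈ Un (ovr L S) (ovr L T) := by
    intro d
    exact un_smul (d.restrictScalars F) hu
  refine ⟨v, ?_, h1, fun P => ?_⟩
  · rw [← un_map (H := L), ovr_ovr, ovr_ovr, h2]
    exact Subgroup.prod_mem _ fun d _ => h3 d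
  · rw [← lg_gal, h1]
    have h4 : (∏ d : L ≃ₐ[K] L, d (u : L)) = ((∏ d : L ≃ₐ[K] L, d • u : Lˣ) : L) := by
      rw [Units.coe_prod]
      rfl
    rw [h4, nm_lg_prod, ← Equiv.sum_comp (Equiv.inv (L ≃ₐ[K] L))]
    refine Finset.sum_congr rfl fun d _ => ?_
    have h5 := lg_act d⁻¹ (act d P) (u : L)
    rw [← act_mul, inv_mul_cancel, act_one] at h5
    exact h5

end NM

end Pool.Agent.SY
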