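import Pool.Agent.Lib_helper29.SY.DefsS

set_option autoImplicit false
set_option linter.unusedSectionVars false

namespace Pool.Agent.SY

open Equiv.Perm
open scoped BigOperators

theorem or_burn {Γ Y : Type} [Group Γ] [Fintype Γ] [Finite Y] (σ : Γ →* Equiv.Perm Y) :
    ∑ γ, Nat.card {y // σ γ y = y} = Nat.card (Pool.Agent.RS3.Orb σ) * Fintype.card Γ := by
  classical
  have := Fintype.ofFinite Y
  let act : MulAction Γ Y :=
    { smul := fun γ y => σ γ y
      one_smul := fun y => by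
        show σ 1 y = y
        rw [map_one]; rfl
      mul_smul := fun a b y => by
        show σ (a * b) y = σ a (σ b y)
        rw [map_mul]; rfl }
  have h := MulAction.sum_card_fixedBy_eq_card_orbits_mul_card_group Γ Y
  have e1 : ∀ γ : Γ, Fintype.card (MulAction.fixedBy Y γ) = Nat.card {y // σ γ y = y} := by
    intro γ
    rw [← Nat.card_eq_fintype_card]
    exact Nat.card_congr (Equiv.refl _)
  have e2 : Fintype.card (Quotient (MulAction.orbitRel Γ Y)) =
      Nat.card (Pool.Agent.RS3.Orb σ) := by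
    rw [← Nat.card_eq_fintype_card]
    refine Nat.card_congr (Quotient.congr (Equiv.refl Y) fun a b => ?_)
    show (∃ γ : Γ, σ γ b = a) ↔ ∃ γ : Γ, σ γ a = b
    constructor
    · rintro ⟨γ, rfl⟩
      exact ⟨γ⁻¹, by rw [map_inv]; exact (σ γ).symm_apply_apply b⟩
    · rintro ⟨γ, rfl⟩
      exact ⟨γ⁻¹, by rw [map_inv]; exact (σ γ).symm_apply_apply a⟩
  rw [e2] at h
  rw [← h]
  exact Finset.sum_congr rfl fun γ _ => (e1 γ).symm

/-- OR. Burnside: the numbers of orbits of `Y` and `Y'` are the same if the permutation characters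
differ by the character induced from a nontrivial `ψ` (`∑_γ indG j ψ γ = #Γ (#B)⁻¹ ∑_b ψ(b) = 0`). -/
theorem orb_ind {Γ B Y Y' : Type} [Group Γ] [Group B] [Finite Γ] [Finite B] [Finite Y] [Finite Y']
    (j : B →* Γ) (ψ : B →* ℂˣ) (hψ : ψ ≠ 1) (σ : Γ →* Equiv.Perm Y) (σ' : Γ →* Equiv.Perm Y')
    (hcf : ∀ γ, (Nat.card {y // σ γ y = y} : ℂ) = Nat.card {y // σ' γ y = y} + indG j ψ γ) :
    Nat.card (Pool.Agent.RS3.Orb σ) = Nat.card (Pool.Agent.RS3.Orb σ') := by
  classical
  have := Fintype.ofFinite Γ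
  have := Fintype.ofFinite B
  have h0 : ∑ b : B, ((ψ b : ℂˣ) : ℂ) = 0 := by
    have hne : (Units.coeHom ℂ).comp ψ ≠ 1 := by
      intro h
      apply hψ
      ext b
      have := DFunLike.congr_fun h b
      simpa using this
    have := sum_hom_units_eq_zero ((Units.coeHom ℂ).comp ψ) hne
    simpa using this
  have h1 : ∑ γ, indG j ψ γ = 0 := by
    have := indG_sum j ψ (fun _ => 1) (fun _ _ => rfl)
    simp only [mul_one] at this
    rw [this, h0]
    simp
  have h2 : (∑ γ, (Nat.card {y // σ γ y = y} : ℂ)) = ∑ γ, (Nat.card {y // σ' γ y = y} : ℂ) := by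
    rw [Finset.sum_congr rfl fun γ _ => hcf γ, Finset.sum_add_distrib, h1, add_zero]
  have h3 : ∑ γ, Nat.card {y // σ γ y = y} = ∑ γ, Nat.card {y // σ' γ y = y} := by
    exact_mod_cast h2
  rw [or_burn, or_burn] at h3
  exact Nat.eq_of_mul_eq_mul_right Fintype.card_pos h3

end Pool.Agent.SY
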