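import Pool.Agent.Lib_helper29.SY.P_ST1
import Pool.Agent.Lib_helper29.SY.DefsS
import Pool.Agent.Lib_helper29.SY.Defs
import Pool.Agent.Lib_helper29.SY.DT
import Pool.Agent.Lib_helper49.RT.Amp
import Pool.Agent.Lib_helper29.SY.P_AR
import Pool.Agent.Lib_helper29.SY.P_EV
import Pool.Agent.Lib_helper29.SY.P_GA
import Pool.Agent.Lib_helper29.SY.P_GB
import Pool.Agent.Lib_helper29.SY.P_NM
import Pool.Agent.Lib_helper29.SY.P_OR

/-!
# Project SY, block ST: the stable theorem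
-/

set_option autoImplicit false
set_option linter.unusedSectionVars false

namespace Pool.Agent.SY

open Pool.Agent.RSK Pool.Agent.RS2 Pool.Agent.RS3 Pool.Agent.RT
open NumberField IsDedekindDomain Filter Topology Complex
open scoped TensorProduct

section STABLE

variable {F₀ F K L : Type} [Field F₀] [NumberField F₀] [Field F] [NumberField F] [Field K]
  [NumberField K] [Field L] [NumberField L] [Algebra F₀ F] [Algebra F₀ L] [Algebra F K]
  [Algebra F L] [Algebra K L] [IsScalarTower F₀ F L] [IsScalarTower F K L] [IsGalois F₀ L]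
  [IsGalois F K] [IsGalois F L] [IsGalois K L]
  {G : Type} [CommGroup G] [Fintype G] {S₀ T₀ : Finset (HeightOneSpectrum (𝓞 F₀))}
  {r : ℕ} {fr : HeightOneSpectrum (𝓞 F) → G}

theorem st_inS (Q : PS (ovr L S₀)) : InS (ovr F S₀) (dn F Q.pl) := by
  rcases Q with v | v
  · trivial
  · show v.1.under (𝓞 F) ∈ ovr F S₀
    rw [mem_ovr, tw_under]
    exact mem_ovr.1 v.2

theorem st_lift {W : Pl L} (hW : InS (ovr F S₀) (dn F W)) :
    ∃ Q : PS (ovr L S₀), Q.pl = W := by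
  rcases W with v | v
  · exact ⟨Sum.inl v, rfl⟩
  · have h1 : v.under (𝓞 F) ∈ ovr F S₀ := hW
    rw [mem_ovr, tw_under] at h1
    exact ⟨Sum.inr ⟨v, mem_ovr.2 h1⟩, rfl⟩

/-- the entries of the regulator matrix -/
theorem st_entry {ι : G ≃* (K ≃ₐ[F] K)} {π : (L ≃ₐ[F] L) →* G}
    (hπ : ∀ (σ : L ≃ₐ[F] L) (x : K), σ (algebraMap K L x) = algebraMap K L (ι (π σ) x))
    {χ : G →* ℂˣ} (W : Pl L) (u : Lˣ) (v : Kˣ)
    (huv : ∀ P : Pl L, (Nat.card {d : L ≃ₐ[K] L // act d P = P} : ℝ) * lg (dn K P) (v : K) =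
        ∑ d : L ≃ₐ[K] L, lg (act d P) (u : L)) :
    (Nat.card π.ker : ℂ) * ((Nat.card {d : L ≃ₐ[K] L // act d W = W} : ℂ) *
      ∑ g : G, ((lg (act (ι g) (dn K W)) (v : K) : ℝ) : ℂ) * (χ g : ℂ)) =
      (Nat.card (L ≃ₐ[K] L) : ℂ) *
        ∑ b : L ≃ₐ[F] L, ((χ (π b) : ℂˣ) : ℂ) * ((lg (act b W) (u : L) : ℝ) : ℂ) := by
  classical
  have hfd : FiniteDimensional K L := Module.Finite.of_restrictScalars_finite ℚ K L
  have h1 := st_fib (st_surj hπ) (fun g : G =>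
    (Nat.card {d : L ≃ₐ[K] L // act d W = W} : ℂ) *
      (((lg (act (ι g) (dn K W)) (v : K) : ℝ) : ℂ) * (χ g : ℂ)))
  rw [Finset.mul_sum Finset.univ _ (Nat.card {d : L ≃ₐ[K] L // act d W = W} : ℂ), ← h1]
  have h2 : ∀ b : L ≃ₐ[F] L, (Nat.card {d : L ≃ₐ[K] L // act d W = W} : ℂ) *
      (((lg (act (ι (π b)) (dn K W)) (v : K) : ℝ) : ℂ) * (χ (π b) : ℂ)) =
      ∑ d : L ≃ₐ[K] L, ((χ (π b) : ℂˣ) : ℂ) *
        ((lg (act (d.restrictScalars F * b) W) (u : L) : ℝ) : ℂ) := by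
    intro b
    have h3 := huv (act b W)
    rw [st_card hπ, st_dn_act (hπ b)] at h3
    have h4 : (Nat.card {d : L ≃ₐ[K] L // act d W = W} : ℂ) *
        ((lg (act (ι (π b)) (dn K W)) (v : K) : ℝ) : ℂ) =
        ∑ d : L ≃ₐ[K] L, ((lg (act d (act b W)) (u : L) : ℝ) : ℂ) := by
      exact_mod_cast h3
    rw [← mul_assoc, h4, ← Finset.mul_sum, mul_comm]
    congr 1
    refine Finset.sum_congr rfl fun d _ => ?_
    rw [act_mul, act_restrict]
  rw [Finset.sum_congr rfl fun b _ => h2 b, Finset.sum_comm]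
  have h5 : ∀ d : L ≃ₐ[K] L, (∑ b : L ≃ₐ[F] L, ((χ (π b) : ℂˣ) : ℂ) *
        ((lg (act (d.restrictScalars F * b) W) (u : L) : ℝ) : ℂ)) =
      ∑ b : L ≃ₐ[F] L, ((χ (π b) : ℂˣ) : ℂ) * ((lg (act b W) (u : L) : ℝ) : ℂ) := by
    intro d
    refine Fintype.sum_equiv (Equiv.mulLeft (d.restrictScalars F)) _ _ fun b => ?_
    rw [Equiv.coe_mulLeft, map_mul, st_ker hπ, one_mul]
  rw [Finset.sum_congr rfl fun d _ => h5 d, Finset.sum_const, nsmul_eq_mul, Finset.card_univ,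
    Nat.card_eq_fintype_card]

theorem stable_lay [IsCyclic G] (hG : Nontrivial G) {ι : G ≃* (K ≃ₐ[F] K)} {w : Fin r → Pl K}
    {Y Y' : Type} [Finite Y] [Finite Y'] (σ : (L ≃ₐ[F₀] L) →* Equiv.Perm Y)
    (σ' : (L ≃ₐ[F₀] L) →* Equiv.Perm Y') {χ₀ : G →* ℂˣ} (hχ₀ : Function.Injective χ₀)
    {π : (L ≃ₐ[F] L) →* G}
    (hπ : ∀ (σ : L ≃ₐ[F] L) (x : K), σ (algebraMap K L x) = algebraMap K L (ι (π σ) x))
    (hcf : ∀ γ, (Nat.card {y // σ γ y = y} : ℂ) = Nat.card {y // σ' γ y = y} +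
      indG (rsg F₀ F L) (χ₀.comp π) γ)
    (hST : Disjoint S₀ T₀) (htf : TFree (ovr L S₀) (ovr L T₀))
    (hun : ∀ W : HeightOneSpectrum (𝓞 L), W.under (𝓞 F₀) ∉ S₀ →
      Algebra.IsUnramifiedAt (𝓞 F₀) W.asIdeal)
    (hD : DataW ι (ovr F S₀) (ovr F T₀) r w fr) :
    RCore ι (ovr F S₀) (ovr F T₀) w fr := by
  classical
  have hfd : FiniteDimensional K L := Module.Finite.of_restrictScalars_finite ℚ K L
  obtain ⟨M, N, hM⟩ := fx_exists (F₀ := F₀) (H := L) hST htf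
  have hN0 : (N : ℚ) ≠ 0 := Nat.cast_ne_zero.2 hM.pos.ne'
  set κ := acH L S₀ with hκ
  set jB := rsg F₀ F L with hjB
  set Mc : Matrix (PS (ovr L S₀)) (PS (ovr L S₀)) ℂ := M.map (algebraMap ℝ ℂ) with hMc
  have hMcI : MIv κ Mc := ti_miv hM.inv
  have hsurj := st_surj hπ
  have hact : ∀ (b : L ≃ₐ[F] L) (Q : PS (ovr L S₀)), (κ (jB b) Q).pl = act b Q.pl := by
    intro b Q
    rw [hκ, acH_pl]
    exact act_restrict b Q.pl
  -- the class functions
  have hcf' : ∀ χ : G →* ℂˣ, Function.Injective χ → ∀ γ, (Nat.card {y // σ γ y = y} : ℂ) =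
      Nat.card {y // σ' γ y = y} + indG jB (χ.comp π) γ := by
    intro χ hχ γ
    have h1 : indG jB (χ₀.comp π) γ = (((Nat.card {y // σ γ y = y} : ℚ) -
        (Nat.card {y // σ' γ y = y} : ℚ) : ℚ) : ℂ) := by
      push_cast
      rw [hcf γ]
      ring
    rw [inj_ind jB π hχ₀ hχ γ _ h1]
    push_cast
    ring
  -- the places
  have hW₁ : ∀ i, ∃ W : Pl L, dn K W = w i := fun i => dn_surj (w i)
  choose W hW using hW₁
  have hW₂ : ∀ i, ∃ Q : PS (ovr L S₀), Q.pl = W i := fun i => st_lift (F := F) (by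
    rw [← dn_dn (F := K), hW]
    exact hD.mem i)
  choose w' hw' using hW₂
  have h1 : ∀ (χ : G →* ℂˣ) i (b : L ≃ₐ[F] L), (κ.comp jB) b (w' i) = w' i →
      (χ.comp π) b = 1 := by
    intro χ i b h
    have h2 := congrArg PS.pl h
    rw [MonoidHom.comp_apply, hact, hw'] at h2
    have h3 := congrArg (dn K) h2
    rw [st_dn_act (hπ b), hW] at h3
    have h4 := hD.split i _ h3
    have h5 : π b = 1 := by
      apply ι.injective
      rw [h4, map_one]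
    rw [MonoidHom.comp_apply, h5, map_one]
  have h2 : ∀ i i' (b : L ≃ₐ[F] L), (κ.comp jB) b (w' i) = w' i' → i = i' := by
    intro i i' b h
    have h3 := congrArg PS.pl h
    rw [MonoidHom.comp_apply, hact, hw', hw'] at h3
    refine hD.inj i i' ?_
    rw [← hW i, ← hW i', dn_dn, dn_dn, ← h3, dn_act]
  have h3 : ∀ χ : G →* ℂˣ, Function.Injective χ → ∀ ω : PS (ovr L S₀),
      (∀ b, (κ.comp jB) b ω = ω → (χ.comp π) b = 1) → ∃ i b, ω = (κ.comp jB) b (w' i) := by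
    intro χ hχ ω hω
    have hs : ∀ τ : K ≃ₐ[F] K, act τ (dn K ω.pl) = dn K ω.pl → τ = 1 := by
      intro τ hτ
      obtain ⟨b, hb⟩ := hsurj (ι.symm τ)
      have hb' : ι (π b) = τ := by rw [hb, MulEquiv.apply_symm_apply]
      have h4 : dn K (act b ω.pl) = dn K ω.pl := by rw [st_dn_act (hπ b), hb', hτ]
      obtain ⟨d, hd⟩ := act_trans (F := K) h4
      have h5 := hω (d.restrictScalars F * b) (PS_ext (by
        rw [MonoidHom.comp_apply, hact, act_mul, act_restrict, hd]))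
      rw [MonoidHom.comp_apply, map_mul, st_ker hπ, one_mul] at h5
      have h6 : π b = 1 := hχ (by rw [h5, map_one])
      rw [← hb', h6, map_one]
    obtain ⟨i, hi⟩ := hD.all (dn K ω.pl) (by rw [dn_dn]; exact st_inS ω) hs
    rw [← hW i, dn_dn, dn_dn] at hi
    obtain ⟨b, hb⟩ := act_trans (F := F) hi.symm
    refine ⟨i, b, PS_ext ?_⟩
    rw [MonoidHom.comp_apply, hact, hw', hb]
  -- the determinants
  have hdY : dtY κ M σ ≠ 0 := stk_dtY_ne hM σ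
  have hdY' : dtY κ M σ' ≠ 0 := stk_dtY_ne hM σ'
  set A : (G →* ℂˣ) → Matrix (Fin r) (Fin r) ℂ := fun χ =>
    Matrix.of fun i j : Fin r => ∑ b : L ≃ₐ[F] L, (((χ.comp π) b : ℂˣ) : ℂ) *
      Mc ((κ.comp jB) b (w' i)) (w' j) with hA
  set s₀ : ℚ := ∏ j, (Nat.card (stb (κ.comp jB) (w' j)) : ℚ) with hs₀
  have hs₀0 : s₀ ≠ 0 := Finset.prod_ne_zero_iff.2 fun j _ => by
    exact_mod_cast Nat.card_pos.ne'
  have hdet : ∀ χ : G →* ℂˣ, Function.Injective χ →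
      ((dtY κ M σ : ℝ) : ℂ) * s₀ = ((dtY κ M σ' : ℝ) : ℂ) * (A χ).det ∧
      Module.finrank ℂ (WY ℂ κ σ) = Module.finrank ℂ (WY ℂ κ σ') + r := by
    intro χ hχ
    have h4 := dt_main hMcI jB (χ.comp π) σ σ' (hcf' χ hχ)
    have h5 := ev_det (κ := κ.comp jB) (M := Mc) (fun b x y => hMcI (jB b) x y) (χ.comp π) w'
      (h1 χ) h2 (h3 χ hχ)
    rw [h5.1] at h4
    refine ⟨?_, h4.2⟩
    rw [ti_dtY κ hM.inv σ, ti_dtY κ hM.inv σ', h4.1]
    have h6 : (A χ).det = (s₀ : ℂ) * LinearMap.det ((Matrix.mulVecLin Mc).restrict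
        (tg_stable (κ := κ.comp jB) (χ := (χ.comp π)⁻¹) (fun b x y => hMcI (jB b) x y))) := by
      rw [hs₀]
      push_cast
      exact h5.2
    rw [h6]
    ring
  -- the zeta functions
  obtain ⟨n, q, Z, hq, hZ1, hn, hZ2, hZ3⟩ := zY_lead hST htf hM σ
  obtain ⟨n', q', Z', hq', hZ1', hn', hZ2', hZ3'⟩ := zY_lead hST htf hM σ'
  have hnontriv : χ₀.comp π ≠ 1 := by
    intro h
    obtain ⟨g, hg⟩ := exists_ne (1 : G)
    obtain ⟨b, hb⟩ := hsurj g
    apply hg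
    apply hχ₀
    have h4 := DFunLike.congr_fun h b
    rw [MonoidHom.comp_apply, hb] at h4
    rw [h4, map_one]
    rfl
  have horb := orb_ind jB (χ₀.comp π) hnontriv σ σ' hcf
  have hfin := (hdet χ₀ hχ₀).2
  have e : ∀ {Y : Type} [Finite Y] (σ : (L ≃ₐ[F₀] L) →* Equiv.Perm Y),
      Module.finrank ℂ (WY ℂ κ σ) = ∑ᶠ o : Orb σ, Module.finrank ℝ (ivt ℝ κ (ost σ o)) := by
    intro Y _ σ
    rw [(dtW_eq κ hMcI σ).2.2]
    exact finsum_congr fun o => (dt_base κ hM.inv (ost σ o)).2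
  rw [e, e] at hfin
  have hnn : n = r + n' := by
    rw [hκ] at hfin
    omega
  subst hnn
  have hqR : (q : ℝ) ≠ 0 := Rat.cast_ne_zero.2 hq
  have hqR' : (q' : ℝ) ≠ 0 := Rat.cast_ne_zero.2 hq'
  set c₀ : ℝ := q * dtY κ M σ / (q' * dtY κ M σ') with hc₀
  have hc₀0 : c₀ ≠ 0 := div_ne_zero (mul_ne_zero hqR hdY) (mul_ne_zero hqR' hdY')
  have hlead : Tendsto (fun s : ℂ => (Z s / Z' s) / s ^ r) (𝓝[≠] 0) (𝓝 ((c₀ : ℝ) : ℂ)) := by
    rw [hc₀, Complex.ofReal_div]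
    exact stk_div (Complex.ofReal_ne_zero.2 (mul_ne_zero hqR' hdY')) hZ3 hZ3'
  refine ⟨fun _ => ((c₀ : ℝ) : ℂ), ?_, fun _ _ => Complex.ofReal_ne_zero.2 hc₀0, ?_⟩
  · intro χ hχ
    refine ⟨fun s => Z s / Z' s, hZ1.div hZ1', fun s hs => ?_, hlead⟩
    have h4 := art_lay (T₀ := T₀) hπ σ σ' (hcf' χ hχ) hST hun hD.frob hs
    show Z s / Z' s = _
    rw [hZ2 s hs, hZ2' s hs, h4, mul_div_cancel_right₀ _ (stk_zY_ne σ' hs)]
  · -- the units
    have hu : ∀ j, ∃ (u : Lˣ) (s : ℝ), u ∈ Un (ovr L S₀) (ovr L T₀) ∧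
        ∀ P : PS (ovr L S₀), (N : ℝ) * M P (w' j) = lg P.pl (u : L) + s := by
      intro j
      obtain ⟨u, hu, s, hs⟩ := hM.int (Pi.single (w' j) 1)
      refine ⟨u, s, hu, fun P => ?_⟩
      rw [← hs P, Finset.sum_eq_single (w' j)]
      · rw [Pi.single_eq_same, Int.cast_one, mul_one]
      · intro Q _ hQ
        rw [Pi.single_eq_of_ne hQ, Int.cast_zero, mul_zero]
      · intro h
        exact absurd (Finset.mem_univ _) h
    choose u s hu hs using hu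
    have hv : ∀ j, ∃ v : Kˣ, v ∈ Un (ovr K (ovr F S₀)) (ovr K (ovr F T₀)) ∧
        ∀ P : Pl L, (Nat.card {d : L ≃ₐ[K] L // act d P = P} : ℝ) * lg (dn K P) (v : K) =
          ∑ d : L ≃ₐ[K] L, lg (act d P) (u j : L) := by
      intro j
      obtain ⟨v, hv1, -, hv2⟩ := norm_lay (K := K) (ovr F S₀) (ovr F T₀) (u j) (by
        rw [ovr_ovr, ovr_ovr]
        exact hu j)
      exact ⟨v, hv1, hv2⟩
    choose v hv1 hv2 using hv
    obtain ⟨e₀, he₀⟩ := inj_idem (G := G)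
    set kπ : ℚ := (Nat.card π.ker : ℚ) with hkπ
    have hkπ0 : kπ ≠ 0 := Nat.cast_ne_zero.2 Nat.card_pos.ne'
    set nD : ℚ := (Nat.card (L ≃ₐ[K] L) : ℚ) with hnD
    have hnD0 : nD ≠ 0 := Nat.cast_ne_zero.2 Nat.card_pos.ne'
    set m : Fin r → ℚ := fun i => (Nat.card {d : L ≃ₐ[K] L // act d (W i) = W i} : ℚ) with hm
    have hm0 : ∀ i, m i ≠ 0 := by
      intro i
      have : Nonempty {d : L ≃ₐ[K] L // act d (W i) = W i} := ⟨⟨1, act_one _⟩⟩
      show (Nat.card {d : L ≃ₐ[K] L // act d (W i) = W i} : ℚ) ≠ 0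
      exact_mod_cast Nat.card_pos.ne'
    -- the entries
    have hent : ∀ χ : G →* ℂˣ, Function.Injective χ → ∀ i j : Fin r,
        ∑ γ, ((lg (act (ι γ) (w i)) (v j : K) : ℝ) : ℂ) * (χ γ : ℂ) =
          ((nD * N / (kπ * m i) : ℚ) : ℂ) * A χ i j := by
      intro χ hχ i j
      have h4 := st_entry hπ (χ := χ) (W i) (u j) (v j) (hv2 j)
      rw [hW] at h4
      have h5 : ∑ b : L ≃ₐ[F] L, ((χ (π b) : ℂˣ) : ℂ) * ((lg (act b (W i)) (u j : L) : ℝ) : ℂ) =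
          (N : ℂ) * A χ i j := by
        have h6 : ∀ b : L ≃ₐ[F] L, ((lg (act b (W i)) (u j : L) : ℝ) : ℂ) =
            (N : ℂ) * Mc ((κ.comp jB) b (w' i)) (w' j) - (s j : ℂ) := by
          intro b
          have h7 := hs j (κ (jB b) (w' i))
          rw [hact, hw'] at h7
          have h8 : lg (act b (W i)) (u j : L) = (N : ℝ) * M (κ (jB b) (w' i)) (w' j) - s j := by
            linarith
          rw [h8]
          push_cast
          rfl
        have h9 : ∑ b : L ≃ₐ[F] L, (((χ.comp π) b : ℂˣ) : ℂ) = 0 := by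
          obtain ⟨g, hg⟩ := exists_ne (1 : G)
          obtain ⟨b₀, hb₀⟩ := hsurj g
          have h10 : ((χ g : ℂˣ) : ℂ) ≠ 1 := by
            intro h
            apply hg
            apply hχ
            rw [map_one]
            exact Units.ext h
          have h11 : ((χ g : ℂˣ) : ℂ) * ∑ b : L ≃ₐ[F] L, (((χ.comp π) b : ℂˣ) : ℂ) =
              ∑ b : L ≃ₐ[F] L, (((χ.comp π) b : ℂˣ) : ℂ) := by
            rw [Finset.mul_sum]
            refine Fintype.sum_equiv (Equiv.mulLeft b₀) _ _ fun b => ?_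
            rw [Equiv.coe_mulLeft, map_mul, Units.val_mul, MonoidHom.comp_apply χ π b₀, hb₀]
          have h12 : (((χ g : ℂˣ) : ℂ) - 1) * ∑ b : L ≃ₐ[F] L, (((χ.comp π) b : ℂˣ) : ℂ) = 0 := by
            rw [sub_mul, h11, one_mul, sub_self]
          exact (mul_eq_zero.1 h12).resolve_left (sub_ne_zero.2 h10)
        calc ∑ b : L ≃ₐ[F] L, ((χ (π b) : ℂˣ) : ℂ) * ((lg (act b (W i)) (u j : L) : ℝ) : ℂ)
            = ∑ b : L ≃ₐ[F] L, ((N : ℂ) * ((((χ.comp π) b : ℂˣ) : ℂ) *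
                Mc ((κ.comp jB) b (w' i)) (w' j)) - (s j : ℂ) * (((χ.comp π) b : ℂˣ) : ℂ)) := by
              refine Finset.sum_congr rfl fun b _ => ?_
              rw [h6]
              show ((χ (π b) : ℂˣ) : ℂ) * _ = (N : ℂ) * (((χ (π b) : ℂˣ) : ℂ) * _) -
                (s j : ℂ) * ((χ (π b) : ℂˣ) : ℂ)
              ring
          _ = _ := by
              rw [Finset.sum_sub_distrib, ← Finset.mul_sum, ← Finset.mul_sum, h9, mul_zero,
                sub_zero]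
              rfl
      rw [h5] at h4
      have hk : (Nat.card π.ker : ℂ) = (kπ : ℂ) := by rw [hkπ]; push_cast; rfl
      have hmi : (Nat.card {d : L ≃ₐ[K] L // act d (W i) = W i} : ℂ) = (m i : ℂ) := by
        rw [hm]; push_cast; rfl
      have hn' : (Nat.card (L ≃ₐ[K] L) : ℂ) = (nD : ℂ) := by rw [hnD]; push_cast; rfl
      rw [hk, hmi, hn'] at h4
      have e1 : (kπ : ℂ) ≠ 0 := Rat.cast_ne_zero.2 hkπ0
      have e2 : (m i : ℂ) ≠ 0 := Rat.cast_ne_zero.2 (hm0 i)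
      push_cast
      rw [div_mul_eq_mul_div, eq_div_iff (mul_ne_zero e1 e2)]
      linear_combination h4
    set Q : ℚ := ∏ i, (nD * N / (kπ * m i)) with hQ
    have hQ0 : Q ≠ 0 := Finset.prod_ne_zero_iff.2 fun i _ =>
      div_ne_zero (mul_ne_zero hnD0 hN0) (mul_ne_zero hkπ0 (hm0 i))
    have hreg : ∀ χ : G →* ℂˣ, Function.Injective χ →
        evR χ (wmat ι (ovr F S₀) (ovr F T₀) w (fun j => UM.mk (v j) (hv1 j))).det =
          (Q : ℂ) * (A χ).det := by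
      intro χ hχ
      rw [RSK.rf1_ev]
      have h4 : (Matrix.of fun i j : Fin r => ∑ γ, ((lg (act (ι γ) (w i))
          ((UM.mk (v j) (hv1 j) : UM ι (ovr F S₀) (ovr F T₀)).val : K) : ℝ) : ℂ) * (χ γ : ℂ)) =
          Matrix.diagonal (fun i => ((nD * N / (kπ * m i) : ℚ) : ℂ)) * A χ := by
        ext i j
        rw [Matrix.diagonal_mul, Matrix.of_apply, UM.val_mk]
        exact hent χ hχ i j
      rw [h4, Matrix.det_mul, Matrix.det_diagonal, hQ]
      push_cast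
      rfl
    refine ⟨fun j => UM.mk (v j) (hv1 j), MonoidAlgebra.single 1 (q / q' / (s₀ * Q)) * e₀,
      fun χ hχ => ?_, fun χ hχ => ?_⟩
    · rw [map_mul, (he₀ χ).2 hχ, mul_zero]
    · rw [map_mul, (he₀ χ).1 hχ, mul_one, cs_evQ_single, hreg χ hχ]
      have h4 := (hdet χ hχ).1
      have e1 : ((dtY κ M σ' : ℝ) : ℂ) ≠ 0 := Complex.ofReal_ne_zero.2 hdY'
      have e2 : (q' : ℂ) ≠ 0 := Rat.cast_ne_zero.2 hq'
      have e3 : (s₀ : ℂ) ≠ 0 := Rat.cast_ne_zero.2 hs₀0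
      have e4 : (Q : ℂ) ≠ 0 := Rat.cast_ne_zero.2 hQ0
      have h5 : (A χ).det = ((dtY κ M σ : ℝ) : ℂ) * s₀ / ((dtY κ M σ' : ℝ) : ℂ) := by
        rw [h4, mul_div_cancel_left₀ _ e1]
      rw [h5, hc₀]
      push_cast
      field_simp

end STABLE

end Pool.Agent.SY
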