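import Pool.Agent.Lib_helper29.SY.P_NM
import Pool.Agent.Lib_helper29.SY.P_EV
import Pool.Agent.Lib_helper35.RS3.P_STK

/-!
# Project SY, block ST: the places
-/

set_option autoImplicit false
set_option linter.unusedSectionVars false

namespace Pool.Agent.SY

open Pool.Agent.RSK Pool.Agent.RS2 Pool.Agent.RS3
open NumberField IsDedekindDomain Filter Topology Complex

section PLC

variable {F K L : Type} [Field F] [NumberField F] [Field K]
  [NumberField K] [Field L] [NumberField L] [Algebra F K]
  [Algebra F L] [Algebra K L] [IsScalarTower F K L]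

/-- places and restriction -/
theorem st_dn_act {σ : L ≃ₐ[F] L} {τ : K ≃ₐ[F] K}
    (h : ∀ x : K, σ (algebraMap K L x) = algebraMap K L (τ x)) (W : Pl L) :
    dn K (act σ W) = act τ (dn K W) := by
  have hsymm : ∀ x : K, σ.symm (algebraMap K L x) = algebraMap K L (τ.symm x) := by
    intro x
    rw [AlgEquiv.symm_apply_eq, h, AlgEquiv.apply_symm_apply]
  rcases W with w | w
  · show Sum.inl ((σ • w).comap (algebraMap K L)) = Sum.inl (τ • w.comap (algebraMap K L))
    congr 1
    ext x
    rw [InfinitePlace.comap_apply, InfinitePlace.smul_apply, InfinitePlace.smul_apply,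
      InfinitePlace.comap_apply, hsymm]
  · show Sum.inr _ = Sum.inr _
    congr 1
    ext x
    show (RingOfIntegers.mapRingEquiv σ.toRingEquiv).symm (algebraMap (𝓞 K) (𝓞 L) x) ∈
      w.asIdeal ↔ algebraMap (𝓞 K) (𝓞 L)
        ((RingOfIntegers.mapRingEquiv τ.toRingEquiv).symm x) ∈ w.asIdeal
    have h1 : (RingOfIntegers.mapRingEquiv σ.toRingEquiv).symm (algebraMap (𝓞 K) (𝓞 L) x) =
        algebraMap (𝓞 K) (𝓞 L) ((RingOfIntegers.mapRingEquiv τ.toRingEquiv).symm x) := by
      apply RingOfIntegers.ext
      exact hsymm (x : K)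
    rw [h1]

variable {G : Type} [CommGroup G] [Fintype G] {ι : G ≃* (K ≃ₐ[F] K)} {π : (L ≃ₐ[F] L) →* G}
  [IsGalois F L] [IsGalois F K] [IsGalois K L]

theorem st_surj (hπ : ∀ (σ : L ≃ₐ[F] L) (x : K), σ (algebraMap K L x) =
    algebraMap K L (ι (π σ) x)) : Function.Surjective π := by
  intro g
  refine ⟨(ι g).liftNormal L, ?_⟩
  apply ι.injective
  ext x
  apply (algebraMap K L).injective
  rw [← hπ]
  exact AlgEquiv.liftNormal_commutes (ι g) L x

theorem st_ker (hπ : ∀ (σ : L ≃ₐ[F] L) (x : K), σ (algebraMap K L x) =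
    algebraMap K L (ι (π σ) x)) (d : L ≃ₐ[K] L) : π (d.restrictScalars F) = 1 := by
  apply ι.injective
  ext x
  apply (algebraMap K L).injective
  rw [← hπ, map_one]
  exact d.commutes x

/-- the order of the decomposition group in `Gal(L/K)` is the same for conjugate places -/
theorem st_card (hπ : ∀ (σ : L ≃ₐ[F] L) (x : K), σ (algebraMap K L x) =
    algebraMap K L (ι (π σ) x)) (b : L ≃ₐ[F] L) (P : Pl L) :
    Nat.card {d : L ≃ₐ[K] L // act d (act b P) = act b P} =
      Nat.card {d : L ≃ₐ[K] L // act d P = P} := by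
  have hfd : FiniteDimensional K L := Module.Finite.of_restrictScalars_finite ℚ K L
  have key : ∀ (b : L ≃ₐ[F] L) (P : Pl L),
      Nat.card {d : L ≃ₐ[K] L // act d (act b P) = act b P} ≤
        Nat.card {d : L ≃ₐ[K] L // act d P = P} := by
    intro b P
    have hc : ∀ d : L ≃ₐ[K] L, ∀ x : K, (b⁻¹ * d.restrictScalars F * b) (algebraMap K L x) =
        algebraMap K L x := by
      intro d x
      have hp : π (b⁻¹ * d.restrictScalars F * b) = 1 := by
        rw [map_mul, map_mul, st_ker hπ, mul_one, map_inv, inv_mul_cancel]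
      rw [hπ, hp, map_one]
      rfl
    let f : (L ≃ₐ[K] L) → (L ≃ₐ[K] L) := fun d =>
      AlgEquiv.ofRingEquiv (f := (b⁻¹ * d.restrictScalars F * b).toRingEquiv) (hc d)
    have hf : ∀ d, (f d).restrictScalars F = b⁻¹ * d.restrictScalars F * b := by
      intro d
      ext x
      rfl
    refine Nat.card_le_card_of_injective
      (fun d => (⟨f d.1, ?_⟩ : {d : L ≃ₐ[K] L // act d P = P})) ?_
    · rw [← act_restrict (F₀ := F) (f d.1) P, hf, act_mul, act_mul,
        act_restrict (F₀ := F) d.1 (act b P), d.2, ← act_mul, inv_mul_cancel, act_one]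
    · intro d d' h
      have h1 : f d.1 = f d'.1 := congrArg Subtype.val h
      have h2 : b⁻¹ * d.1.restrictScalars F * b = b⁻¹ * d'.1.restrictScalars F * b := by
        rw [← hf, ← hf, h1]
      have h3 : d.1.restrictScalars F = d'.1.restrictScalars F := by
        have := congrArg (fun z => b * z * b⁻¹) h2
        simpa [mul_assoc] using this
      exact Subtype.ext (AlgEquiv.restrictScalars_injective F h3)
  refine le_antisymm (key b P) ?_
  have h := key b⁻¹ (act b P)
  rwa [← act_mul, inv_mul_cancel, act_one] at h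

/-- sums over the fibres of a surjective homomorphism -/
theorem st_fib {A C : Type} [Group A] [Fintype A] [Group C] [Fintype C] {φ : A →* C}
    (hφ : Function.Surjective φ) (h : C → ℂ) :
    ∑ a : A, h (φ a) = (Nat.card φ.ker : ℂ) * ∑ c : C, h c := by
  classical
  rw [← Finset.sum_fiberwise (s := Finset.univ) (g := φ) (f := fun a => h (φ a)), Finset.mul_sum]
  refine Finset.sum_congr rfl fun c _ => ?_
  have h1 : ∑ a ∈ Finset.univ.filter (fun a => φ a = c), h (φ a) =
      ∑ a ∈ Finset.univ.filter (fun a => φ a = c), h c :=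
    Finset.sum_congr rfl fun a ha => by rw [(Finset.mem_filter.1 ha).2]
  rw [h1, Finset.sum_const, nsmul_eq_mul]
  congr 1
  obtain ⟨a₀, ha₀⟩ := hφ c
  have h2 : (Finset.univ.filter (fun a => φ a = c)).card = Nat.card φ.ker := by
    rw [← Fintype.card_subtype, ← Nat.card_eq_fintype_card]
    refine Nat.card_congr
      { toFun := fun a => ⟨a₀⁻¹ * a.1, by rw [MonoidHom.mem_ker, map_mul, map_inv, a.2, ha₀,
          inv_mul_cancel]⟩
        invFun := fun k => ⟨a₀ * k.1, by rw [map_mul, (MonoidHom.mem_ker.1 k.2), mul_one, ha₀]⟩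
        left_inv := fun a => Subtype.ext (by simp)
        right_inv := fun k => Subtype.ext (by simp) }
  exact_mod_cast h2

end PLC

end Pool.Agent.SY
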