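import Pool.Agent.Lib_helper61.TB.NP

/-!
# Determinants and traces of powers
-/

set_option autoImplicit false

namespace Pool.Agent.SY

open Module Polynomial

/-- multisets are determined by their power sums (including the zeroth) -/
theorem tp_multiset {k : Type} [Field k] [CharZero k] (s t : Multiset k)
    (h : ∀ r : ℕ, (s.map (fun x => x ^ r)).sum = (t.map (fun x => x ^ r)).sum) : s = t := by
  classical
  -- all polynomials
  have hp : ∀ p : k[X], (s.map (fun x => p.eval x)).sum = (t.map (fun x => p.eval x)).sum := by
    intro p
    induction p using Polynomial.induction_on' with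
    | add p q hp hq =>
      simp only [Polynomial.eval_add, Multiset.sum_map_add]
      rw [hp, hq]
    | monomial n a =>
      simp only [Polynomial.eval_monomial, Multiset.sum_map_mul_left]
      rw [h n]
  -- counting
  have hc : ∀ (u : Multiset k) (a : k) (p : k[X]), p.eval a = 1 →
      (∀ b ∈ u, b ≠ a → p.eval b = 0) → (u.map (fun x => p.eval x)).sum = (u.count a : k) := by
    intro u a p h1
    induction u using Multiset.induction_on with
    | empty => intro _; simp
    | cons b u ih =>
      intro h0
      rw [Multiset.map_cons, Multiset.sum_cons,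
        ih (fun c hc hca => h0 c (Multiset.mem_cons_of_mem hc) hca)]
      by_cases hb : b = a
      · subst hb
        rw [h1, Multiset.count_cons_self]
        push_cast
        ring
      · rw [h0 b (Multiset.mem_cons_self b u) hb, Multiset.count_cons_of_ne (Ne.symm hb), zero_add]
  refine Multiset.ext.2 fun a => ?_
  set F : Finset k := (s + t).toFinset.erase a with hF
  set p : k[X] := ∏ b ∈ F, C ((a - b)⁻¹) * (X - C b) with hpd
  have h1 : p.eval a = 1 := by
    rw [hpd, Polynomial.eval_prod]
    refine Finset.prod_eq_one fun b hb => ?_
    rw [Polynomial.eval_mul, Polynomial.eval_C, Polynomial.eval_sub, Polynomial.eval_X,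
      Polynomial.eval_C, inv_mul_cancel₀ (sub_ne_zero.2 (Finset.ne_of_mem_erase hb).symm)]
  have h0 : ∀ b, b ∈ s + t → b ≠ a → p.eval b = 0 := by
    intro b hb hba
    rw [hpd, Polynomial.eval_prod]
    refine Finset.prod_eq_zero (i := b) ?_ ?_
    · rw [hF]
      exact Finset.mem_erase.2 ⟨hba, Multiset.mem_toFinset.2 hb⟩
    · simp
  have hs := hc s a p h1 fun b hb => h0 b (Multiset.mem_add.2 (Or.inl hb))
  have ht := hc t a p h1 fun b hb => h0 b (Multiset.mem_add.2 (Or.inr hb))
  rw [hp p, ht] at hs
  exact_mod_cast hs.symm

theorem tp_det_roots {k V : Type} [Field k] [IsAlgClosed k] [AddCommGroup V] [Module k V]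
    [FiniteDimensional k V] (A : End k V) : LinearMap.det A = A.charpoly.roots.prod := by
  classical
  let b := Module.finBasis k V
  rw [← LinearMap.det_toMatrix b A, ← LinearMap.charpoly_toMatrix A b,
    Matrix.det_eq_prod_roots_charpoly]

theorem tp_card_roots {k V : Type} [Field k] [IsAlgClosed k] [AddCommGroup V] [Module k V]
    [FiniteDimensional k V] (A : End k V) : A.charpoly.roots.card = finrank k V := by
  rw [← (IsAlgClosed.splits A.charpoly).natDegree_eq_card_roots, LinearMap.charpoly_natDegree]

/-- If the traces of all powers of `A` are the sums of those of `A'` and `D`, then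
`det A = det A' det D`. -/
theorem tp_det {k V V' W : Type} [Field k] [CharZero k] [IsAlgClosed k] [AddCommGroup V]
    [Module k V] [FiniteDimensional k V] [AddCommGroup V'] [Module k V'] [FiniteDimensional k V']
    [AddCommGroup W] [Module k W] [FiniteDimensional k W] (A : End k V) (A' : End k V')
    (D : End k W)
    (h : ∀ r : ℕ, LinearMap.trace k V (A ^ r) =
      LinearMap.trace k V' (A' ^ r) + LinearMap.trace k W (D ^ r)) :
    LinearMap.det A = LinearMap.det A' * LinearMap.det D ∧
      finrank k V = finrank k V' + finrank k W := by
  have h1 : A.charpoly.roots = A'.charpoly.roots + D.charpoly.roots := by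
    apply tp_multiset
    intro r
    rw [Multiset.map_add, Multiset.sum_add, ← TB.np_trace, ← TB.np_trace, ← TB.np_trace, h r]
  constructor
  · rw [tp_det_roots, tp_det_roots, tp_det_roots, h1, Multiset.prod_add]
  · rw [← tp_card_roots A, ← tp_card_roots A', ← tp_card_roots D, h1, Multiset.card_add]

end Pool.Agent.SY
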